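import Mathlib
import Pool.Agent.L0h42.EG.E8

/-! Sieve sums along a progression to a modulus which is the product of the small primes. -/

set_option autoImplicit false
set_option linter.unusedSectionVars false
set_option linter.unusedVariables false

namespace Pool.Agent.L0h42.CP
open Finset
open Pool.Agent.L0h42.TB
open Pool.Agent.L0h42.EG
open Pool.Agent.H373R2.T7

/-- the product of the small primes -/
def Wp (w : ℕ) : ℕ := ∏ p ∈ pz w, p

lemma Wp_pos (w : ℕ) : 0 < Wp w := prod_pos fun p hp => (mem_pz.1 hp).2.pos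

lemma dvd_Wp {w p : ℕ} (hp : p ∈ pz w) : p ∣ Wp w := dvd_prod_of_mem (fun p => p) hp

/-- the product of the primes in `(w, Z]` -/
def Qp (w Z : ℕ) : ℕ := ∏ p ∈ pz Z \ pz w, p

lemma cop_WQ (w Z : ℕ) : (Wp w).Coprime (Qp w Z) := by
  unfold Wp Qp
  apply Nat.Coprime.prod_left
  intro p hp
  apply Nat.Coprime.prod_right
  intro q hq
  rw [mem_sdiff] at hq
  rw [Nat.coprime_primes (mem_pz.1 hp).2 (mem_pz.1 hq.1).2]
  rintro rfl
  exact hq.2 hp

lemma RR_dvd_Qp {w z R Z d : ℕ} (hwz : w ≤ z) (hRZ : R ≤ Z) (hd : d ∈ RR z R) : d ∣ Qp w Z := by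
  obtain ⟨⟨h1, h2⟩, h3, h4⟩ := mem_RR.1 hd
  rw [← Nat.prod_primeFactors_of_squarefree h3]
  unfold Qp
  apply prod_dvd_prod_of_subset
  intro p hp
  have hpp := Nat.prime_of_mem_primeFactors hp
  have hpd := Nat.dvd_of_mem_primeFactors hp
  rw [mem_sdiff, mem_pz, mem_pz]
  refine ⟨⟨((Nat.le_of_dvd (by omega) hpd).trans h2).trans hRZ, hpp⟩, ?_⟩
  rintro ⟨h5, _⟩
  exact h4 p (mem_pz.2 ⟨h5.trans hwz, hpp⟩) hpd

section aff
variable {κ : Type*} [Fintype κ] [DecidableEq κ]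

/-- The shifted forms: modulo the small primes they are `r`, modulo the other primes they are `(c - g) / W`. -/
def cs (u v : ℤ) (W Q : ℕ) (g : ℤ) (r : ℕ) (c : κ → ℤ) : κ → ℤ := fun x => r * (Q * v) + (c x - g) * u * (W * u)

lemma cs_small {u v : ℤ} {W Q : ℕ} (huv : (W : ℤ) * u + Q * v = 1) (g : ℤ) (r : ℕ) (c : κ → ℤ) (x : κ) (a : ℤ) (p : ℕ) (hp : p ∣ W) :
    (p : ℤ) ∣ a - cs u v W Q g r c x ↔ (p : ℤ) ∣ a - r := by
  have hpW : (p : ℤ) ∣ (W : ℤ) := by exact_mod_cast hp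
  have e : a - cs u v W Q g r c x = (a - r) + (W : ℤ) * (r * u - (c x - g) * u * u) := by
    unfold cs
    have h2 : (Q : ℤ) * v = 1 - W * u := by linarith
    rw [h2]
    ring
  rw [e]
  exact (Int.dvd_add_left (hpW.mul_right _))

lemma cs_large {u v : ℤ} {W Q : ℕ} (huv : (W : ℤ) * u + Q * v = 1) (g : ℤ) (r : ℕ) (c : κ → ℤ) (x : κ) (a : ℤ) (D : ℕ) (hD : D ∣ Q) :
    (D : ℤ) ∣ a - cs u v W Q g r c x ↔ (D : ℤ) ∣ (W * a + g) - c x := by
  have hDQ : (D : ℤ) ∣ (Q : ℤ) := by exact_mod_cast hD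
  have hcop : IsCoprime (D : ℤ) (W : ℤ) := by
    obtain ⟨e, he⟩ := hDQ
    refine ⟨e * v, u, ?_⟩
    rw [he] at huv
    linarith
  have e : (W : ℤ) * (a - cs u v W Q g r c x) = (W * a + g - c x) + (Q : ℤ) * (-(W * r * v) + (c x - g) * (v + W * u * v)) := by
    unfold cs
    have h2 : (W : ℤ) * u = 1 - Q * v := by linarith
    have e1 : (W : ℤ) * (a - (r * (Q * v) + (c x - g) * u * (W * u))) = W * a - W * r * (Q * v) - (c x - g) * (W * u) * (W * u) := by ring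
    rw [e1, h2]
    ring
  constructor
  · intro h
    have h1 : (D : ℤ) ∣ (W : ℤ) * (a - cs u v W Q g r c x) := h.mul_left _
    rw [e] at h1
    exact (Int.dvd_add_left (hDQ.mul_right _)).1 h1
  · intro h
    have h1 : (D : ℤ) ∣ (W : ℤ) * (a - cs u v W Q g r c x) := by
      rw [e]
      exact dvd_add h (hDQ.mul_right _)
    exact hcop.dvd_of_dvd_mul_left h1

variable {w z R Z : ℕ} {u v : ℤ} {g : ℕ}

/-- the density over the primes in `(w, z]` -/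
noncomputable def Vr (w z : ℕ) (c : κ → ℤ) : ℝ := ∏ p ∈ pz z \ pz w, (1 - (nu c p : ℝ) / p)

lemma Vr_nonneg (w z : ℕ) (c : κ → ℤ) : 0 ≤ Vr w z c := by
  unfold Vr
  apply prod_nonneg
  intro p hp
  rw [mem_sdiff] at hp
  have hp0 : (0 : ℝ) < p := by exact_mod_cast (mem_pz.1 hp.1).2.pos
  have := nu_le_self c p
  rw [sub_nonneg, div_le_one hp0]
  exact_mod_cast this

lemma Vr_le_one (w z : ℕ) (c : κ → ℤ) : Vr w z c ≤ 1 := by
  unfold Vr
  apply prod_le_one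
  · intro p hp
    rw [mem_sdiff] at hp
    have hp0 : (0 : ℝ) < p := by exact_mod_cast (mem_pz.1 hp.1).2.pos
    have := nu_le_self c p
    rw [sub_nonneg, div_le_one hp0]
    exact_mod_cast this
  · intro p _
    have : (0 : ℝ) ≤ (nu c p : ℝ) / p := by positivity
    linarith

lemma hit_cs (huv : (Wp w : ℤ) * u + Qp w Z * v = 1) (hwz : w ≤ z) (hRZ : R ≤ Z) (r : ℕ) (c : κ → ℤ) (d : κ → ℕ) (hd : d ∈ PD κ z R) (a : ℕ) :
    Hit (cs u v (Wp w) (Qp w Z) g r c) d a ↔ Hit c d (Wp w * a + g) := by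
  unfold Hit
  apply forall_congr'
  intro x
  rw [cs_large huv g r c x a (d x) (RR_dvd_Qp hwz hRZ (mem_PD.1 hd x))]
  push_cast
  exact Iff.rfl

lemma SS_cs (huv : (Wp w : ℤ) * u + Qp w Z * v = 1) (hwz : w ≤ z) (hRZ : R ≤ Z) (r : ℕ) (c : κ → ℤ) (Λ : (κ → ℕ) → ℝ) (a : ℕ) :
    SS z R Λ (cs u v (Wp w) (Qp w Z) g r c) a = SS z R Λ c (Wp w * a + g) := by
  classical
  unfold SS
  apply sum_congr rfl
  intro d hd
  congr 1
  exact if_congr (hit_cs huv hwz hRZ r c d hd a) rfl rfl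

lemma hitlc_cs (huv : (Wp w : ℤ) * u + Qp w Z * v = 1) (hwz : w ≤ z) (hRZ : R ≤ Z) (r : ℕ) (c : κ → ℤ) (x : (κ → ℕ) × (κ → ℕ))
    (hx : x ∈ PD κ z R ×ˢ PD κ z R) (a : ℕ) :
    Hit (cs u v (Wp w) (Qp w Z) g r c) (lc x) a ↔ Hit c (lc x) (Wp w * a + g) := by
  rw [mem_product] at hx
  rw [hit_lcm, hit_lcm, hit_cs huv hwz hRZ r c x.1 hx.1 a, hit_cs huv hwz hRZ r c x.2 hx.2 a]

lemma p_dvd_Qp {p : ℕ} (hzZ : z ≤ Z) (hp : p ∈ pz z \ pz w) : p ∣ Qp w Z := by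
  rw [mem_sdiff] at hp
  exact dvd_prod_of_mem (fun p => p) (mem_sdiff.2 ⟨pz_mono hzZ hp.1, hp.2⟩)

lemma som_cs_small [Nonempty κ] (huv : (Wp w : ℤ) * u + Qp w Z * v = 1) (r : ℕ) (c : κ → ℤ) {p : ℕ} (hp : p ∈ pz w) (a : ℕ) :
    Som (cs u v (Wp w) (Qp w Z) g r c) p a ↔ (p : ℤ) ∣ (a : ℤ) - r := by
  unfold Som
  constructor
  · rintro ⟨x, hx⟩
    exact (cs_small huv g r c x a p (dvd_Wp hp)).1 hx
  · intro h
    exact ⟨Classical.arbitrary κ, (cs_small huv g r c _ a p (dvd_Wp hp)).2 h⟩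

lemma som_cs_large (huv : (Wp w : ℤ) * u + Qp w Z * v = 1) (hzZ : z ≤ Z) (r : ℕ) (c : κ → ℤ) {p : ℕ} (hp : p ∈ pz z \ pz w) (a : ℕ) :
    Som (cs u v (Wp w) (Qp w Z) g r c) p a ↔ Som c p (Wp w * a + g) := by
  unfold Som
  apply exists_congr
  intro x
  rw [cs_large huv g r c x a p (p_dvd_Qp hzZ hp)]
  push_cast
  exact Iff.rfl

lemma nu_cs_large (huv : (Wp w : ℤ) * u + Qp w Z * v = 1) (hzZ : z ≤ Z) (r : ℕ) (c : κ → ℤ) {p : ℕ} (hp : p ∈ pz z \ pz w) :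
    nu (cs u v (Wp w) (Qp w Z) g r c) p = nu c p := by
  have hpp : p.Prime := (mem_pz.1 (mem_sdiff.1 hp).1).2
  have : NeZero p := ⟨hpp.ne_zero⟩
  have : Fact p.Prime := ⟨hpp⟩
  rw [nu_eq, nu_eq]
  have hQ0 : ((Qp w Z : ℕ) : ZMod p) = 0 := by
    rw [ZMod.natCast_eq_zero_iff]
    exact p_dvd_Qp hzZ hp
  have h1 : ((Wp w : ℕ) : ZMod p) * (u : ZMod p) = 1 := by
    have := congrArg (fun t : ℤ => (t : ZMod p)) huv
    push_cast at this
    rw [hQ0, zero_mul, add_zero] at this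
    exact this
  have h2 : ∀ x : κ, ((cs u v (Wp w) (Qp w Z) g r c x : ℤ) : ZMod p) = (((c x : ℤ) : ZMod p) - g) * u := by
    intro x
    unfold cs
    push_cast
    rw [hQ0, h1]
    ring
  have h3 : (univ.image (fun x : κ => ((cs u v (Wp w) (Qp w Z) g r c x : ℤ) : ZMod p))) =
      (univ.image (fun x : κ => ((c x : ℤ) : ZMod p))).image (fun y : ZMod p => (y - (g : ZMod p)) * (u : ZMod p)) := by
    rw [image_image]
    apply image_congr
    intro x _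
    exact h2 x
  rw [h3]
  apply card_image_of_injective
  intro y1 y2 hy
  have hu0 : (u : ZMod p) ≠ 0 := fun h => by
    rw [h, mul_zero] at h1
    exact zero_ne_one h1
  simp only at hy
  have := mul_right_cancel₀ hu0 hy
  exact sub_left_inj.1 this

lemma nu_cs_small [Nonempty κ] (huv : (Wp w : ℤ) * u + Qp w Z * v = 1) (r : ℕ) (c : κ → ℤ) {p : ℕ} (hp : p ∈ pz w) :
    nu (cs u v (Wp w) (Qp w Z) g r c) p = 1 := by
  have hpp : p.Prime := (mem_pz.1 hp).2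
  have : NeZero p := ⟨hpp.ne_zero⟩
  rw [nu_eq]
  have h2 : ∀ x : κ, ((cs u v (Wp w) (Qp w Z) g r c x : ℤ) : ZMod p) = (r : ZMod p) := by
    intro x
    have h3 := (cs_small huv g r c x (cs u v (Wp w) (Qp w Z) g r c x) p (dvd_Wp hp)).1 (by simp)
    have h4 := (ZMod.intCast_eq_intCast_iff_dvd_sub (r : ℤ) (cs u v (Wp w) (Qp w Z) g r c x) p).2 h3
    rw [← h4]
    push_cast
    rfl
  have h3 : (univ.image (fun x : κ => ((cs u v (Wp w) (Qp w Z) g r c x : ℤ) : ZMod p))) = {(r : ZMod p)} := by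
    ext y
    simp only [mem_image, mem_univ, true_and, mem_singleton]
    constructor
    · rintro ⟨x, hx⟩
      rw [← hx]
      exact h2 x
    · intro hy
      exact ⟨Classical.arbitrary κ, by rw [hy]; exact h2 _⟩
  rw [h3, card_singleton]

lemma VV_cs [Nonempty κ] (huv : (Wp w : ℤ) * u + Qp w Z * v = 1) (hwz : w ≤ z) (hzZ : z ≤ Z) (r : ℕ) (c : κ → ℤ) :
    VV z (cs u v (Wp w) (Qp w Z) g r c) = Vz w * Vr w z c := by
  rw [VV_split w z hwz]
  have e1 : VV w (cs u v (Wp w) (Qp w Z) g r c) = Vz w := by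
    unfold VV Vz
    apply prod_congr rfl
    intro p hp
    rw [nu_cs_small huv r c hp]
    push_cast
    rfl
  have e2 : ∏ p ∈ pz z \ pz w, (1 - (nu (cs u v (Wp w) (Qp w Z) g r c) p : ℝ) / p) = Vr w z c := by
    unfold Vr
    apply prod_congr rfl
    intro p hp
    rw [nu_cs_large huv hzZ r c hp]
  rw [e1, e2]
  ring

/-- the sum over the classes `r` -/
lemma Gr_cs [Nonempty κ] (huv : (Wp w : ℤ) * u + Qp w Z * v = 1) (hwz : w ≤ z) (hzZ : z ≤ Z) (c : κ → ℤ)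
    (hg : ∀ x, ∀ p ∈ pz w, ¬ (p : ℤ) ∣ (g : ℤ) - c x) (a : ℕ) :
    ∑ r ∈ range (Wp w), Gr z (cs u v (Wp w) (Qp w Z) g r c) a = (Wp w * Vz w) * Gr z c (Wp w * a + g) := by
  classical
  have h1 : ∀ r ∈ range (Wp w), Gr z (cs u v (Wp w) (Qp w Z) g r c) a =
      (if Rgh w (fun _ : Unit => (a : ℤ)) r then 1 else 0) * Gr z c (Wp w * a + g) := by
    intro r _
    have key : Rgh z (cs u v (Wp w) (Qp w Z) g r c) a ↔ (Rgh w (fun _ : Unit => (a : ℤ)) r ∧ Rgh z c (Wp w * a + g)) := by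
      unfold Rgh
      constructor
      · intro h
        refine ⟨fun p hp hs => ?_, fun p hp hs => ?_⟩
        · obtain ⟨_, hs⟩ := hs
          apply h p (pz_mono hwz hp)
          rw [som_cs_small huv r c hp]
          have := (dvd_neg.2 hs)
          have e : -((r : ℤ) - a) = (a : ℤ) - r := by ring
          rwa [e] at this
        · by_cases hpw : p ∈ pz w
          · obtain ⟨x, hx⟩ := hs
            apply hg x p hpw
            have hpW : (p : ℤ) ∣ ((Wp w : ℕ) : ℤ) := by exact_mod_cast dvd_Wp hpw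
            have e : (((Wp w * a + g : ℕ)) : ℤ) - c x = ((g : ℤ) - c x) + ((Wp w : ℕ) : ℤ) * a := by push_cast; ring
            rw [e] at hx
            exact (Int.dvd_add_left (hpW.mul_right _)).1 hx
          · exact h p hp ((som_cs_large huv hzZ r c (mem_sdiff.2 ⟨hp, hpw⟩) a).2 hs)
      · rintro ⟨ha, hb⟩ p hp hs
        by_cases hpw : p ∈ pz w
        · rw [som_cs_small huv r c hpw] at hs
          apply ha p hpw
          refine ⟨(), ?_⟩
          have := (dvd_neg.2 hs)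
          have e : -((a : ℤ) - r) = (r : ℤ) - a := by ring
          rwa [e] at this
        · exact hb p hp ((som_cs_large huv hzZ r c (mem_sdiff.2 ⟨hp, hpw⟩) a).1 hs)
    unfold Gr
    by_cases k1 : Rgh w (fun _ : Unit => (a : ℤ)) r
    · by_cases k2 : Rgh z c (Wp w * a + g)
      · rw [if_pos (key.2 ⟨k1, k2⟩), if_pos k1, if_pos k2, one_mul]
      · rw [if_neg (fun h => k2 (key.1 h).2), if_neg k2, mul_zero]
    · rw [if_neg (fun h => k1 (key.1 h).1), if_neg k1, zero_mul]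
  rw [sum_congr rfl h1, ← sum_mul]
  congr 1
  rw [← sum_filter, sum_const, nsmul_eq_mul, mul_one]
  have h2 := card_period (κ := Unit) w (fun _ : Unit => (a : ℤ))
  have h3 : VV w (fun _ : Unit => (a : ℤ)) = Vz w := by
    unfold VV Vz
    apply prod_congr rfl
    intro p hp
    have : NeZero p := ⟨(mem_pz.1 hp).2.ne_zero⟩
    rw [nu_eq]
    simp
  rw [h3] at h2
  exact h2

open Classical in
/-- **the main terms along a progression, over a family.** -/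
theorem main_aff [Nonempty κ] {τ : Type*} (T : Finset τ) (c : τ → κ → ℤ) (w z R y1 y2 N r K Q g : ℕ) (hy : y1 ≤ y2) (hyN : y2 ≤ N)
    (hwz : w ≤ z) (hg : ∀ t ∈ T, ∀ x, ∀ p ∈ pz w, ¬ (p : ℤ) ∣ (g : ℤ) - c t x)
    (hK : Fintype.card κ ≤ K) (hK1 : 1 ≤ K) (hz : 1 ≤ z) (hR : 1 ≤ R)
    (Λ : (κ → ℕ) → ℝ) (W : ℝ) (hW : 0 ≤ W) (hΛ : ∀ d ∈ PD κ z R, |Λ d| ≤ W) (hs : ∀ d, Λ d ≠ 0 → ∏ l, d l ≤ Q)
    (Γ : ℝ) (hΓ : 0 ≤ Γ) (hconf : ∀ x ∈ PD κ z R ×ˢ PD κ z R, Λ x.1 ≠ 0 → Λ x.2 ≠ 0 → Conf x →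
      ∑ t ∈ T, (((Ioc y1 y2).filter (fun a => Hit (c t) (lc x) (Wp w * a + g))).card : ℝ) ≤ Γ * (1 / (∏ l, lc x l : ℕ))) :
    ∑ t ∈ T, |∑ a ∈ Ioc y1 y2, Gr z (c t) (Wp w * a + g) * SS z R Λ (c t) (Wp w * a + g) ^ 2 - ((y2 : ℝ) - y1) * Vr w z (c t) * Qf z R Λ| ≤
      (Vz w)⁻¹ * (W * W * ((1 + Real.log R) ^ 3) ^ (Fintype.card κ) *
        (T.card * (2 * (((z : ℝ) + 1) ^ r * (K : ℝ) ^ r * (Q * Q)) + 4 * N * Real.exp (3 * (K * (1 + Real.log z)) - r)) +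
          (Γ + T.card * N) * ((K : ℝ) ^ 2 * (9 / z)))) := by
  obtain ⟨Z, hZ⟩ : ∃ Z, Z = max z R := ⟨_, rfl⟩
  have hzZ : z ≤ Z := by rw [hZ]; exact le_max_left _ _
  have hRZ : R ≤ Z := by rw [hZ]; exact le_max_right _ _
  obtain ⟨u, v, huv⟩ : ∃ u v : ℤ, (Wp w : ℤ) * u + Qp w Z * v = 1 := by
    obtain ⟨a, b, hab⟩ := Nat.isCoprime_iff_coprime.2 (cop_WQ w Z)
    exact ⟨a, b, by linarith⟩
  have hW0 : (0 : ℝ) < Wp w := by exact_mod_cast Wp_pos w
  have hV0 := Vz_pos w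
  obtain ⟨P, hP⟩ : ∃ P, P = Wp w := ⟨_, rfl⟩
  have key := main_gen (T ×ˢ range (Wp w)) (fun t => cs u v (Wp w) (Qp w Z) g t.2 (c t.1)) z R y1 y2 N r K Q hy hyN hK hK1 hz hR Λ W hW hΛ hs
    (Wp w * Γ) (by positivity) (by
      intro x hx h1 h2 h3
      have h4 := hconf x hx h1 h2 h3
      rw [sum_product]
      have h5 : ∀ t ∈ T, ∑ r ∈ range (Wp w), (((Ioc y1 y2).filter (fun a => Hit (cs u v (Wp w) (Qp w Z) g r (c t)) (lc x) a)).card : ℝ) =
          Wp w * (((Ioc y1 y2).filter (fun a => Hit (c t) (lc x) (Wp w * a + g))).card : ℝ) := by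
        intro t _
        have h6 : ∀ r ∈ range (Wp w), (((Ioc y1 y2).filter (fun a => Hit (cs u v (Wp w) (Qp w Z) g r (c t)) (lc x) a)).card : ℝ) =
            (((Ioc y1 y2).filter (fun a => Hit (c t) (lc x) (Wp w * a + g))).card : ℝ) := by
          intro r _
          congr 2
          apply filter_congr
          intro a _
          exact hitlc_cs huv hwz hRZ r (c t) x hx a
        rw [sum_congr rfl h6, sum_const, card_range, nsmul_eq_mul]
      rw [sum_congr rfl h5, ← mul_sum, mul_assoc]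
      exact mul_le_mul_of_nonneg_left h4 hW0.le)
  rw [card_product, card_range, sum_product] at key
  have low : ∀ t ∈ T, (Wp w * Vz w) * |∑ a ∈ Ioc y1 y2, Gr z (c t) (Wp w * a + g) * SS z R Λ (c t) (Wp w * a + g) ^ 2 -
        ((y2 : ℝ) - y1) * Vr w z (c t) * Qf z R Λ| ≤
      ∑ r ∈ range (Wp w), |∑ a ∈ Ioc y1 y2, Gr z (cs u v (Wp w) (Qp w Z) g r (c t)) a * SS z R Λ (cs u v (Wp w) (Qp w Z) g r (c t)) a ^ 2 -
        ((y2 : ℝ) - y1) * VV z (cs u v (Wp w) (Qp w Z) g r (c t)) * Qf z R Λ| := by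
    intro t ht
    refine le_trans (le_of_eq ?_) (abs_sum_le_sum_abs _ _)
    rw [sum_sub_distrib]
    have e1 : ∑ r ∈ range (Wp w), ∑ a ∈ Ioc y1 y2, Gr z (cs u v (Wp w) (Qp w Z) g r (c t)) a * SS z R Λ (cs u v (Wp w) (Qp w Z) g r (c t)) a ^ 2 =
        (Wp w * Vz w) * ∑ a ∈ Ioc y1 y2, Gr z (c t) (Wp w * a + g) * SS z R Λ (c t) (Wp w * a + g) ^ 2 := by
      rw [sum_comm, mul_sum]
      apply sum_congr rfl
      intro a _
      have e2 : ∀ r ∈ range (Wp w), Gr z (cs u v (Wp w) (Qp w Z) g r (c t)) a * SS z R Λ (cs u v (Wp w) (Qp w Z) g r (c t)) a ^ 2 =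
          Gr z (cs u v (Wp w) (Qp w Z) g r (c t)) a * SS z R Λ (c t) (Wp w * a + g) ^ 2 := by
        intro r _
        rw [SS_cs huv hwz hRZ r (c t) Λ a]
      rw [sum_congr rfl e2, ← sum_mul, Gr_cs huv hwz hzZ (c t) (hg t ht) a]
      ring
    have e3 : ∑ r ∈ range (Wp w), ((y2 : ℝ) - y1) * VV z (cs u v (Wp w) (Qp w Z) g r (c t)) * Qf z R Λ =
        (Wp w * Vz w) * (((y2 : ℝ) - y1) * Vr w z (c t) * Qf z R Λ) := by
      have e4 : ∀ r ∈ range (Wp w), ((y2 : ℝ) - y1) * VV z (cs u v (Wp w) (Qp w Z) g r (c t)) * Qf z R Λ =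
          ((y2 : ℝ) - y1) * (Vz w * Vr w z (c t)) * Qf z R Λ := by
        intro r _
        rw [VV_cs huv hwz hzZ r (c t)]
      rw [sum_congr rfl e4, sum_const, card_range, nsmul_eq_mul]
      ring
    rw [e1, e3, ← mul_sub, abs_mul, abs_of_pos (mul_pos hW0 hV0)]
  have h1 := (sum_le_sum low).trans key
  rw [← mul_sum] at h1
  rw [← div_eq_inv_mul, le_div_iff₀ hV0]
  have h2 : (Wp w : ℝ) * ((∑ t ∈ T, |∑ a ∈ Ioc y1 y2, Gr z (c t) (Wp w * a + g) * SS z R Λ (c t) (Wp w * a + g) ^ 2 -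
        ((y2 : ℝ) - y1) * Vr w z (c t) * Qf z R Λ|) * Vz w) ≤
      Wp w * (W * W * ((1 + Real.log R) ^ 3) ^ (Fintype.card κ) *
        (T.card * (2 * (((z : ℝ) + 1) ^ r * (K : ℝ) ^ r * (Q * Q)) + 4 * N * Real.exp (3 * (K * (1 + Real.log z)) - r)) +
          (Γ + T.card * N) * ((K : ℝ) ^ 2 * (9 / z)))) := by
    refine le_trans (le_of_eq ?_) (h1.trans (le_of_eq ?_))
    · ring
    · push_cast
      ring
  exact le_of_mul_le_mul_left h2 hW0

end aff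

end Pool.Agent.L0h42.CP
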