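import Mathlib
import Pool.Agent.L0h42.CP.C1

/-! The first two moments of the sieve sums along a progression. -/

set_option autoImplicit false
set_option linter.unusedSectionVars false
set_option linter.unusedVariables false

namespace Pool.Agent.L0h42.CP
open Finset
open Pool.Agent.L0h42.TB
open Pool.Agent.L0h42.EG
open Pool.Agent.H373R2.T7

section cnt
variable {k : ℕ}

lemma Vr_cz (w z : ℕ) (h : Fin k → ℕ) (s : ℤ) : Vr w z (cz h s) = Vr w z (cneg h) := by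
  unfold Vr
  apply prod_congr rfl
  intro p hp
  have : NeZero p := ⟨(mem_pz.1 (mem_sdiff.1 hp).1).2.ne_zero⟩
  rw [nu_cz]

/-- the point reached from `n` by the shift `s` -/
lemma pt_cast {W n s g : ℕ} (h : s ≤ n) : ((W * (n - s) + g : ℕ) : ℤ) = ((W * n + g : ℕ) : ℤ) + (-((W : ℤ) * s)) := by
  push_cast [Nat.cast_sub h]
  ring

open Classical in
lemma tcount_aff (N Y W g : ℕ) (hW : 1 ≤ W) (h : Fin k → ℕ) (hN : W * (4 * Y) + g ≤ N) (M : Finset ℕ) (hM : M ⊆ Icc 1 Y) (D : Fin k → ℕ) (n : ℕ)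
    (hn : n ∈ Ioc (2 * Y) (4 * Y)) :
    ∑ s ∈ M, (if Hit (cneg h) D (W * (n - s) + g) then (1 : ℝ) else 0) ≤ (((Icc 1 N).filter (fun a => Hit (cneg h) D a)).card : ℝ) := by
  rw [mem_Ioc] at hn
  rw [← sum_filter, sum_const, nsmul_eq_mul, mul_one]
  have : (M.filter (fun s => Hit (cneg h) D (W * (n - s) + g))).card ≤ ((Icc 1 N).filter (fun a => Hit (cneg h) D a)).card := by
    apply card_le_card_of_injOn (fun s => W * (n - s) + g)
    · intro j hj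
      rw [mem_coe, mem_filter] at hj
      have hj1 := mem_Icc.1 (hM hj.1)
      rw [mem_coe, mem_filter, mem_Icc]
      refine ⟨?_, hj.2⟩
      change 1 ≤ W * (n - j) + g ∧ W * (n - j) + g ≤ N
      have h1 : 1 ≤ n - j := by omega
      have h2 : n - j ≤ 4 * Y := by omega
      constructor
      · have := Nat.mul_le_mul hW h1
        omega
      · have := Nat.mul_le_mul_left W h2
        omega
    · intro i hi j hj hij
      rw [mem_coe, mem_filter] at hi hj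
      have hi1 := mem_Icc.1 (hM hi.1)
      have hj1 := mem_Icc.1 (hM hj.1)
      simp only at hij
      have h1 : W * (n - i) = W * (n - j) := by omega
      have h2 := Nat.eq_of_mul_eq_mul_left (by omega) h1
      omega
  exact_mod_cast this

open Classical in
lemma pair_count_aff (z R N Y W g : ℕ) (hW : 1 ≤ W) (h : Fin k → ℕ) (hinj : Function.Injective h) (hz : ∀ l, h l ≤ z)
    (hN : W * (4 * Y) + g ≤ N) (M : Finset ℕ) (hM : M ⊆ Icc 1 Y)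
    (x : (Fin k ⊕ Fin k → ℕ) × (Fin k ⊕ Fin k → ℕ)) (h1 : x.1 ∈ PD (Fin k ⊕ Fin k) z R) (h2 : x.2 ∈ PD (Fin k ⊕ Fin k) z R)
    (hDl : ∏ l, lc (xl x) l ≤ N) (hDr : ∏ l, lc (xr x) l ≤ N) :
    ∑ t ∈ M ×ˢ M, (((Ioc (2 * Y) (4 * Y)).filter
      (fun n => Hit (c2 h (-((W : ℤ) * t.1)) (-((W : ℤ) * t.2))) (lc x) (W * n + g))).card : ℝ) ≤
      4 * N ^ 3 * (1 / (∏ l, lc x l : ℕ)) := by
  have hl1 : (xl x).1 ∈ PD (Fin k) z R := mem_PD.2 fun l => mem_PD.1 h1 _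
  have hl2 : (xl x).2 ∈ PD (Fin k) z R := mem_PD.2 fun l => mem_PD.1 h2 _
  have hr1 : (xr x).1 ∈ PD (Fin k) z R := mem_PD.2 fun l => mem_PD.1 h1 _
  have hr2 : (xr x).2 ∈ PD (Fin k) z R := mem_PD.2 fun l => mem_PD.1 h2 _
  have d1 := hit_count z R N N h hinj hz (xl x) hl1 hl2 le_rfl hDl
  have d2 := hit_count z R N N h hinj hz (xr x) hr1 hr2 le_rfl hDr
  have e1 : ∀ t ∈ M ×ˢ M, (((Ioc (2 * Y) (4 * Y)).filter
      (fun n => Hit (c2 h (-((W : ℤ) * t.1)) (-((W : ℤ) * t.2))) (lc x) (W * n + g))).card : ℝ) =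
      ∑ n ∈ Ioc (2 * Y) (4 * Y), (if Hit (cneg h) (lc (xl x)) (W * (n - t.1) + g) then (1 : ℝ) else 0) *
        (if Hit (cneg h) (lc (xr x)) (W * (n - t.2) + g) then (1 : ℝ) else 0) := by
    intro t ht
    rw [mem_product] at ht
    have j1 := mem_Icc.1 (hM ht.1)
    have j2 := mem_Icc.1 (hM ht.2)
    rw [card_filter]
    push_cast
    apply sum_congr rfl
    intro n hn
    rw [mem_Ioc] at hn
    have q := hit_c2 h (n := W * n + g) (a := W * (n - t.1) + g) (a' := W * (n - t.2) + g) (s := -((W : ℤ) * t.1)) (s' := -((W : ℤ) * t.2))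
      (pt_cast (by omega)) (pt_cast (by omega)) (lc x)
    have q2 : (Hit (cneg h) (fun l => lc x (Sum.inl l)) (W * (n - t.1) + g) ↔ Hit (cneg h) (lc (xl x)) (W * (n - t.1) + g)) := Iff.rfl
    have q3 : (Hit (cneg h) (fun l => lc x (Sum.inr l)) (W * (n - t.2) + g) ↔ Hit (cneg h) (lc (xr x)) (W * (n - t.2) + g)) := Iff.rfl
    rw [q2, q3] at q
    by_cases q4 : Hit (cneg h) (lc (xl x)) (W * (n - t.1) + g)
    · by_cases q5 : Hit (cneg h) (lc (xr x)) (W * (n - t.2) + g)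
      · rw [if_pos q4, if_pos q5, if_pos (q.2 ⟨q4, q5⟩), mul_one]
      · rw [if_neg q5, if_neg fun q6 => q5 (q.1 q6).2, mul_zero]
    · rw [if_neg q4, if_neg fun q6 => q4 (q.1 q6).1, zero_mul]
  rw [sum_congr rfl e1, sum_comm]
  have e2 : ∀ n ∈ Ioc (2 * Y) (4 * Y), ∑ t ∈ M ×ˢ M, (if Hit (cneg h) (lc (xl x)) (W * (n - t.1) + g) then (1 : ℝ) else 0) *
        (if Hit (cneg h) (lc (xr x)) (W * (n - t.2) + g) then (1 : ℝ) else 0) ≤ (2 * N * (1 / (∏ l, lc (xl x) l : ℕ))) * (2 * N * (1 / (∏ l, lc (xr x) l : ℕ))) := by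
    intro n hn
    rw [sum_prod_mul M M (fun s => if Hit (cneg h) (lc (xl x)) (W * (n - s) + g) then (1 : ℝ) else 0)
      (fun s => if Hit (cneg h) (lc (xr x)) (W * (n - s) + g) then (1 : ℝ) else 0)]
    apply mul_le_mul
    · exact (tcount_aff N Y W g hW h hN M hM (lc (xl x)) n hn).trans d1
    · exact (tcount_aff N Y W g hW h hN M hM (lc (xr x)) n hn).trans d2
    · exact sum_nonneg fun _ _ => by split_ifs <;> norm_num
    · positivity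
  refine (sum_le_sum e2).trans ?_
  rw [sum_const, Nat.card_Ioc, nsmul_eq_mul, lc_prod]
  have hc : ((4 * Y - 2 * Y : ℕ) : ℝ) ≤ N := by
    have h9 : 1 * (4 * Y) ≤ W * (4 * Y) := Nat.mul_le_mul_right _ hW
    have : 4 * Y - 2 * Y ≤ N := by omega
    exact_mod_cast this
  push_cast
  calc ((4 * Y - 2 * Y : ℕ) : ℝ) * ((2 * N * (1 / ∏ l, (lc (xl x) l : ℝ))) * (2 * N * (1 / ∏ l, (lc (xr x) l : ℝ)))) ≤
      N * ((2 * N * (1 / ∏ l, (lc (xl x) l : ℝ))) * (2 * N * (1 / ∏ l, (lc (xr x) l : ℝ)))) := by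
        apply mul_le_mul_of_nonneg_right hc
        positivity
    _ = _ := by
        rw [one_div, one_div, one_div, mul_inv]
        ring

/-- coprimality of the two forms with the small primes -/
lemma small_free (w : ℕ) (h : Fin k → ℕ) (g : ℕ) (hg : ∀ l, ∀ p ∈ pz w, ¬ p ∣ g + h l) (s : ℕ) (l : Fin k) (p : ℕ) (hp : p ∈ pz w) :
    ¬ (p : ℤ) ∣ (g : ℤ) - cz h (-((Wp w : ℤ) * s)) l := by
  intro hd
  apply hg l p hp
  have hpW : (p : ℤ) ∣ ((Wp w : ℕ) : ℤ) := by exact_mod_cast dvd_Wp hp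
  have e : (g : ℤ) - cz h (-((Wp w : ℤ) * s)) l = ((g + h l : ℕ) : ℤ) + ((Wp w : ℕ) : ℤ) * (-(s : ℤ)) := by
    unfold cz
    push_cast
    ring
  rw [e] at hd
  have := (Int.dvd_add_left (hpW.mul_right _)).1 hd
  exact_mod_cast this

/-- **the second moment.** -/
theorem second_aff (k A B : ℕ) (hk : 1 ≤ k) : ∃ E0 : ℕ, ∀ E : ℕ, ∃ N0 : ℕ, ∀ N : ℕ, N0 ≤ N → ∀ z R Y w g : ℕ,
    Real.log N ^ E0 ≤ z → (z : ℝ) ≤ Real.log N ^ E → 1 ≤ R → R ^ 80 ≤ N → Wp w * (4 * Y) + g ≤ N → 1 ≤ w → w ≤ z →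
    ∀ h : Fin k → ℕ, Function.Injective h → (∀ l, h l ≤ z) → (∀ l, ∀ p ∈ pz w, ¬ p ∣ g + h l) → ∀ M ⊆ Icc 1 Y, ∀ Λ : (Fin k → ℕ) → ℝ,
    (∀ d ∈ PD (Fin k) z R, |Λ d| ≤ Real.log N ^ B) → (∀ d, Λ d ≠ 0 → ∏ l, d l ≤ R) →
    ∑ t ∈ M ×ˢ M, |∑ n ∈ Ioc (2 * Y) (4 * Y),
        FF z R h Λ (Wp w * (n - t.1) + g) * FF z R h Λ (Wp w * (n - t.2) + g) -
      2 * Y * Vr w z (c2 h (-((Wp w : ℤ) * t.1)) (-((Wp w : ℤ) * t.2))) * (Qf z R Λ * Qf z R Λ)| ≤ N ^ 3 / Real.log N ^ A := by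
  classical
  obtain ⟨E0, hE0⟩ := setup (2 * k) (2 * B) (A + 1) (by omega)
  refine ⟨E0, fun E => ?_⟩
  obtain ⟨N0, h0⟩ := hE0 E
  obtain ⟨N1, h1⟩ := Vz_inv_small E
  refine ⟨max N0 N1, ?_⟩
  intro N hN z R Y w g hz1 hz2 hR1 hR hY hw1 hwz h hinj hhz hg M hM Λ hΛ hs
  obtain ⟨hz, hL1, hR2N, r, hr⟩ := h0 N (le_trans (le_max_left _ _) hN) z R hz1 hz2 hR1 hR
  have hVw := h1 N (le_trans (le_max_right _ _) hN) w hw1 (le_trans (by exact_mod_cast hwz) hz2)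
  set L := Real.log N with hLd
  have hL0 : 0 < L := by linarith
  have hB0 : (0 : ℝ) ≤ L ^ B := by positivity
  have hLB : L ^ (2 * B) = L ^ B * L ^ B := by ring
  have hW1 : 1 ≤ Wp w := Wp_pos w
  obtain ⟨Λj, hΛj⟩ : ∃ Λj, Λj = Lj Λ Λ := ⟨_, rfl⟩
  have hj1 : ∀ δ ∈ PD (Fin k ⊕ Fin k) z R, |Λj δ| ≤ L ^ (2 * B) := by
    intro δ hδ
    rw [hΛj, hLB]
    unfold Lj
    rw [abs_mul]
    exact mul_le_mul (hΛ _ (mem_PD.2 fun l => mem_PD.1 hδ _)) (hΛ _ (mem_PD.2 fun l => mem_PD.1 hδ _)) (abs_nonneg _) hB0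
  have hj2 : ∀ δ, Λj δ ≠ 0 → ∏ l, δ (Sum.inl l) ≤ R ∧ ∏ l, δ (Sum.inr l) ≤ R := by
    intro δ hδ
    rw [hΛj] at hδ
    unfold Lj at hδ
    exact ⟨hs _ (left_ne_zero_of_mul hδ), hs _ (right_ne_zero_of_mul hδ)⟩
  have hj3 : ∀ δ, Λj δ ≠ 0 → ∏ l, δ l ≤ R * R := by
    intro δ hδ
    rw [Fintype.prod_sum_type]
    exact Nat.mul_le_mul (hj2 δ hδ).1 (hj2 δ hδ).2
  have hcard : Fintype.card (Fin k ⊕ Fin k) = 2 * k := by simp; omega
  have : Nonempty (Fin k ⊕ Fin k) := ⟨Sum.inl ⟨0, hk⟩⟩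
  obtain ⟨TT, hTT⟩ : ∃ TT, TT = M ×ˢ M := ⟨_, rfl⟩
  have hYN : 4 * Y ≤ N := by nlinarith
  have key := main_aff TT (fun t => c2 h (-((Wp w : ℤ) * t.1)) (-((Wp w : ℤ) * t.2))) w z R (2 * Y) (4 * Y) N r (2 * k) (R * R) g
    (by omega) hYN hwz (by
      intro t _ x p hp
      rcases x with l | l
      · exact small_free w h g hg t.1 l p hp
      · exact small_free w h g hg t.2 l p hp) hcard.le (by omega) hz hR1 Λj (L ^ (2 * B)) (by positivity) hj1 hj3 (4 * N ^ 3) (by positivity) (by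
      intro x hx hx1 hx2 _
      rw [mem_product] at hx
      rw [hTT]
      exact pair_count_aff z R N Y (Wp w) g hW1 h hinj hhz hY M hM x hx.1 hx.2
        (((lc_prod_le (xl x)).trans (Nat.mul_le_mul (hj2 _ hx1).1 (hj2 _ hx2).1)).trans hR2N)
        (((lc_prod_le (xr x)).trans (Nat.mul_le_mul (hj2 _ hx1).2 (hj2 _ hx2).2)).trans hR2N))
  rw [hcard] at key
  have e1 : ∀ t ∈ TT, |∑ n ∈ Ioc (2 * Y) (4 * Y),
        FF z R h Λ (Wp w * (n - t.1) + g) * FF z R h Λ (Wp w * (n - t.2) + g) -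
      2 * Y * Vr w z (c2 h (-((Wp w : ℤ) * t.1)) (-((Wp w : ℤ) * t.2))) * (Qf z R Λ * Qf z R Λ)| =
      |∑ a ∈ Ioc (2 * Y) (4 * Y), Gr z (c2 h (-((Wp w : ℤ) * t.1)) (-((Wp w : ℤ) * t.2))) (Wp w * a + g) *
        SS z R Λj (c2 h (-((Wp w : ℤ) * t.1)) (-((Wp w : ℤ) * t.2))) (Wp w * a + g) ^ 2 -
        (((4 * Y : ℕ) : ℝ) - ((2 * Y : ℕ) : ℝ)) * Vr w z (c2 h (-((Wp w : ℤ) * t.1)) (-((Wp w : ℤ) * t.2))) * Qf z R Λj| := by
    intro t ht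
    rw [hTT, mem_product] at ht
    have j1 := mem_Icc.1 (hM ht.1)
    have j2 := mem_Icc.1 (hM ht.2)
    congr 1
    rw [hΛj, Qf_joint]
    have e2 : (((4 * Y : ℕ) : ℝ) - ((2 * Y : ℕ) : ℝ)) = 2 * Y := by push_cast; ring
    rw [e2]
    congr 1
    apply sum_congr rfl
    intro n hn
    rw [mem_Ioc] at hn
    exact (FF_c2 z R Λ h (n := Wp w * n + g) (a := Wp w * (n - t.1) + g) (a' := Wp w * (n - t.2) + g) (s := -((Wp w : ℤ) * t.1)) (s' := -((Wp w : ℤ) * t.2))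
      (pt_cast (by omega)) (pt_cast (by omega))).symm
  rw [← hTT, sum_congr rfl e1]
  refine key.trans ?_
  have hc1 : (TT.card : ℝ) ≤ N ^ 2 := by
    have : TT.card ≤ N ^ 2 := by
      rw [hTT, card_product]
      have h1 : M.card ≤ N := by
        have := card_le_card hM
        rw [Nat.card_Icc] at this
        omega
      calc M.card * M.card ≤ N * N := Nat.mul_le_mul h1 h1
        _ = _ := by ring
    exact_mod_cast this
  have hRr : (1 : ℝ) ≤ R := by exact_mod_cast hR1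
  have hlR0 : 0 ≤ Real.log R := Real.log_nonneg hRr
  have hVi : 0 ≤ (Vz w)⁻¹ := (inv_pos.2 (Vz_pos w)).le
  have hUN : (0 : ℝ) ≤ (N : ℝ) ^ 2 := by positivity
  calc _ ≤ L * (L ^ (2 * B) * L ^ (2 * B) * ((1 + Real.log R) ^ 3) ^ (2 * k) *
        ((N ^ 2) * (2 * (((z : ℝ) + 1) ^ r * ((2 * k : ℕ) : ℝ) ^ r * ((R * R : ℕ) * (R * R : ℕ))) + 4 * N * Real.exp (3 * (((2 * k : ℕ) : ℝ) * (1 + Real.log z)) - r)) +
          (4 * N ^ 3 + (N ^ 2) * N) * (((2 * k : ℕ) : ℝ) ^ 2 * (9 / z)))) := by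
        gcongr
    _ = (L * N ^ 2) * (L ^ (2 * B) * L ^ (2 * B) * ((1 + Real.log R) ^ 3) ^ (2 * k) *
        ((2 * (((z : ℝ) + 1) ^ r * ((2 * k : ℕ) : ℝ) ^ r * ((R * R : ℕ) * (R * R : ℕ))) + 4 * N * Real.exp (3 * (((2 * k : ℕ) : ℝ) * (1 + Real.log z)) - r)) +
          5 * N * (((2 * k : ℕ) : ℝ) ^ 2 * (9 / z)))) := by ring
    _ ≤ (L * N ^ 2) * (N / L ^ (A + 1)) := mul_le_mul_of_nonneg_left hr (by positivity)
    _ = _ := by
        field_simp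
        ring

/-- **the first moment.** -/
theorem first_aff (k A B : ℕ) (hk : 1 ≤ k) : ∃ E0 : ℕ, ∀ E : ℕ, ∃ N0 : ℕ, ∀ N : ℕ, N0 ≤ N → ∀ z R Y w g : ℕ,
    Real.log N ^ E0 ≤ z → (z : ℝ) ≤ Real.log N ^ E → 1 ≤ R → R ^ 80 ≤ N → Wp w * (4 * Y) + g ≤ N → 1 ≤ w → w ≤ z →
    ∀ h : Fin k → ℕ, Function.Injective h → (∀ l, h l ≤ z) → (∀ l, ∀ p ∈ pz w, ¬ p ∣ g + h l) → ∀ Λ : (Fin k → ℕ) → ℝ,
    (∀ d ∈ PD (Fin k) z R, |Λ d| ≤ Real.log N ^ B) → (∀ d, Λ d ≠ 0 → ∏ l, d l ≤ R) → ∀ s : ℕ, 1 ≤ s → s ≤ Y →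
    |∑ n ∈ Ioc (2 * Y) (4 * Y), FF z R h Λ (Wp w * (n - s) + g) - 2 * Y * Vr w z (cneg h) * Qf z R Λ| ≤ N / Real.log N ^ A := by
  classical
  obtain ⟨E0, hE0⟩ := setup k B (A + 1) hk
  refine ⟨E0, fun E => ?_⟩
  obtain ⟨N0, h0⟩ := hE0 E
  obtain ⟨N1, h1⟩ := Vz_inv_small E
  refine ⟨max N0 N1, ?_⟩
  intro N hN z R Y w g hz1 hz2 hR1 hR hY hw1 hwz h hinj hhz hg Λ hΛ hs s hs1 hs2
  obtain ⟨hz, hL1, hR2N, r, hr⟩ := h0 N (le_trans (le_max_left _ _) hN) z R hz1 hz2 hR1 hR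
  have hVw := h1 N (le_trans (le_max_right _ _) hN) w hw1 (le_trans (by exact_mod_cast hwz) hz2)
  set L := Real.log N with hLd
  have hL0 : 0 < L := by linarith
  have hcard : Fintype.card (Fin k) = k := Fintype.card_fin k
  have hRR : R ≤ R * R := Nat.le_mul_self R
  have hW1 : 1 ≤ Wp w := Wp_pos w
  have hYN : 4 * Y ≤ N := by nlinarith
  have : Nonempty (Fin k) := ⟨⟨0, hk⟩⟩
  have key := main_aff ({()} : Finset Unit) (fun _ => cz h (-((Wp w : ℤ) * s))) w z R (2 * Y) (4 * Y) N r k (R * R) g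
    (by omega) hYN hwz (fun _ _ l p hp => small_free w h g hg s l p hp) hcard.le hk hz hR1 Λ (L ^ B) (by positivity) hΛ (fun d hd => (hs d hd).trans hRR) 0 le_rfl (by
      intro x hx hx1 hx2 hc
      rw [mem_product] at hx
      rw [sum_singleton, zero_mul, filter_eq_empty_iff.2, card_empty, Nat.cast_zero]
      intro n hn hh
      rw [mem_Ioc] at hn
      have h1 := (hit_cz h (n := Wp w * n + g) (a := Wp w * (n - s) + g) (s := -((Wp w : ℤ) * s)) (pt_cast (by omega)) (lc x)).1 hh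
      exact hc (hit_coprime hinj hhz hx.1 hx.2 h1))
  rw [hcard, sum_singleton, card_singleton, Vr_cz] at key
  have e1 : ∑ n ∈ Ioc (2 * Y) (4 * Y), FF z R h Λ (Wp w * (n - s) + g) =
      ∑ a ∈ Ioc (2 * Y) (4 * Y), Gr z (cz h (-((Wp w : ℤ) * s))) (Wp w * a + g) * SS z R Λ (cz h (-((Wp w : ℤ) * s))) (Wp w * a + g) ^ 2 := by
    apply sum_congr rfl
    intro n hn
    rw [mem_Ioc] at hn
    exact (FF_cz z R Λ h (n := Wp w * n + g) (a := Wp w * (n - s) + g) (s := -((Wp w : ℤ) * s)) (pt_cast (by omega))).symm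
  have e2 : (((4 * Y : ℕ) : ℝ) - ((2 * Y : ℕ) : ℝ)) = 2 * Y := by push_cast; ring
  rw [e2] at key
  rw [e1]
  refine key.trans ?_
  have hRr : (1 : ℝ) ≤ R := by exact_mod_cast hR1
  have hlR0 : 0 ≤ Real.log R := Real.log_nonneg hRr
  have hVi : 0 ≤ (Vz w)⁻¹ := (inv_pos.2 (Vz_pos w)).le
  have q0 : (0 : ℝ) ≤ (k : ℝ) ^ 2 * (9 / z) := by positivity
  have q1 : (0 : ℝ) ≤ N := Nat.cast_nonneg _
  have q2 : (0 : ℝ) ≤ N * ((k : ℝ) ^ 2 * (9 / z)) := by positivity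
  have q3 : (0 : ℝ) ≤ L ^ B * L ^ B * ((1 + Real.log R) ^ 3) ^ k := by positivity
  have hr' : L ^ B * L ^ B * ((1 + Real.log R) ^ 3) ^ k *
        (((1 : ℕ) : ℝ) * (2 * (((z : ℝ) + 1) ^ r * (k : ℝ) ^ r * ((R * R : ℕ) * (R * R : ℕ))) + 4 * N * Real.exp (3 * (k * (1 + Real.log z)) - r)) +
          (0 + ((1 : ℕ) : ℝ) * N) * ((k : ℝ) ^ 2 * (9 / z))) ≤ N / L ^ (A + 1) := by
    refine le_trans ?_ hr
    apply mul_le_mul_of_nonneg_left _ q3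
    push_cast
    nlinarith
  calc _ ≤ L * (N / L ^ (A + 1)) := mul_le_mul hVw hr' (by positivity) hL0.le
    _ = _ := by
        field_simp
        ring

end cnt

end Pool.Agent.L0h42.CP
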