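import Mathlib
import Pool.Agent.L0h42.CP.C2

/-! The singular factor over the primes in `(w, z]`, on average over pairs of points of an arbitrary set. -/

set_option autoImplicit false
set_option linter.unusedSectionVars false
set_option linter.unusedVariables false

namespace Pool.Agent.L0h42.CP
open Finset
open Pool.Agent.L0h42.TB
open Pool.Agent.L0h42.EG
open Pool.Agent.H373R2.T7

/-- the reciprocals of the small primes -/
lemma sum_inv_pz (E : ℕ) : ∃ N0 : ℕ, ∀ N : ℕ, N0 ≤ N → ∀ z : ℕ, 1 ≤ z → (z : ℝ) ≤ Real.log N ^ E →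
    ∑ p ∈ pz z, 1 / (p : ℝ) ≤ Real.log (Real.log N) := by
  obtain ⟨m1, h1⟩ := Vz_inv_small E
  obtain ⟨m2, h2⟩ := ev_L' 1
  refine ⟨max m1 m2, fun N hN z hz hzE => ?_⟩
  have hV := h1 N (le_trans (le_max_left _ _) hN) z hz hzE
  have hL := h2 N (le_trans (le_max_right _ _) hN)
  rw [Real.le_log_iff_exp_le (by linarith)]
  refine le_trans ?_ hV
  rw [le_inv_comm₀ (Real.exp_pos _) (Vz_pos z), ← Real.exp_neg, ← sum_neg_distrib, Real.exp_sum]
  unfold Vz
  apply prod_le_prod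
  · intro p hp
    have hp2 : (1 : ℝ) ≤ p := by exact_mod_cast (mem_pz.1 hp).2.one_lt.le
    have : 1 / (p : ℝ) ≤ 1 := by rw [div_le_one (by linarith)]; exact hp2
    linarith
  · intro p _
    have := Real.add_one_le_exp (-(1 / (p : ℝ)))
    linarith

/-- large logarithms -/
lemma ll_small (c : ℝ) : ∃ N0 : ℕ, ∀ N : ℕ, N0 ≤ N → c * Real.log (Real.log N) ^ 2 ≤ Real.log N ∧ 1 ≤ Real.log (Real.log N) := by
  have hlim : Filter.Tendsto (fun N : ℕ => Real.log (N : ℝ)) Filter.atTop Filter.atTop :=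
    Real.tendsto_log_atTop.comp (tendsto_natCast_atTop_atTop (R := ℝ))
  have h2 : ∀ᶠ N : ℕ in Filter.atTop, c * Real.log (Real.log N) ^ 2 ≤ Real.log N := by
    have h3 := (Real.isLittleO_pow_log_id_atTop (n := 2)).bound (show (0 : ℝ) < 1 / (|c| + 1) by positivity)
    have h4 := hlim.eventually h3
    filter_upwards [h4, hlim.eventually_ge_atTop 1] with N h5 h6
    simp only [id] at h5
    rw [Real.norm_of_nonneg (by positivity), Real.norm_of_nonneg (by linarith), one_div, inv_mul_eq_div,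
      le_div_iff₀ (by positivity)] at h5
    have h7 : 0 ≤ Real.log (Real.log N) ^ 2 := by positivity
    have h8 := le_abs_self c
    nlinarith
  have h3 : ∀ᶠ N : ℕ in Filter.atTop, 1 ≤ Real.log (Real.log (N : ℝ)) :=
    (Real.tendsto_log_atTop.comp hlim).eventually_ge_atTop 1
  obtain ⟨N0, h0⟩ := Filter.eventually_atTop.1 (h2.and h3)
  exact ⟨N0, h0⟩

section gen
variable {κ : Type*} [Fintype κ] [DecidableEq κ]

open Classical in
lemma som_count_gen (z y K : ℕ) (c : κ → ℤ) (hK : Fintype.card κ ≤ K) (S : Finset ℕ) (hS : S ⊆ pz z) :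
    (((Icc 1 y).filter (fun a => ∀ p ∈ S, Som c p a)).card : ℝ) ≤ y * ∏ p ∈ S, ((K : ℝ) / p) + ∏ _p ∈ S, (K : ℝ) := by
  have h1 := count_raw c (fun _ => 1) z y (fun _ => le_rfl) (fun _ p hp h => by
    have := (mem_pz.1 hp).2.one_lt
    have := Nat.le_of_dvd one_pos h
    omega) (fun _ _ _ => Nat.coprime_one_left _) S hS
  have e1 : (Icc 1 y).filter (fun a => Hit c (fun _ => 1) a ∧ ∀ p ∈ S, Som c p a) =
      (Icc 1 y).filter (fun a => ∀ p ∈ S, Som c p a) := by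
    apply filter_congr
    intro a _
    constructor
    · exact fun h => h.2
    · intro h2
      refine ⟨fun q => ?_, h2⟩
      simp
  rw [e1] at h1
  simp only [prod_const_one, Nat.cast_one, div_one] at h1
  have h2 := (abs_le.1 h1).2
  have hν : ∀ p, (nu c p : ℝ) ≤ K := by
    intro p
    exact_mod_cast (nu_le_card c p).trans hK
  have h3 : ∏ p ∈ S, (nu c p : ℝ) ≤ ∏ _p ∈ S, (K : ℝ) :=
    prod_le_prod (fun _ _ => Nat.cast_nonneg _) fun p _ => hν p
  have h4 : ∏ p ∈ S, ((nu c p : ℝ) / p) ≤ ∏ p ∈ S, ((K : ℝ) / p) :=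
    prod_le_prod (fun _ _ => by positivity) fun p _ => div_le_div_of_nonneg_right (hν p) (Nat.cast_nonneg _)
  have h5 := mul_le_mul_of_nonneg_left h4 (Nat.cast_nonneg (α := ℝ) y)
  linarith

open Classical in
lemma rare_gen (z w y v K : ℕ) (c : κ → ℤ) (hK : Fintype.card κ ≤ K) (S0 : ℝ) (hS0 : ∑ p ∈ pz z, 1 / (p : ℝ) ≤ S0) :
    (((Icc 1 y).filter (fun a => v ≤ ((pz z \ pz w).filter (fun p => Som c p a)).card)).card : ℝ) ≤
      y * Real.exp (3 * (K * S0) - v) + ((z : ℝ) + 1) ^ v * (K : ℝ) ^ v := by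
  have h1 : ∀ a ∈ Icc 1 y, (if v ≤ ((pz z \ pz w).filter (fun p => Som c p a)).card then (1 : ℝ) else 0) ≤
      ∑ S ∈ (pz z).powersetCard v, (if ∀ p ∈ S, Som c p a then 1 else 0) := by
    intro a _
    split_ifs with h2
    · obtain ⟨S, hS1, hS2⟩ := exists_subset_card_eq h2
      have h3 : S ∈ (pz z).powersetCard v := by
        rw [mem_powersetCard]
        exact ⟨hS1.trans ((filter_subset _ _).trans sdiff_subset), hS2⟩
      have h4 : ∀ p ∈ S, Som c p a := fun p hp => (mem_filter.1 (hS1 hp)).2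
      refine le_trans ?_ (single_le_sum (f := fun S => if ∀ p ∈ S, Som c p a then (1 : ℝ) else 0) (fun _ _ => by split_ifs <;> norm_num) h3)
      rw [if_pos h4]
    · exact sum_nonneg fun _ _ => by split_ifs <;> norm_num
  have h2 := sum_le_sum h1
  rw [← sum_filter, sum_const, nsmul_eq_mul, mul_one, sum_comm] at h2
  refine h2.trans ?_
  have h3 : ∀ S ∈ (pz z).powersetCard v, ∑ a ∈ Icc 1 y, (if ∀ p ∈ S, Som c p a then (1 : ℝ) else 0) ≤
      y * ∏ p ∈ S, ((K : ℝ) / p) + (K : ℝ) ^ v := by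
    intro S hS
    rw [mem_powersetCard] at hS
    rw [← sum_filter, sum_const, nsmul_eq_mul, mul_one]
    have h4 := som_count_gen z y K c hK S hS.1
    rw [prod_const, hS.2] at h4
    exact h4
  refine (sum_le_sum h3).trans ?_
  rw [sum_add_distrib, ← mul_sum, sum_const, nsmul_eq_mul]
  apply add_le_add
  · apply mul_le_mul_of_nonneg_left _ (Nat.cast_nonneg _)
    have h5 := es_le (x := fun p => (K : ℝ) / p) (T := pz z) (fun p _ => by positivity) v
    unfold es at h5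
    refine h5.trans (Real.exp_le_exp.2 ?_)
    have h6 : ∑ p ∈ pz z, (K : ℝ) / p ≤ K * S0 := by
      calc ∑ p ∈ pz z, (K : ℝ) / p = K * ∑ p ∈ pz z, 1 / (p : ℝ) := by
            rw [mul_sum]
            apply sum_congr rfl
            intro p _
            ring
        _ ≤ _ := mul_le_mul_of_nonneg_left hS0 (Nat.cast_nonneg _)
    linarith
  · apply mul_le_mul_of_nonneg_right _ (by positivity)
    rw [card_powersetCard]
    have h6 : (pz z).card.choose v ≤ (z + 1) ^ v := by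
      refine (Nat.choose_le_pow _ _).trans (Nat.pow_le_pow_left ?_ _)
      have := card_pz_le z
      omega
    exact_mod_cast h6

end gen

section pairs
variable {k : ℕ}

open Classical in
/-- the bad primes of a pair -/
noncomputable def bad (w z : ℕ) (h : Fin k → ℕ) (s s' : ℕ) : Finset ℕ :=
  (pz z \ pz w).filter (fun p => Som (cd h (-((Wp w : ℤ) * s') - (-((Wp w : ℤ) * s)))) p 0)

open Classical in
lemma rare_aff (z w Y v : ℕ) (h : Fin k → ℕ) (s : ℕ) (M : Finset ℕ) (hM : M ⊆ Icc 1 Y) (S0 : ℝ) (hS0 : ∑ p ∈ pz z, 1 / (p : ℝ) ≤ S0) :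
    ((M.filter (fun s' => v ≤ (bad w z h s s').card)).card : ℝ) ≤
      Y * Real.exp (3 * ((k ^ 2 : ℕ) * S0) - v) + ((z : ℝ) + 1) ^ v * ((k ^ 2 : ℕ) : ℝ) ^ v := by
  obtain ⟨u, q, huv⟩ : ∃ u q : ℤ, (Wp w : ℤ) * u + Qp w z * q = 1 := by
    obtain ⟨a, b, hab⟩ := Nat.isCoprime_iff_coprime.2 (cop_WQ w z)
    exact ⟨a, b, by linarith⟩
  obtain ⟨c, hc⟩ : ∃ c : Fin k × Fin k → ℤ, c = fun x => ((Wp w : ℤ) * s - ((h x.1 : ℤ) - h x.2)) * u := ⟨_, rfl⟩
  refine le_trans ?_ (rare_gen z w Y v (k ^ 2) c (by rw [Fintype.card_prod, Fintype.card_fin]; exact (sq k).symm.le) S0 hS0)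
  have : (M.filter (fun s' => v ≤ (bad w z h s s').card)).card ≤
      ((Icc 1 Y).filter (fun a => v ≤ ((pz z \ pz w).filter (fun p => Som c p a)).card)).card := by
    apply card_le_card
    intro s' hs'
    rw [mem_filter] at hs' ⊢
    refine ⟨hM hs'.1, hs'.2.trans (le_of_eq ?_)⟩
    unfold bad
    congr 1
    apply filter_congr
    intro p hp
    have hpQ : (p : ℤ) ∣ ((Qp w z : ℕ) : ℤ) := by exact_mod_cast dvd_prod_of_mem (fun p => p) hp
    have hcop : IsCoprime (p : ℤ) ((Wp w : ℕ) : ℤ) := by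
      obtain ⟨e, he⟩ := hpQ
      refine ⟨e * q, u, ?_⟩
      rw [he] at huv
      linarith
    unfold Som cd
    apply exists_congr
    intro x
    have e : ((Wp w : ℕ) : ℤ) * ((s' : ℤ) - c x) = -(((0 : ℕ) : ℤ) - ((h x.1 : ℤ) - h x.2 - (-((Wp w : ℤ) * s') - (-((Wp w : ℤ) * s))))) +
        ((Qp w z : ℕ) : ℤ) * (q * (((Wp w : ℕ) : ℤ) * s - ((h x.1 : ℤ) - h x.2))) := by
      rw [hc]
      have h2 : ((Wp w : ℕ) : ℤ) * u = 1 - Qp w z * q := by linarith
      have e1 : ((Wp w : ℕ) : ℤ) * ((s' : ℤ) - (((Wp w : ℕ) : ℤ) * s - ((h x.1 : ℤ) - h x.2)) * u) =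
        ((Wp w : ℕ) : ℤ) * s' - (((Wp w : ℕ) : ℤ) * s - ((h x.1 : ℤ) - h x.2)) * (((Wp w : ℕ) : ℤ) * u) := by ring
      rw [e1, h2]
      push_cast
      ring
    constructor
    · intro h1
      have h3 : (p : ℤ) ∣ ((Wp w : ℕ) : ℤ) * ((s' : ℤ) - c x) := by
        rw [e]
        exact dvd_add (dvd_neg.2 h1) (hpQ.mul_right _)
      exact hcop.dvd_of_dvd_mul_left h3
    · intro h1
      have h3 : (p : ℤ) ∣ ((Wp w : ℕ) : ℤ) * ((s' : ℤ) - c x) := h1.mul_left _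
      rw [e] at h3
      exact dvd_neg.1 ((Int.dvd_add_left (hpQ.mul_right _)).1 h3)
  exact_mod_cast this

lemma lt_of_mem {w z p : ℕ} (hp : p ∈ pz z \ pz w) : p.Prime ∧ w < p := by
  rw [mem_sdiff, mem_pz, mem_pz] at hp
  refine ⟨hp.1.2, ?_⟩
  by_contra h9
  exact hp.2 ⟨by omega, hp.1.2⟩

open Classical in
/-- a pair with few bad primes -/
lemma pair_fac (w z v : ℕ) (hw1 : 1 ≤ w) (hwk : 2 * k ≤ w) (h : Fin k → ℕ) (s s' : ℕ) (hv : (bad w z h s s').card < v) :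
    Vr w z (c2 h (-((Wp w : ℤ) * s)) (-((Wp w : ℤ) * s'))) ≤ Vr w z (cneg h) ^ 2 * Real.exp (2 * k * v / w) := by
  have hw0 : (0 : ℝ) < w := by exact_mod_cast hw1
  have h1 : Vr w z (c2 h (-((Wp w : ℤ) * s)) (-((Wp w : ℤ) * s'))) ≤
      ∏ p ∈ pz z \ pz w, ((1 - (nu (cneg h) p : ℝ) / p) ^ 2 *
        (1 + (2 * k : ℝ) / p * (if Som (cd h (-((Wp w : ℤ) * s') - (-((Wp w : ℤ) * s)))) p 0 then 1 else 0))) := by
    unfold Vr
    apply prod_le_prod
    · intro p hp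
      have hp0 : (0 : ℝ) < p := by exact_mod_cast (lt_of_mem hp).1.pos
      have : (nu (c2 h (-((Wp w : ℤ) * s)) (-((Wp w : ℤ) * s'))) p : ℝ) / p ≤ 1 := by
        rw [div_le_one hp0]
        exact_mod_cast nu_le_self _ p
      linarith
    · intro p hp
      have h2 := factor_up h (-((Wp w : ℤ) * s)) 0 (-((Wp w : ℤ) * s')) p (lt_of_mem hp).1 (by have := (lt_of_mem hp).2; omega)
      have e : (((0 : ℕ) : ℤ) + (-((Wp w : ℤ) * s'))) = (-((Wp w : ℤ) * s')) := by push_cast; ring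
      rw [e] at h2
      exact h2
  rw [prod_mul_distrib, prod_pow] at h1
  have h3 : ∏ p ∈ pz z \ pz w, (1 + (2 * k : ℝ) / p * (if Som (cd h (-((Wp w : ℤ) * s') - (-((Wp w : ℤ) * s)))) p 0 then 1 else 0)) ≤ Real.exp (2 * k * v / w) := by
    have e1 : ∏ p ∈ pz z \ pz w, (1 + (2 * k : ℝ) / p * (if Som (cd h (-((Wp w : ℤ) * s') - (-((Wp w : ℤ) * s)))) p 0 then 1 else 0)) =
        ∏ p ∈ bad w z h s s', (1 + (2 * k : ℝ) / p) := by
      unfold bad
      rw [prod_filter]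
      apply prod_congr rfl
      intro p _
      split_ifs <;> simp
    rw [e1]
    calc ∏ p ∈ bad w z h s s', (1 + (2 * k : ℝ) / p) ≤ ∏ p ∈ bad w z h s s', Real.exp (2 * k / w) := by
          apply prod_le_prod
          · intro p _; positivity
          · intro p hp
            unfold bad at hp
            rw [mem_filter] at hp
            have hpy : (w : ℝ) ≤ p := by exact_mod_cast (lt_of_mem hp.1).2.le
            have h4 := Real.add_one_le_exp ((2 * k : ℝ) / w)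
            have h5 : (2 * k : ℝ) / p ≤ 2 * k / w := div_le_div_of_nonneg_left (by positivity) hw0 hpy
            linarith
      _ = Real.exp (2 * k / w) ^ (bad w z h s s').card := by rw [prod_const]
      _ ≤ Real.exp (2 * k / w) ^ v := by
          apply pow_le_pow_right₀ _ hv.le
          have : (0 : ℝ) ≤ 2 * k / w := by positivity
          exact Real.one_le_exp this
      _ = _ := by rw [← Real.exp_nat_mul]; congr 1; ring
  refine h1.trans ?_
  exact mul_le_mul_of_nonneg_left h3 (sq_nonneg _)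

/-- the density is not too small -/
lemma Vr_low (w z : ℕ) (hwk : 2 * k ≤ w) (h : Fin k → ℕ) (S0 : ℝ) (hS0 : ∑ p ∈ pz z, 1 / (p : ℝ) ≤ S0) :
    Real.exp (-(2 * k * S0)) ≤ Vr w z (cneg h) := by
  have h1 : ∏ p ∈ pz z \ pz w, Real.exp (-(2 * k * (1 / (p : ℝ)))) ≤ Vr w z (cneg h) := by
    unfold Vr
    apply prod_le_prod
    · intro p _; exact (Real.exp_pos _).le
    · intro p hp
      obtain ⟨hpp, hwp⟩ := lt_of_mem hp
      have hp0 : (0 : ℝ) < p := by exact_mod_cast hpp.pos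
      have hν : (nu (cneg h) p : ℝ) ≤ k := by
        have := nu_le_card (cneg h) p
        rw [Fintype.card_fin] at this
        exact_mod_cast this
      have h2k : (2 * k : ℝ) ≤ p := by exact_mod_cast (by omega : 2 * k ≤ p)
      have h3 : (nu (cneg h) p : ℝ) / p ≤ k / p := div_le_div_of_nonneg_right hν hp0.le
      have h4 : (k : ℝ) / p ≤ 1 / 2 := by rw [div_le_div_iff₀ hp0 (by norm_num)]; linarith
      have h5 : 0 ≤ (k : ℝ) / p := by positivity
      obtain ⟨x, hx⟩ : ∃ x, x = (k : ℝ) / p := ⟨_, rfl⟩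
      have e1 : -(2 * k * (1 / (p : ℝ))) = -(2 * x) := by rw [hx]; ring
      rw [e1]
      rw [← hx] at h3 h4 h5
      have h6 : Real.exp (-(2 * x)) ≤ 1 - x := by
        have h7 : 1 + 2 * x ≤ Real.exp (2 * x) := by
          have := Real.add_one_le_exp (2 * x)
          linarith
        rw [Real.exp_neg, inv_le_comm₀ (Real.exp_pos _) (by linarith)]
        refine le_trans ?_ h7
        rw [inv_le_comm₀ (by linarith) (by linarith)]
        rw [inv_le_iff_one_le_mul₀ (by linarith)]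
        nlinarith
      linarith
  refine le_trans ?_ h1
  rw [← Real.exp_sum]
  apply Real.exp_le_exp.2
  have e2 : ∑ p ∈ pz z \ pz w, -(2 * k * (1 / (p : ℝ))) = -(2 * k * ∑ p ∈ pz z \ pz w, 1 / (p : ℝ)) := by
    rw [sum_neg_distrib, mul_sum]
  rw [e2]
  have h8 : ∑ p ∈ pz z \ pz w, 1 / (p : ℝ) ≤ ∑ p ∈ pz z, 1 / (p : ℝ) :=
    sum_le_sum_of_subset_of_nonneg sdiff_subset fun _ _ _ => by positivity
  have h9 : (2 * k : ℝ) * ∑ p ∈ pz z \ pz w, 1 / (p : ℝ) ≤ 2 * k * S0 := mul_le_mul_of_nonneg_left (h8.trans hS0) (by positivity)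
  linarith

end pairs

open Classical in
/-- **the sum of the singular factor.** -/
theorem sing_aff (k A : ℕ) (hk : 1 ≤ k) (δ : ℝ) (hδ : 0 < δ) (hδ1 : δ ≤ 1) :
    ∃ K0 : ℕ, 1 ≤ K0 ∧ ∀ E : ℕ, ∃ N0 : ℕ, ∀ N : ℕ, N0 ≤ N → ∀ z Y w : ℕ, Real.log N ≤ z → (z : ℝ) ≤ Real.log N ^ E →
    K0 * Real.log (Real.log N) ≤ w → w ≤ z → √(N : ℝ) ≤ Y → ∀ h : Fin k → ℕ, ∀ M ⊆ Icc 1 Y, Y / Real.log N ^ A ≤ M.card →
    2 * k ≤ w ∧ 1 / Real.log N ^ (2 * k) ≤ Vr w z (cneg h) ∧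
    ∑ t ∈ M ×ˢ M, Vr w z (c2 h (-((Wp w : ℤ) * t.1)) (-((Wp w : ℤ) * t.2))) ≤ (1 + 12 * δ) * (M.card) ^ 2 * Vr w z (cneg h) ^ 2 := by
  obtain ⟨A2, hA2⟩ : ∃ A2, A2 = A + 4 * k + 1 := ⟨_, rfl⟩
  obtain ⟨C, hC⟩ : ∃ C, C = 3 * k ^ 2 + A2 := ⟨_, rfl⟩
  have hlδ : 0 < Real.log (1 + δ) := Real.log_pos (by linarith)
  obtain ⟨K1, hK1⟩ := exists_nat_ge (2 * k * ((C : ℝ) + 1) / Real.log (1 + δ))
  refine ⟨K1 + 2 * k + 1, by omega, fun E => ?_⟩
  obtain ⟨m1, g1⟩ := sum_inv_pz E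
  obtain ⟨m2, g2⟩ := ll_small (40 * ((E + 2) * (C + 1)))
  obtain ⟨m3, g3⟩ := log_le_t A2
  obtain ⟨m4, g4⟩ := ev_L' (max (2 * k ^ 2 + 3) (2 / δ))
  refine ⟨max (max m1 m2) (max m3 (max m4 1)), ?_⟩
  intro N hN z Y w hz1 hz2 hw hwz hYN h M hM hMc
  have n1 := le_trans (le_trans (le_max_left _ _) (le_max_left _ _)) hN
  have n2 := le_trans (le_trans (le_max_right _ _) (le_max_left _ _)) hN
  have nn := le_trans (le_max_right _ _) hN
  have n3 := le_trans (le_max_left _ _) nn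
  have n4 := le_trans (le_trans (le_max_left _ _) (le_max_right _ _)) nn
  have hN1 : 1 ≤ N := le_trans (le_trans (le_max_right _ _) (le_max_right _ _)) nn
  have hN0 : (0 : ℝ) < N := by exact_mod_cast hN1
  obtain ⟨hll, hll1⟩ := g2 N n2
  obtain ⟨t, ht0, ht40, hsq⟩ := exists_t N hN1
  have hLt := g3 N n3 t ht0 ht40 hsq
  have b4 := g4 N n4
  have hLk : (2 * k ^ 2 + 3 : ℝ) ≤ Real.log N := le_trans (le_max_left _ _) b4
  have hLδ : 2 / δ ≤ Real.log N := le_trans (le_max_right _ _) b4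
  obtain ⟨L, hL⟩ : ∃ L, L = Real.log (N : ℝ) := ⟨_, rfl⟩
  obtain ⟨l, hl⟩ : ∃ l, l = Real.log (Real.log (N : ℝ)) := ⟨_, rfl⟩
  have hk2 : (0 : ℝ) ≤ 2 * (k : ℝ) ^ 2 := by positivity
  rw [← hL] at hLk hLδ hz1 hz2 hLt hMc
  have hL3 : 3 ≤ L := by linarith
  have hL0 : 0 < L := by linarith
  have hL1 : 1 ≤ L := by linarith
  have hexl : Real.exp l = L := by rw [hl, hL, Real.exp_log]; rw [← hL]; exact hL0
  have hzr : (1 : ℝ) ≤ z := by linarith
  have hz : 1 ≤ z := by exact_mod_cast hzr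
  have hS0 := g1 N n1 z hz (by rw [← hL]; exact hz2)
  rw [← hl] at hS0 hll hll1 hw
  rw [← hL] at hll
  have hw0 : (0 : ℝ) < w := by
    refine lt_of_lt_of_le ?_ hw
    have : (0 : ℝ) < ((K1 + 2 * k + 1 : ℕ) : ℝ) := by positivity
    nlinarith
  have hw1 : 1 ≤ w := by exact_mod_cast hw0
  have hKw : (K1 : ℝ) * l ≤ w ∧ (2 * k : ℝ) ≤ w := by
    push_cast at hw
    have q1 : (0 : ℝ) ≤ K1 := Nat.cast_nonneg _
    have q2 : (0 : ℝ) ≤ k := Nat.cast_nonneg _
    constructor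
    · nlinarith
    · nlinarith
  have hwk : 2 * k ≤ w := by exact_mod_cast hKw.2
  obtain ⟨v, hv⟩ : ∃ v, v = ⌈(C : ℝ) * l⌉₊ := ⟨_, rfl⟩
  have hv1 : (C : ℝ) * l ≤ v := by rw [hv]; exact Nat.le_ceil _
  have hv2 : (v : ℝ) ≤ (C + 1) * l := by
    have : (v : ℝ) < C * l + 1 := by
      rw [hv]
      exact Nat.ceil_lt_add_one (by positivity)
    linarith
  obtain ⟨V, hV⟩ : ∃ V, V = Vr w z (cneg h) := ⟨_, rfl⟩
  rw [← hV]
  have hVlow : 1 / L ^ (2 * k) ≤ V := by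
    rw [hV]
    refine le_trans (le_of_eq ?_) (Vr_low w z hwk h l hS0)
    rw [Real.exp_neg, one_div]
    congr 1
    rw [← hexl, ← Real.exp_nat_mul]
    congr 1
    push_cast
    ring
  rw [hL] at hVlow
  refine ⟨hwk, hVlow, ?_⟩
  rw [← hL] at hVlow
  have hV0 : 0 < V := lt_of_lt_of_le (by positivity) hVlow
  have ht1 : 1 ≤ t := by
    have : (1 : ℝ) ≤ L ^ A2 := one_le_pow₀ hL1
    linarith
  -- few bad primes
  have hexp : Real.exp (2 * k * v / w) ≤ 1 + δ := by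
    rw [← Real.exp_log (show (0 : ℝ) < 1 + δ by linarith)]
    apply Real.exp_le_exp.2
    rw [div_le_iff₀ hw0]
    have q1 : 2 * k * ((C : ℝ) + 1) ≤ K1 * Real.log (1 + δ) := by rwa [div_le_iff₀ hlδ] at hK1
    calc (2 * k * v : ℝ) ≤ 2 * k * ((C + 1) * l) := by gcongr
      _ = (2 * k * ((C : ℝ) + 1)) * l := by ring
      _ ≤ (K1 * Real.log (1 + δ)) * l := by
          apply mul_le_mul_of_nonneg_right q1 (by linarith)
      _ = Real.log (1 + δ) * (K1 * l) := by ring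
      _ ≤ _ := mul_le_mul_of_nonneg_left hKw.1 hlδ.le
  -- the rare part
  have hrare : (Y : ℝ) * Real.exp (3 * ((k ^ 2 : ℕ) * l) - v) + ((z : ℝ) + 1) ^ v * ((k ^ 2 : ℕ) : ℝ) ^ v ≤ δ * M.card * V ^ 2 := by
    have q1 : Real.exp (3 * ((k ^ 2 : ℕ) * l) - v) ≤ 1 / L ^ A2 := by
      rw [one_div, ← hexl, ← Real.exp_nat_mul, ← Real.exp_neg]
      apply Real.exp_le_exp.2
      have : (C : ℝ) = 3 * (k ^ 2 : ℕ) + A2 := by rw [hC]; push_cast; ring
      rw [this] at hv1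
      push_cast at hv1 ⊢
      linarith
    have q2 : ((z : ℝ) + 1) ^ v * ((k ^ 2 : ℕ) : ℝ) ^ v ≤ t := by
      apply le_of_pow_le_pow_left₀ (n := 40) (by norm_num) ht0
      rw [ht40, ← mul_pow, ← pow_mul]
      have q3 : ((z : ℝ) + 1) * ((k ^ 2 : ℕ) : ℝ) ≤ L ^ (E + 2) := by
        have q4 : ((k ^ 2 : ℕ) : ℝ) ≤ L := by push_cast; linarith
        have q5 : (z : ℝ) + 1 ≤ L ^ E * L := by
          have : (1 : ℝ) ≤ L ^ E := le_trans hzr hz2
          nlinarith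
        calc ((z : ℝ) + 1) * ((k ^ 2 : ℕ) : ℝ) ≤ (L ^ E * L) * L := mul_le_mul q5 q4 (Nat.cast_nonneg _) (by positivity)
          _ = _ := by ring
      calc (((z : ℝ) + 1) * ((k ^ 2 : ℕ) : ℝ)) ^ (v * 40) ≤ (L ^ (E + 2)) ^ (v * 40) := pow_le_pow_left₀ (by positivity) q3 _
        _ = Real.exp (((E + 2) * (v * 40) : ℕ) * l) := by rw [← pow_mul, ← hexl, ← Real.exp_nat_mul]
        _ ≤ Real.exp (Real.log N) := by
            apply Real.exp_le_exp.2
            rw [← hL]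
            refine le_trans ?_ hll
            push_cast
            have q6 : ((E : ℝ) + 2) * (v * 40) * l ≤ ((E : ℝ) + 2) * (((C + 1) * l) * 40) * l := by gcongr
            linarith
        _ = N := Real.exp_log hN0
    have hY0 : (0 : ℝ) ≤ Y := Nat.cast_nonneg _
    have q3 : t ≤ Y / L ^ A2 := by
      rw [le_div_iff₀ (by positivity)]
      calc t * L ^ A2 ≤ t * t := mul_le_mul_of_nonneg_left hLt ht0
        _ = t ^ 2 := by ring
        _ ≤ t ^ 20 := pow_le_pow_right₀ ht1 (by norm_num)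
        _ ≤ Y := by rw [← hsq]; exact hYN
    have q4 : (Y : ℝ) / L ^ A2 + Y / L ^ A2 ≤ δ * M.card * V ^ 2 := by
      have q5 : (1 / L ^ (2 * k)) ^ 2 ≤ V ^ 2 := pow_le_pow_left₀ (by positivity) hVlow 2
      have q6 : δ * (Y / L ^ A) * (1 / L ^ (2 * k)) ^ 2 ≤ δ * M.card * V ^ 2 := by gcongr
      refine le_trans ?_ q6
      have e1 : L ^ A2 = L ^ A * (L ^ (2 * k)) ^ 2 * L := by rw [hA2]; ring
      have e2 : (Y : ℝ) / L ^ A2 + Y / L ^ A2 = (2 / δ) / L * (δ * (Y / L ^ A) * (1 / L ^ (2 * k)) ^ 2) := by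
        rw [e1]
        field_simp
        ring
      rw [e2]
      have e3 : (2 / δ) / L ≤ 1 := by rw [div_le_one hL0]; exact hLδ
      calc _ ≤ 1 * (δ * ((Y : ℝ) / L ^ A) * (1 / L ^ (2 * k)) ^ 2) := mul_le_mul_of_nonneg_right e3 (by positivity)
        _ = _ := one_mul _
    calc _ ≤ (Y : ℝ) * (1 / L ^ A2) + t := add_le_add (mul_le_mul_of_nonneg_left q1 hY0) q2
      _ = Y / L ^ A2 + t := by ring
      _ ≤ Y / L ^ A2 + Y / L ^ A2 := by linarith
      _ ≤ _ := q4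
  -- one point
  have hone : ∀ s ∈ M, ∑ s' ∈ M, Vr w z (c2 h (-((Wp w : ℤ) * s)) (-((Wp w : ℤ) * s'))) ≤ (1 + 12 * δ) * M.card * V ^ 2 := by
    intro s _
    rw [← sum_filter_add_sum_filter_not M (fun s' => v ≤ (bad w z h s s').card)]
    have h1 : ∑ s' ∈ M.filter (fun s' => v ≤ (bad w z h s s').card), Vr w z (c2 h (-((Wp w : ℤ) * s)) (-((Wp w : ℤ) * s'))) ≤ δ * M.card * V ^ 2 := by
      refine le_trans ?_ ((rare_aff z w Y v h s M hM l hS0).trans hrare)
      rw [card_eq_sum_ones]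
      push_cast
      exact sum_le_sum fun _ _ => Vr_le_one _ _ _
    have h2 : ∑ s' ∈ M.filter (fun s' => ¬ v ≤ (bad w z h s s').card), Vr w z (c2 h (-((Wp w : ℤ) * s)) (-((Wp w : ℤ) * s'))) ≤ M.card * (V ^ 2 * (1 + δ)) := by
      have h3 : ∀ s' ∈ M.filter (fun s' => ¬ v ≤ (bad w z h s s').card), Vr w z (c2 h (-((Wp w : ℤ) * s)) (-((Wp w : ℤ) * s'))) ≤ V ^ 2 * (1 + δ) := by
        intro s' hs'
        rw [mem_filter] at hs'
        refine (pair_fac w z v hw1 hwk h s s' (not_le.1 hs'.2)).trans ?_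
        rw [← hV]
        exact mul_le_mul_of_nonneg_left hexp (sq_nonneg _)
      refine (sum_le_sum h3).trans ?_
      rw [sum_const, nsmul_eq_mul]
      apply mul_le_mul_of_nonneg_right _ (by positivity)
      exact_mod_cast card_filter_le _ _
    have h4 : (0 : ℝ) ≤ M.card * V ^ 2 := by positivity
    nlinarith
  rw [sum_product]
  refine (sum_le_sum hone).trans (le_of_eq ?_)
  rw [sum_const, nsmul_eq_mul]
  ring

end Pool.Agent.L0h42.CP
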