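import Mathlib
import Pool.Agent.L0h42.CP.C4
import Pool.Agent.L0h42.EG.E9
import Pool.Agent.L0h42.TB.B13
import Pool.Agent.L0h42.TB.B20

/-! Many primes after the differences with an arbitrary set, along a progression. -/

set_option autoImplicit false
set_option linter.unusedSectionVars false
set_option linter.unusedVariables false

namespace Pool.Agent.L0h42.CP
open Finset
open Pool.Agent.L0h42.TB
open Pool.Agent.L0h42.EG
open Pool.Agent.H373R2.T7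

set_option maxHeartbeats 4000000 in
open Classical in
/-- **the core.** -/
theorem core_aff (m : ℕ) (hm : 1 ≤ m) : ∃ k : ℕ, 1 ≤ k ∧ ∀ (A : ℕ) (δ : ℝ), 0 < δ → δ ≤ 1 → ∃ K0 : ℕ, 1 ≤ K0 ∧ ∀ K' : ℕ, ∃ D N0 : ℕ, ∀ N : ℕ, N0 ≤ N →
    ∀ Y w g : ℕ, K0 * Real.log (Real.log N) ≤ w → (w : ℝ) ≤ Real.log N → 6 * (Wp w * Y + g + 1) ≤ N → N / Real.log N ^ K' ≤ Y →
    ∀ h : Fin k → ℕ, Function.Injective h → (∀ l, (h l : ℝ) ≤ Real.log N) → (∀ l, ∀ p ∈ pz w, ¬ p ∣ g + h l) →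
    ∀ M ⊆ Icc 1 Y, Y / Real.log N ^ A ≤ M.card →
    (((Ioc (2 * Y) (4 * Y)).filter (fun n => ((M.filter (fun s => m ≤ np h (Wp w * (n - s) + g))).card : ℝ) < Y / Real.log N ^ D)).card : ℝ) ≤ δ * Y := by
  obtain ⟨C, hC1, hC⟩ := mertens_up
  obtain ⟨J, hJ⟩ : ∃ J, J = 288 * C ^ 2 * (320 * (2 * m)) := ⟨_, rfl⟩
  obtain ⟨k, hk2⟩ : ∃ k, k = 2 ^ J := ⟨_, rfl⟩
  obtain ⟨W, hW⟩ : ∃ W, W = k + 8 * k * C * (J + 1) := ⟨_, rfl⟩
  have hk : 1 ≤ k := by rw [hk2]; exact Nat.one_le_two_pow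
  have hW1 : 1 ≤ W := by omega
  refine ⟨k, hk, fun A δ hδ hδ1 => ?_⟩
  obtain ⟨Bw, hBw⟩ : ∃ Bw, Bw = 3 * k := ⟨_, rfl⟩
  obtain ⟨δ', hδ'⟩ : ∃ δ' : ℝ, δ' = δ / (104 * (k + 3)) := ⟨_, rfl⟩
  have hkr : (1 : ℝ) ≤ k := by exact_mod_cast hk
  have hδ'0 : 0 < δ' := by rw [hδ']; positivity
  have hδ'1 : δ' ≤ 1 := by
    rw [hδ', div_le_one (by positivity)]
    nlinarith
  obtain ⟨K0, hK0, hsing⟩ := sing_aff k A hk δ' hδ'0 hδ'1
  refine ⟨K0, hK0, fun K' => ?_⟩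
  obtain ⟨A1, hA1⟩ : ∃ A1, A1 = 2 * K' + A + 2 * k + 1 := ⟨_, rfl⟩
  obtain ⟨sm, hsm⟩ : ∃ sm, sm = 4 * Bw + 1 + 2 * 2 ^ (4 * k) := ⟨_, rfl⟩
  obtain ⟨D, hDd⟩ : ∃ D, D = sm + K' + 3 + A + 4 * k + 1 := ⟨_, rfl⟩
  obtain ⟨e0, hE0⟩ := variance_aff k A Bw K' hk
  obtain ⟨e1, hE1⟩ := prime_aff k A1 Bw hk
  obtain ⟨E0, hE0d⟩ : ∃ E0, E0 = max e0 e1 + 1 := ⟨_, rfl⟩
  obtain ⟨m0, h0⟩ := hE0 (E0 + 1) δ' hδ'0 hδ'1
  obtain ⟨m1, h1⟩ := hE1 (E0 + 1)
  obtain ⟨m2, h2⟩ := Vz_inv_small (E0 + 1)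
  obtain ⟨m3, h3⟩ := ev_log' ((E0 + 1) * (W * 80)) 1
  obtain ⟨m4, h4⟩ := ev_L' (max (max (2 * C ^ 2 + 8 : ℝ) (k ^ 2 + k + 1 : ℝ)) (k * (k + 3) / δ))
  obtain ⟨m5, h5⟩ := ev_log' (E0 + 1 + K') 28
  obtain ⟨m6, h6⟩ := hsing (E0 + 1)
  refine ⟨D, max (max (max m0 m1) m2) (max m3 (max m4 (max m5 (max m6 16)))), ?_⟩
  intro N hN Y w g hw0 hwL hY1 hY2 h hinj hh hg M hM hMc
  have n0 : m0 ≤ N := le_trans (le_trans (le_trans (le_max_left _ _) (le_max_left _ _)) (le_max_left _ _)) hN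
  have n1 : m1 ≤ N := le_trans (le_trans (le_trans (le_max_right _ _) (le_max_left _ _)) (le_max_left _ _)) hN
  have n2 : m2 ≤ N := le_trans (le_trans (le_max_right _ _) (le_max_left _ _)) hN
  have n3 : m3 ≤ N := le_trans (le_trans (le_max_left _ _) (le_max_right _ _)) hN
  have nn := le_trans (le_max_right m3 _) (le_trans (le_max_right _ _) hN)
  have n4 : m4 ≤ N := le_trans (le_max_left _ _) nn
  have n5 : m5 ≤ N := le_trans (le_trans (le_max_left _ _) (le_max_right _ _)) nn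
  have nn' := le_trans (le_max_right m5 _) (le_trans (le_max_right _ _) nn)
  have n6 : m6 ≤ N := le_trans (le_max_left _ _) nn'
  have hN16 : 16 ≤ N := le_trans (le_max_right _ _) nn'
  have hN0 : (0 : ℝ) < N := by exact_mod_cast (show 0 < N by omega)
  have b3 := h3 N n3
  have b4 := h4 N n4
  have b5 := h5 N n5
  have hvar := h0 N n0
  have hpp := h1 N n1
  have hVz := h2 N n2
  have hsi6 := h6 N n6
  set L := Real.log N with hL
  have l1 : (2 * C ^ 2 + 8 : ℝ) ≤ L := le_trans (le_trans (le_max_left _ _) (le_max_left _ _)) b4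
  have l4 : (k ^ 2 + k + 1 : ℝ) ≤ L := le_trans (le_trans (le_max_right _ _) (le_max_left _ _)) b4
  have l2 : k * (k + 3) / δ ≤ L := le_trans (le_max_right _ _) b4
  have hmr : (1 : ℝ) ≤ m := by exact_mod_cast hm
  have hCr : (1 : ℝ) ≤ C := by exact_mod_cast hC1
  have hL8 : 8 ≤ L := by
    have hC2 := sq_nonneg (C : ℝ)
    linarith only [hC2, l1]
  have hL1 : 1 ≤ L := by linarith
  have hL0 : 0 < L := by linarith
  -- the parameter `z`
  obtain ⟨z, hz⟩ : ∃ z, z = ⌈L ^ E0⌉₊ := ⟨_, rfl⟩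
  have hz1 : L ^ E0 ≤ z := by rw [hz]; exact Nat.le_ceil _
  have hz1' : L ≤ z := (le_self_pow₀ hL1 (by omega)).trans hz1
  have hz2 : (z : ℝ) + 1 ≤ L ^ (E0 + 1) := by
    have g1 := (Nat.ceil_lt_add_one (show 0 ≤ L ^ E0 by positivity)).le
    rw [← hz] at g1
    have g2 : 1 ≤ L ^ E0 := one_le_pow₀ hL1
    rw [pow_succ]
    exact aux_z g1 g2 hL8
  have hz2' : (z : ℝ) ≤ L ^ (E0 + 1) := by linarith
  have hz8 : 8 ≤ z := by
    have : (8 : ℝ) ≤ z := by linarith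
    exact_mod_cast this
  have hze0 : L ^ e0 ≤ z := (pow_le_pow_right₀ hL1 (by have := le_max_left e0 e1; omega)).trans hz1
  have hze1 : L ^ e1 ≤ z := (pow_le_pow_right₀ hL1 (by have := le_max_right e0 e1; omega)).trans hz1
  have hhz : ∀ l, h l ≤ z := fun l => by exact_mod_cast (hh l).trans hz1'
  -- the parameters `x` and `R`
  obtain ⟨x, hx1, hx2, hx3⟩ := root_exists (W * 80) N (by omega) (by omega)
  have hsq : √(N : ℝ) ≤ N := aux_sqrt (by exact_mod_cast (show 1 ≤ N by omega))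
  have hzx : z ≤ x := by
    by_contra hcon
    have g1 : (x + 1) ^ (W * 80) ≤ (z + 1) ^ (W * 80) := Nat.pow_le_pow_left (by omega) _
    have g2 : ((z : ℝ) + 1) ^ (W * 80) ≤ N := by
      calc ((z : ℝ) + 1) ^ (W * 80) ≤ (L ^ (E0 + 1)) ^ (W * 80) := pow_le_pow_left₀ (by positivity) hz2 _
        _ = 1 * L ^ ((E0 + 1) * (W * 80)) := by rw [one_mul, ← pow_mul]
        _ ≤ √N := b3
        _ ≤ N := hsq
    have g3 : (z + 1) ^ (W * 80) ≤ N := by exact_mod_cast g2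
    omega
  have hx3' : 3 ≤ x := by omega
  obtain ⟨R, hRd⟩ : ∃ R, R = x ^ W := ⟨_, rfl⟩
  have hR80 : R ^ 80 ≤ N := by rw [hRd, ← pow_mul]; exact hx2
  have hxR : x ≤ R := by rw [hRd]; exact Nat.le_self_pow (by omega) x
  have hR1 : 1 ≤ R := by omega
  have hR3 : 3 ≤ R := by omega
  have hRr : (1 : ℝ) ≤ R := by exact_mod_cast hR1
  obtain ⟨Λ, w1, w2, w3, w4, w5⟩ := weights_spec C J z R x k W hC1 hC hx3' hzx hk2 hW (by rw [hRd]) (by
    rw [hRd]
    exact Nat.pow_lt_pow_left (Nat.lt_succ_self x) (by omega))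
  have hlR : Real.log R ≤ L := by
    apply Real.log_le_log (by linarith)
    exact_mod_cast (Nat.le_self_pow (by norm_num : (80:ℕ) ≠ 0) R).trans hR80
  have hlR0 : 0 ≤ Real.log R := Real.log_nonneg hRr
  have hΛB : ∀ d ∈ PD (Fin k) z R, |Λ d| ≤ L ^ Bw := by
    intro d hd
    refine (w1 d hd).trans ?_
    rw [hBw, pow_mul]
    have hVR0 : 0 ≤ (Vz R)⁻¹ := (inv_pos.2 (Vz_pos R)).le
    apply pow_le_pow_left₀ (by positivity)
    have g1 := hC R hR3
    have g2 : (Vz R)⁻¹ ≤ C * L := g1.trans (mul_le_mul_of_nonneg_left hlR (by positivity))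
    calc 2 * ((Vz R)⁻¹ * (Vz R)⁻¹) ≤ 2 * ((C * L) * (C * L)) := by gcongr
      _ = (2 * C ^ 2) * L ^ 2 := by ring
      _ ≤ L * L ^ 2 := by
          apply mul_le_mul_of_nonneg_right _ (by positivity)
          linarith
      _ = L ^ 3 := by ring
  have hΛi : ∀ i, ∀ d ∈ PD (Fin k) z R, |Lr Λ i d| ≤ L ^ Bw := fun i d hd' => (Lr_abs Λ i d).trans (hΛB d hd')
  have hsi : ∀ i, ∀ d, Lr Λ i d ≠ 0 → ∏ l, d l ≤ R ∧ d i = 1 := fun i d hd' => ⟨w2 d (Lr_ne Λ i d hd').1, (Lr_ne Λ i d hd').2⟩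
  -- `Y`
  have hLK : (28 : ℝ) * L ^ (E0 + 1) * L ^ K' ≤ √N := by
    refine le_trans (le_of_eq ?_) b5
    rw [mul_assoc, ← pow_add]
  have hsqY : √(N : ℝ) * (28 * L ^ (E0 + 1)) ≤ Y := by
    refine le_trans ?_ hY2
    rw [le_div_iff₀ (by positivity)]
    calc √(N : ℝ) * (28 * L ^ (E0 + 1)) * L ^ K' = √(N : ℝ) * (28 * L ^ (E0 + 1) * L ^ K') := by ring
      _ ≤ √(N : ℝ) * √N := mul_le_mul_of_nonneg_left hLK (Real.sqrt_nonneg _)
      _ = N := Real.mul_self_sqrt hN0.le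
  have hLE1 : (1 : ℝ) ≤ L ^ (E0 + 1) := one_le_pow₀ hL1
  have hsq1 : (1 : ℝ) ≤ √N := by
    rw [Real.one_le_sqrt]
    exact_mod_cast (show 1 ≤ N by omega)
  have hYs : √(N : ℝ) ≤ Y := by
    refine le_trans ?_ hsqY
    exact le_mul_of_one_le_right (by linarith) (by linarith)
  have hY0 : (0 : ℝ) < Y := by linarith
  have hY1' : 1 ≤ Y := by exact_mod_cast hY0
  have hzY : z ≤ Y := by
    have : (z : ℝ) ≤ Y := by
      refine le_trans ?_ hsqY
      calc (z : ℝ) ≤ L ^ (E0 + 1) := hz2'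
        _ ≤ 28 * L ^ (E0 + 1) := by linarith
        _ ≤ √N * (28 * L ^ (E0 + 1)) := le_mul_of_one_le_left (by positivity) hsq1
    exact_mod_cast this
  have hRY : R ≤ Y := by
    have g1 : R ^ 2 ≤ N := (Nat.pow_le_pow_right hR1 (by norm_num)).trans hR80
    have g2 : (R : ℝ) ≤ √N := by
      apply Real.le_sqrt_of_sq_le
      exact_mod_cast g1
    exact_mod_cast g2.trans hYs
  have hwz : w ≤ z := by exact_mod_cast hwL.trans hz1'
  have hv := hVz z (by omega) hz2'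
  have hv1 : 1 ≤ (Vz z)⁻¹ := (one_le_inv₀ (Vz_pos z)).2 (Vz_le_one z)
  -- the ratio
  have hratio : 4 * m * L * Qf z R Λ ≤ (Vz z)⁻¹ * ∑ i, Qf z R (Lr Λ i) := by
    have g1 : L ≤ 160 * Real.log R := by
      have g2 : L ≤ Real.log (((x : ℝ) + 1) ^ (W * 80)) := by
        apply Real.log_le_log hN0
        have : ((N : ℕ) : ℝ) < (((x + 1) ^ (W * 80) : ℕ) : ℝ) := by exact_mod_cast hx3
        push_cast at this
        exact this.le
      rw [Real.log_pow] at g2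
      have hx3r : (3 : ℝ) ≤ x := by exact_mod_cast hx3'
      have g3 : Real.log ((x : ℝ) + 1) ≤ 2 * Real.log x := by
        have g4 : Real.log ((x : ℝ) + 1) ≤ Real.log ((x : ℝ) ^ 2) := Real.log_le_log (by positivity) (aux_sq hx3r)
        rw [Real.log_pow] at g4
        push_cast at g4
        exact g4
      have g5 : Real.log R = W * Real.log x := by rw [hRd]; push_cast; rw [Real.log_pow]
      rw [g5]
      calc L ≤ ((W * 80 : ℕ) : ℝ) * Real.log ((x : ℝ) + 1) := g2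
        _ ≤ ((W * 80 : ℕ) : ℝ) * (2 * Real.log x) := mul_le_mul_of_nonneg_left g3 (Nat.cast_nonneg _)
        _ = _ := by push_cast; ring
    have g2 : ((J : ℝ) + 1) / (288 * C ^ 2) ≥ 640 * m := aux_ratio J C m (by rw [hJ]; push_cast; ring) hCr
    have hQ0 : 0 ≤ Qf z R Λ := by linarith
    have hVp := Vz_pos z
    have g3 : (Vz z)⁻¹ * (((J : ℝ) + 1) / (288 * C ^ 2) * (Vz z * Real.log R) * Qf z R Λ) ≤ (Vz z)⁻¹ * ∑ i, Qf z R (Lr Λ i) :=
      mul_le_mul_of_nonneg_left w5 (by linarith)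
    refine le_trans ?_ g3
    have g4 : (Vz z)⁻¹ * (((J : ℝ) + 1) / (288 * C ^ 2) * (Vz z * Real.log R) * Qf z R Λ) =
        ((J : ℝ) + 1) / (288 * C ^ 2) * Real.log R * Qf z R Λ := by
      field_simp
    rw [g4]
    apply mul_le_mul_of_nonneg_right _ hQ0
    calc 4 * (m : ℝ) * L ≤ 4 * m * (160 * Real.log R) := by gcongr
      _ = 640 * m * Real.log R := by ring
      _ ≤ _ := mul_le_mul_of_nonneg_right g2 hlR0
  -- the density
  obtain ⟨V, hV⟩ : ∃ V, V = Vr w z (cneg h) := ⟨_, rfl⟩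
  obtain ⟨hwk, hVlow, hsg⟩ := hsi6 z Y w hz1' hz2' hw0 hwz hYs h M hM hMc
  have hw1 : 1 ≤ w := by omega
  have hWp1 : 1 ≤ Wp w := Wp_pos w
  have hWp2 : 2 ≤ Wp w := by
    have h2 : 2 ∈ pz w := mem_pz.2 ⟨by omega, Nat.prime_two⟩
    exact Nat.le_of_dvd (Wp_pos w) (dvd_Wp h2)
  have hWY4 : Wp w * (4 * Y) + g ≤ N := by
    have : Wp w * (4 * Y) = 4 * (Wp w * Y) := by ring
    omega
  have hWYY : Y ≤ Wp w * Y := Nat.le_mul_of_pos_left Y (by omega)
  have hVlow' := hVlow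
  rw [← hV] at hVlow
  have hV0 : 0 < V := lt_of_lt_of_le (by positivity) hVlow
  have hMc0 : (0 : ℝ) < M.card := lt_of_lt_of_le (by positivity) hMc
  obtain ⟨μ, hμ⟩ : ∃ μ, μ = M.card * V := ⟨_, rfl⟩
  have hμ0 : 0 < μ := by rw [hμ]; positivity
  -- the exceptional sets
  have x0 := hvar z R Y w g hze0 hz2' hR1 hR80 hWY4 hY2 hw1 hwz h hinj hhz hg M hM hMc hVlow' hsg Λ hΛB w2 w3
  rw [← hV, ← hμ] at x0
  have xi : ∀ i, (((Ioc (2 * Y) (4 * Y)).filter (fun n => μ * Qf z R (Lr Λ i) / 2 < |TA z R (Wp w) g M h (Lr Λ i) n - μ * Qf z R (Lr Λ i)|)).card : ℝ) ≤ 104 * δ' * Y := by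
    intro i
    have := hvar z R Y w g hze0 hz2' hR1 hR80 hWY4 hY2 hw1 hwz h hinj hhz hg M hM hMc hVlow' hsg (Lr Λ i) (hΛi i) (fun d hd' => (hsi i d hd').1) (w4 i)
    rw [← hV, ← hμ] at this
    exact this
  obtain ⟨Er, hEr⟩ : ∃ Er : ℕ → ℝ, Er = fun n => ∑ i : Fin k, |∑ s ∈ M, Df z R h i (Lr Λ i) (Wp w * (n - s) + g)| := ⟨_, rfl⟩
  have hEr0 : ∀ n ∈ Ioc (2 * Y) (4 * Y), 0 ≤ Er n := fun n _ => by rw [hEr]; exact sum_nonneg fun _ _ => abs_nonneg _
  have hErS : ∑ n ∈ Ioc (2 * Y) (4 * Y), Er n ≤ k * (N ^ 2 / L ^ A1) := by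
    rw [hEr]
    rw [sum_comm]
    refine (sum_le_sum (fun i _ => hpp z R Y (Wp w) g hze1 hz2' hR1 hR80 hY1 hWp2 hzY hY1' h hinj hhz M hM i (Lr Λ i) (hΛi i) (hsi i))).trans (le_of_eq ?_)
    rw [sum_const, card_univ, Fintype.card_fin, nsmul_eq_mul]
  have xE := markov (Ioc (2 * Y) (4 * Y)) Er hEr0 μ hμ0 _ hErS (fun n => μ ≤ Er n) (fun _ _ h => h)
  have xE' : (k * (N ^ 2 / L ^ A1)) / μ ≤ 104 * δ' * Y := by
    rw [div_le_iff₀ hμ0]
    have q1 : ((N : ℝ) / L ^ K') / L ^ A * (1 / L ^ (2 * k)) ≤ μ := by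
      rw [hμ]
      have : ((N : ℝ) / L ^ K') / L ^ A ≤ M.card := le_trans (by gcongr) hMc
      gcongr
    have q2 : 104 * δ' * (N / L ^ K') * (((N : ℝ) / L ^ K') / L ^ A * (1 / L ^ (2 * k))) ≤ 104 * δ' * Y * μ := by gcongr
    refine le_trans ?_ q2
    rw [hδ']
    have e3 : L ^ A1 = (L ^ K') ^ 2 * L ^ A * L ^ (2 * k) * L := by rw [hA1]; ring
    have e4 : k * ((N : ℝ) ^ 2 / L ^ A1) = (k * (k + 3) / δ) / L * (104 * (δ / (104 * (k + 3))) * (N / L ^ K') * (((N : ℝ) / L ^ K') / L ^ A * (1 / L ^ (2 * k)))) := by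
      rw [e3]
      field_simp
    rw [e4]
    have e5 : (k * (k + 3) / δ) / L ≤ 1 := by rw [div_le_one hL0]; exact l2
    calc _ ≤ 1 * (104 * (δ / (104 * (k + 3))) * (N / L ^ K') * (((N : ℝ) / L ^ K') / L ^ A * (1 / L ^ (2 * k)))) :=
          mul_le_mul_of_nonneg_right e5 (by positivity)
      _ = _ := one_mul _
  -- the second moment
  obtain ⟨WW, hWW⟩ : ∃ WW : ℕ → ℝ, WW = fun n => ∑ s ∈ M, FF z R h Λ (Wp w * (n - s) + g) ^ 2 := ⟨_, rfl⟩
  have hWW0 : ∀ n ∈ Ioc (2 * Y) (4 * Y), 0 ≤ WW n := fun n _ => by rw [hWW]; exact sum_nonneg fun _ _ => by positivity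
  have hkL : (k : ℝ) ≤ L := by
    have : (0 : ℝ) ≤ (k : ℝ) ^ 2 := by positivity
    linarith
  have hWWS : ∑ n ∈ Ioc (2 * Y) (4 * Y), WW n ≤ M.card * (N * L ^ sm) := by
    rw [hWW]
    simp only
    rw [sum_comm]
    have e1 : ∀ s ∈ M, ∑ n ∈ Ioc (2 * Y) (4 * Y), FF z R h Λ (Wp w * (n - s) + g) ^ 2 ≤ N * L ^ sm := by
      intro s hs'
      have hj := mem_Icc.1 (hM hs')
      have g1 := mom4 hk z R (N - z) N Λ (L ^ Bw) (by positivity) hΛB h hhz (by omega)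
      rw [← hL] at g1
      have e3 : (1 + L) ≤ L ^ 2 := by nlinarith
      have e4 : (1 + L) ^ (2 ^ (4 * k)) ≤ (L ^ 2) ^ (2 ^ (4 * k)) := pow_le_pow_left₀ (by positivity) e3 _
      have g2 : ∑ b ∈ Icc 1 (N - z), SS z R Λ (cneg h) b ^ 4 ≤ N * L ^ sm := by
        calc _ ≤ (L ^ Bw) ^ 4 * (k * (N * (1 + L) ^ (2 ^ (4 * k)))) := g1
          _ ≤ (L ^ Bw) ^ 4 * (L * (N * (L ^ 2) ^ (2 ^ (4 * k)))) := by gcongr
          _ = N * L ^ sm := by rw [hsm]; ring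
      refine le_trans ?_ g2
      apply sum_inj_le _ _ (fun n => Wp w * (n - s) + g)
      · intro n hn
        rw [mem_Ioc] at hn
        rw [mem_Icc]
        have g3 : 1 * 1 ≤ Wp w * (n - s) := Nat.mul_le_mul hWp1 (by omega)
        have g4 : Wp w * (n - s) ≤ Wp w * (4 * Y) := Nat.mul_le_mul_left _ (by omega)
        have g5 : Wp w * (4 * Y) = 4 * (Wp w * Y) := by ring
        omega
      · intro n hn n' hn' hnn
        rw [mem_coe, mem_Ioc] at hn hn'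
        have hnn' : Wp w * (n - s) + g = Wp w * (n' - s) + g := hnn
        have g3 : Wp w * (n - s) = Wp w * (n' - s) := by omega
        have g4 := Nat.eq_of_mul_eq_mul_left (by omega) g3
        omega
      · intro b _; positivity
      · intro n _
        have g3 := FF_le z R h Λ (Wp w * (n - s) + g)
        have g4 := FF_nonneg z R h Λ (Wp w * (n - s) + g)
        calc FF z R h Λ (Wp w * (n - s) + g) ^ 2 ≤ (SS z R Λ (cneg h) (Wp w * (n - s) + g) ^ 2) ^ 2 := pow_le_pow_left₀ g4 g3 2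
          _ = _ := by ring
    refine (sum_le_sum e1).trans (le_of_eq ?_)
    rw [sum_const, nsmul_eq_mul]
  obtain ⟨t2, ht2⟩ : ∃ t2 : ℝ, t2 = M.card * L ^ (sm + K' + 1) := ⟨_, rfl⟩
  have ht20 : 0 < t2 := by rw [ht2]; positivity
  have xW := markov (Ioc (2 * Y) (4 * Y)) WW hWW0 t2 ht20 _ hWWS (fun n => t2 ≤ WW n) (fun _ _ h => h)
  have xW' : (M.card * (N * L ^ sm)) / t2 ≤ 104 * δ' * Y := by
    have e1 : (M.card * (N * L ^ sm)) / t2 = (1 / L) * (N / L ^ K') := by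
      rw [ht2, pow_add, pow_add, pow_one]
      field_simp
    rw [e1]
    have e2 : 1 / L ≤ 104 * δ' := by
      rw [hδ']
      rw [div_le_iff₀ hL0]
      have e3 : 104 * (δ / (104 * (k + 3))) * L = δ * L / (k + 3) := by field_simp
      rw [e3, le_div_iff₀ (by positivity), one_mul]
      rw [div_le_iff₀ hδ] at l2
      have : (1 : ℝ) * (k + 3) ≤ k * (k + 3) := mul_le_mul_of_nonneg_right hkr (by positivity)
      linarith
    exact mul_le_mul e2 hY2 (by positivity) (by positivity)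
  -- the bad integers are exceptional
  have hsub : (Ioc (2 * Y) (4 * Y)).filter (fun n => ((M.filter (fun s => m ≤ np h (Wp w * (n - s) + g))).card : ℝ) < Y / L ^ D) ⊆
      ((((Ioc (2 * Y) (4 * Y)).filter (fun n => μ * Qf z R Λ / 2 < |TA z R (Wp w) g M h Λ n - μ * Qf z R Λ|)) ∪
        ((Ioc (2 * Y) (4 * Y)).filter (fun n => μ ≤ Er n))) ∪ ((Ioc (2 * Y) (4 * Y)).filter (fun n => t2 ≤ WW n))) ∪
      univ.biUnion (fun i : Fin k => (Ioc (2 * Y) (4 * Y)).filter (fun n => μ * Qf z R (Lr Λ i) / 2 < |TA z R (Wp w) g M h (Lr Λ i) n - μ * Qf z R (Lr Λ i)|)) := by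
    intro n hn
    rw [mem_filter] at hn
    obtain ⟨hnI, hbad⟩ := hn
    rw [mem_union, mem_union, mem_union, mem_biUnion, mem_filter, mem_filter, mem_filter]
    by_contra hcon
    push Not at hcon
    obtain ⟨⟨⟨c1, c2⟩, c4⟩, c3⟩ := hcon
    have c1 := c1 hnI
    have c2 := c2 hnI
    have c4 := c4 hnI
    have c3' : ∀ i : Fin k, |TA z R (Wp w) g M h (Lr Λ i) n - μ * Qf z R (Lr Λ i)| ≤ μ * Qf z R (Lr Λ i) / 2 := by
      intro i
      have := c3 i (mem_univ i)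
      rw [mem_filter] at this
      push Not at this
      exact this hnI
    rw [mem_Ioc] at hnI
    have hpt : ∀ s ∈ M, Y < Wp w * (n - s) + g ∧ Wp w * (n - s) + g + Y ≤ N := by
      intro s hs'
      have hj := mem_Icc.1 (hM hs')
      have g1 : 1 * (Y + 1) ≤ Wp w * (n - s) := Nat.mul_le_mul hWp1 (by omega)
      have g2 : Wp w * (n - s) ≤ Wp w * (4 * Y) := Nat.mul_le_mul_left _ (by omega)
      have g3 : Wp w * (4 * Y) = 4 * (Wp w * Y) := by ring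
      constructor
      · omega
      · omega
    -- the sum is small
    obtain ⟨G, hG⟩ : ∃ G, G = M.filter (fun s => m ≤ np h (Wp w * (n - s) + g)) := ⟨_, rfl⟩
    rw [← hG] at hbad
    obtain ⟨Sg, hSg⟩ : ∃ Sg, Sg = ∑ s ∈ G, FF z R h Λ (Wp w * (n - s) + g) := ⟨_, rfl⟩
    have hSg0 : 0 ≤ Sg := by rw [hSg]; exact sum_nonneg fun _ _ => FF_nonneg _ _ _ _ _
    have p1 : ∑ s ∈ M, FF z R h Λ (Wp w * (n - s) + g) * (∑ i, pl (Wp w * (n - s) + g + h i) - (m - 1) * L) ≤ k * L * Sg := by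
      have e0 : k * L * Sg = ∑ s ∈ M, (if m ≤ np h (Wp w * (n - s) + g) then k * L * FF z R h Λ (Wp w * (n - s) + g) else 0) := by
        rw [← sum_filter, ← hG, ← mul_sum, ← hSg]
      rw [e0]
      apply sum_le_sum
      intro s hs'
      obtain ⟨hj1, hj2⟩ := hpt s hs'
      have q1 := sum_pl_le h (Wp w * (n - s) + g) N (by omega) (fun l => by have := hhz l; omega)
      have f0 := FF_nonneg z R h Λ (Wp w * (n - s) + g)
      have hm1 : (0 : ℝ) ≤ (m - 1) * L := mul_nonneg (by linarith) hL0.le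
      split_ifs with hc
      · have q2 : (np h (Wp w * (n - s) + g) : ℝ) ≤ k := by exact_mod_cast np_le h _
        have q3 := mul_le_mul_of_nonneg_right q2 hL0.le
        calc _ ≤ FF z R h Λ (Wp w * (n - s) + g) * (k * L) := mul_le_mul_of_nonneg_left (by linarith) f0
          _ = _ := by ring
      · apply mul_nonpos_of_nonneg_of_nonpos f0
        have q3 : (np h (Wp w * (n - s) + g) : ℝ) ≤ m - 1 := by
          have : np h (Wp w * (n - s) + g) + 1 ≤ m := by omega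
          have : ((np h (Wp w * (n - s) + g) + 1 : ℕ) : ℝ) ≤ m := by exact_mod_cast this
          push_cast at this
          linarith
        have q4 := mul_le_mul_of_nonneg_right q3 hL0.le
        linarith
    have p0 : Sg ^ 2 ≤ (Y / L ^ D) * t2 := by
      have h1 := sq_sum_le_card_mul_sum_sq (s := G) (f := fun s => FF z R h Λ (Wp w * (n - s) + g))
      rw [← hSg] at h1
      refine h1.trans ?_
      apply mul_le_mul hbad.le _ (sum_nonneg fun _ _ => by positivity) (by positivity)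
      refine le_trans ?_ c4.le
      rw [hWW, hG]
      exact sum_le_sum_of_subset_of_nonneg (filter_subset _ _) fun _ _ _ => by positivity
    -- the expansion
    have p2 : ∑ s ∈ M, FF z R h Λ (Wp w * (n - s) + g) * (∑ i, pl (Wp w * (n - s) + g + h i) - (m - 1) * L) =
        ∑ i : Fin k, (∑ s ∈ M, Df z R h i (Lr Λ i) (Wp w * (n - s) + g) + (Vz z)⁻¹ * TA z R (Wp w) g M h (Lr Λ i) n) -
          (m - 1) * L * TA z R (Wp w) g M h Λ n := by
      have q1 : ∀ s ∈ M, FF z R h Λ (Wp w * (n - s) + g) * (∑ i, pl (Wp w * (n - s) + g + h i) - (m - 1) * L) =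
          ∑ i : Fin k, (Df z R h i (Lr Λ i) (Wp w * (n - s) + g) + (Vz z)⁻¹ * FF z R h (Lr Λ i) (Wp w * (n - s) + g)) -
            (m - 1) * L * FF z R h Λ (Wp w * (n - s) + g) := by
        intro s hs'
        obtain ⟨hj1, hj2⟩ := hpt s hs'
        rw [mul_sub, mul_sum]
        congr 1
        · apply sum_congr rfl
          intro i _
          exact Df_eq z R h i Λ (Wp w * (n - s) + g) (by omega)
        · ring
      rw [sum_congr rfl q1, sum_sub_distrib, sum_comm, ← mul_sum]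
      congr 1
      apply sum_congr rfl
      intro i _
      rw [sum_add_distrib, ← mul_sum]
      rfl
    have hVi : 0 < (Vz z)⁻¹ := by linarith
    -- lower bounds
    have p3 : ∑ i : Fin k, (-|∑ s ∈ M, Df z R h i (Lr Λ i) (Wp w * (n - s) + g)| + (Vz z)⁻¹ * (μ * Qf z R (Lr Λ i) / 2)) ≤
        ∑ i : Fin k, (∑ s ∈ M, Df z R h i (Lr Λ i) (Wp w * (n - s) + g) + (Vz z)⁻¹ * TA z R (Wp w) g M h (Lr Λ i) n) := by
      apply sum_le_sum
      intro i _
      apply add_le_add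
      · exact neg_abs_le _
      · apply mul_le_mul_of_nonneg_left _ hVi.le
        have := (abs_le.1 (c3' i)).1
        linarith
    have p4 : ∑ i : Fin k, (-|∑ s ∈ M, Df z R h i (Lr Λ i) (Wp w * (n - s) + g)| + (Vz z)⁻¹ * (μ * Qf z R (Lr Λ i) / 2)) =
        -Er n + μ / 2 * ((Vz z)⁻¹ * ∑ i, Qf z R (Lr Λ i)) := by
      rw [sum_add_distrib, sum_neg_distrib, hEr, mul_sum, mul_sum]
      congr 1
      apply sum_congr rfl
      intro i _
      ring
    have p5 : TA z R (Wp w) g M h Λ n ≤ 3 / 2 * (μ * Qf z R Λ) := by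
      have := (abs_le.1 c1).2
      linarith
    have p6 := mul_le_mul_of_nonneg_left hratio (show 0 ≤ μ / 2 by positivity)
    have hm1 : (0 : ℝ) ≤ (m - 1) * L := mul_nonneg (by linarith) hL0.le
    have p7 := mul_le_mul_of_nonneg_left p5 hm1
    have hQL : 1 ≤ L * Qf z R Λ := one_le_mul_of_one_le_of_one_le hL1 w3
    have p8 : 2 * μ ≤ μ / 2 * (4 * m * L * Qf z R Λ) - (m - 1) * L * (3 / 2 * (μ * Qf z R Λ)) := by
      have e1 : μ / 2 * (4 * m * L * Qf z R Λ) - (m - 1) * L * (3 / 2 * (μ * Qf z R Λ)) = 2 * μ * ((m / 4 + 3 / 4) * (L * Qf z R Λ)) := by ring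
      rw [e1]
      apply le_mul_of_one_le_right (by linarith)
      exact one_le_mul_of_one_le_of_one_le (by linarith only [hmr]) hQL
    rw [p2] at p1
    have p9 : μ ≤ k * L * Sg := by linarith
    have p10 : μ ^ 2 ≤ (k * L * Sg) ^ 2 := pow_le_pow_left₀ hμ0.le p9 2
    have p11 : (k * L * Sg) ^ 2 ≤ (k * L) ^ 2 * ((Y / L ^ D) * t2) := by
      calc (k * L * Sg) ^ 2 = (k * L) ^ 2 * Sg ^ 2 := by ring
        _ ≤ _ := mul_le_mul_of_nonneg_left p0 (by positivity)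
    have p12 : (M.card : ℝ) * (Y / L ^ A) * (1 / L ^ (2 * k)) ^ 2 ≤ μ ^ 2 := by
      rw [hμ]
      calc (M.card : ℝ) * (Y / L ^ A) * (1 / L ^ (2 * k)) ^ 2 ≤ M.card * M.card * V ^ 2 := by gcongr
        _ = _ := by ring
    have p13 := p12.trans (p10.trans p11)
    have e1 : (k * L) ^ 2 * ((Y / L ^ D) * t2) = (k ^ 2 / L) * ((M.card : ℝ) * (Y / L ^ A) * (1 / L ^ (2 * k)) ^ 2) := by
      have e2 : L ^ D = L ^ (sm + K' + 1) * L ^ 2 * L ^ A * (L ^ (2 * k)) ^ 2 * L := by rw [hDd]; ring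
      rw [ht2, e2]
      field_simp
    rw [e1] at p13
    have hpos : 0 < (M.card : ℝ) * (Y / L ^ A) * (1 / L ^ (2 * k)) ^ 2 := by positivity
    have p14 : (k : ℝ) ^ 2 / L < 1 := by
      rw [div_lt_one hL0]
      linarith
    have p15 := mul_lt_mul_of_pos_right p14 hpos
    linarith
  calc _ ≤ (((((((Ioc (2 * Y) (4 * Y)).filter (fun n => μ * Qf z R Λ / 2 < |TA z R (Wp w) g M h Λ n - μ * Qf z R Λ|)) ∪
        ((Ioc (2 * Y) (4 * Y)).filter (fun n => μ ≤ Er n))) ∪ ((Ioc (2 * Y) (4 * Y)).filter (fun n => t2 ≤ WW n))) ∪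
      univ.biUnion (fun i : Fin k => (Ioc (2 * Y) (4 * Y)).filter (fun n => μ * Qf z R (Lr Λ i) / 2 < |TA z R (Wp w) g M h (Lr Λ i) n - μ * Qf z R (Lr Λ i)|))).card : ℕ) : ℝ) := by
        exact_mod_cast card_le_card hsub
    _ ≤ (((Ioc (2 * Y) (4 * Y)).filter (fun n => μ * Qf z R Λ / 2 < |TA z R (Wp w) g M h Λ n - μ * Qf z R Λ|)).card : ℝ) +
        (((Ioc (2 * Y) (4 * Y)).filter (fun n => μ ≤ Er n)).card : ℝ) + (((Ioc (2 * Y) (4 * Y)).filter (fun n => t2 ≤ WW n)).card : ℝ) +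
        ∑ i : Fin k, (((Ioc (2 * Y) (4 * Y)).filter (fun n => μ * Qf z R (Lr Λ i) / 2 < |TA z R (Wp w) g M h (Lr Λ i) n - μ * Qf z R (Lr Λ i)|)).card : ℝ) := by
        exact_mod_cast (card_union_le _ _).trans (add_le_add ((card_union_le _ _).trans (add_le_add (card_union_le _ _) le_rfl)) card_biUnion_le)
    _ ≤ 104 * δ' * Y + 104 * δ' * Y + 104 * δ' * Y + ∑ _i : Fin k, 104 * δ' * (Y : ℝ) := by
        apply add_le_add (add_le_add (add_le_add x0 (xE.trans xE')) (xW.trans xW'))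
        exact sum_le_sum fun i _ => xi i
    _ = 104 * δ' * (k + 3) * Y := by
        rw [sum_const, card_univ, Fintype.card_fin, nsmul_eq_mul]
        ring
    _ = δ * Y := by
        rw [hδ']
        field_simp

end Pool.Agent.L0h42.CP
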