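import Mathlib
import Pool.Agent.L0h42.CP.C6

/-! One residue class modulo the product of the small primes. -/

set_option autoImplicit false
set_option linter.unusedSectionVars false
set_option linter.unusedVariables false

namespace Pool.Agent.L0h42.CP
open Finset
open Pool.Agent.L0h42.TB
open Pool.Agent.L0h42.EG
open Pool.Agent.H373R2.T7

/-- the `s` for which `s + H l` and `n - s + H l` are prime for `m` common indices `l` -/
def Sol {k : ℕ} (H : Fin k → ℕ) (m n : ℕ) : Finset ℕ :=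
  (Ico 1 n).filter (fun s => m ≤ (univ.filter (fun l => (s + H l).Prime ∧ (n - s + H l).Prime)).card)

lemma pigeon (k k₁ W : ℕ) (hW : 0 < W) (H : Fin k₁ → ℕ) (G : Finset ℕ) (hG : G.Nonempty) (hk : ∀ a ∈ G, k ≤ np H a) :
    ∃ (a₀ : ℕ) (e : Fin k → Fin k₁) (G' : Finset ℕ), a₀ < W ∧ Function.Injective e ∧ G' ⊆ G ∧
      (∀ a ∈ G', a % W = a₀ ∧ ∀ i, (a + H (e i)).Prime) ∧ G'.Nonempty ∧ G.card ≤ (W * 2 ^ k₁) * G'.card := by
  classical
  obtain ⟨f, hf⟩ : ∃ f : ℕ → ℕ × Finset (Fin k₁), f = fun a => (a % W, univ.filter (fun l => (a + H l).Prime)) := ⟨_, rfl⟩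
  obtain ⟨T, hT⟩ : ∃ T : Finset (ℕ × Finset (Fin k₁)), T = range W ×ˢ (univ : Finset (Fin k₁)).powerset := ⟨_, rfl⟩
  have hmaps : ∀ a ∈ G, f a ∈ T := by
    intro a _
    rw [hf, hT, mem_product]
    exact ⟨mem_range.2 (Nat.mod_lt _ hW), mem_powerset.2 (subset_univ _)⟩
  have hTc : T.card = W * 2 ^ k₁ := by
    rw [hT, card_product, card_range, card_powerset, card_univ, Fintype.card_fin]
  -- a large fibre
  have hex : ∃ y ∈ T, G.card ≤ T.card * (G.filter (fun a => f a = y)).card := by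
    by_contra hcon
    push Not at hcon
    have h1 := card_eq_sum_card_fiberwise hmaps
    have h3 : T.Nonempty := by
      obtain ⟨a, ha⟩ := hG
      exact ⟨f a, hmaps a ha⟩
    have h2 : T.card * G.card < T.card * G.card := by
      calc T.card * G.card = ∑ y ∈ T, T.card * (G.filter (fun a => f a = y)).card := by rw [← mul_sum, ← h1]
        _ < ∑ _y ∈ T, G.card := sum_lt_sum_of_nonempty h3 hcon
        _ = T.card * G.card := by rw [sum_const, smul_eq_mul]
    exact lt_irrefl _ h2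
  obtain ⟨y, hy, hc⟩ := hex
  have hGc : 0 < G.card := card_pos.2 hG
  have hne : (G.filter (fun a => f a = y)).Nonempty := by
    rw [← card_pos]
    by_contra h0
    have : (G.filter (fun a => f a = y)).card = 0 := by omega
    rw [this, mul_zero] at hc
    omega
  obtain ⟨a1, ha1⟩ := hne
  rw [mem_filter] at ha1
  have hy2 : y.2 = univ.filter (fun l => (a1 + H l).Prime) := by rw [← ha1.2, hf]
  have hcard : k ≤ y.2.card := by
    rw [hy2]
    exact hk a1 ha1.1
  obtain ⟨I, hI1, hI2⟩ := exists_subset_card_eq hcard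
  refine ⟨y.1, fun i => ((I.equivFin.symm (Fin.cast hI2.symm i) : I) : Fin k₁), G.filter (fun a => f a = y), ?_, ?_, filter_subset _ _, ?_, ⟨a1, mem_filter.2 ha1⟩, ?_⟩
  · rw [hT, mem_product, mem_range] at hy
    exact hy.1
  · intro i j hij
    have := I.equivFin.symm.injective (Subtype.ext hij)
    exact Fin.cast_injective _ this
  · intro a ha
    rw [mem_filter] at ha
    have h1 : a % W = y.1 := by rw [← ha.2, hf]
    have h2 : y.2 = univ.filter (fun l => (a + H l).Prime) := by rw [← ha.2, hf]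
    refine ⟨h1, fun i => ?_⟩
    have h3 := hI1 (I.equivFin.symm (Fin.cast hI2.symm i)).2
    rw [h2, mem_filter] at h3
    exact h3.2
  · rw [← hTc]
    exact hc

open Classical in
/-- **one class.** -/
lemma class_bound (k k₁ m : ℕ) (H : Fin k₁ → ℕ) (hH : Function.Injective H) (w Y₁ Y' Y b n₀ : ℕ)
    (hY1 : 2 * Y₁ ≤ Y') (hYW : Y = Y' / Wp w + 1) (hWY : Wp w ≤ Y₁)
    (hn0 : n₀ % Wp w = b) (hn1 : 2 * Y₁ < n₀) (hne : (GoodR k Y₁ w H H n₀).Nonempty) (T : ℝ) :
    ∃ (g : ℕ) (e : Fin k → Fin k₁) (M : Finset ℕ), g < Wp w ∧ Function.Injective e ∧ (∀ l, ∀ p ∈ pz w, ¬ p ∣ g + H (e l)) ∧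
      M ⊆ Icc 1 Y ∧ (GoodR k Y₁ w H H n₀).card ≤ (Wp w * 2 ^ k₁) * M.card ∧
      ((Ioc (2 * Y') (4 * Y')).filter (fun n => 2 * Y' + 4 * Wp w < n ∧ n % Wp w = b ∧ ((Sol H m n).card : ℝ) < T)).card ≤
        ((Ioc (2 * Y) (4 * Y)).filter (fun n => ((M.filter (fun s => m ≤ np (fun l => H (e l)) (Wp w * (n - s) + g))).card : ℝ) < T)).card := by
  obtain ⟨W, hW⟩ : ∃ W, W = Wp w := ⟨_, rfl⟩
  have hW0 : 0 < W := by rw [hW]; exact Wp_pos w
  rw [← hW] at hYW hWY hn0 ⊢
  have hmem : ∀ a ∈ GoodR k Y₁ w H H n₀, (Y₁ < a ∧ a ≤ 2 * Y₁) ∧ k ≤ np H a ∧ ∀ p ∈ pz w, ∀ l, ¬ p ∣ n₀ - a + H l := by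
    intro a ha
    unfold GoodR Good at ha
    rw [mem_filter, mem_filter, mem_Ioc] at ha
    exact ⟨ha.1.1, ha.1.2.1, fun p hp l => (ha.2 p hp l).2⟩
  obtain ⟨a₀, e, G', ha0, he, hG1, hG2, hG3, hG4⟩ := pigeon k k₁ W hW0 H (GoodR k Y₁ w H H n₀) hne (fun a ha => (hmem a ha).2.1)
  obtain ⟨g, hg⟩ : ∃ g, g = (b + W - a₀) % W := ⟨_, rfl⟩
  have hb : b < W := by rw [← hn0]; exact Nat.mod_lt _ hW0
  have hgW : g < W := by rw [hg]; exact Nat.mod_lt _ hW0
  have hag : (a₀ + g) % W = b := by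
    rw [hg, Nat.add_mod_mod]
    have : a₀ + (b + W - a₀) = b + W := by omega
    rw [this, Nat.add_mod_right, Nat.mod_eq_of_lt hb]
  obtain ⟨M, hM⟩ : ∃ M, M = G'.image (fun a => a / W) := ⟨_, rfl⟩
  have hinj : Set.InjOn (fun a => a / W) (G' : Set ℕ) := by
    intro a ha a' ha' haa
    have h1 := (hG2 a (mem_coe.1 ha)).1
    have h2 := (hG2 a' (mem_coe.1 ha')).1
    have h3 := Nat.div_add_mod a W
    have h4 := Nat.div_add_mod a' W
    simp only at haa
    rw [h1] at h3
    rw [h2, ← haa] at h4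
    omega
  refine ⟨g, e, M, hgW, he, ?_, ?_, ?_, ?_⟩
  · -- coprimality
    intro l p hp hd
    obtain ⟨a, ha⟩ := hG3
    have hm1 := hmem a (hG1 ha)
    apply hm1.2.2 p hp (e l)
    have hpW : p ∣ W := by rw [hW]; exact dvd_Wp hp
    have h2 := (hG2 a ha).1
    have h5 : n₀ ≡ a + g [MOD W] := by
      unfold Nat.ModEq
      rw [Nat.add_mod, h2, Nat.mod_eq_of_lt hgW, hag, hn0]
    have h6 : n₀ - a ≡ g [MOD W] := by
      have h7 : (n₀ - a) + a ≡ g + a [MOD W] := by
        rw [Nat.sub_add_cancel (by omega), add_comm g a]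
        exact h5
      exact Nat.ModEq.add_right_cancel' a h7
    have h8 : n₀ - a + H (e l) ≡ g + H (e l) [MOD p] := (h6.of_dvd hpW).add_right _
    exact (h8.dvd_iff (dvd_refl p)).2 hd
  · -- the set
    intro s hs
    rw [hM, mem_image] at hs
    obtain ⟨a, ha, rfl⟩ := hs
    have hm1 := (hmem a (hG1 ha)).1
    rw [mem_Icc]
    constructor
    · exact (Nat.one_le_div_iff hW0).2 (by omega)
    · have h1 : a / W ≤ Y' / W := Nat.div_le_div_right (by omega)
      omega
  · rw [hM, card_image_of_injOn hinj]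
    exact hG4
  · -- the exceptional integers
    apply card_le_card_of_injOn (fun n => (n - (a₀ + g)) / W)
    · intro n hn
      rw [mem_coe, mem_filter, mem_Ioc] at hn
      obtain ⟨⟨hn1, hn2⟩, hn3, hn4, hn5⟩ := hn
      have hdvd : W ∣ n - (a₀ + g) := by
        apply (Nat.modEq_iff_dvd' (by omega)).1
        unfold Nat.ModEq
        rw [hag, hn4]
      have hW1 : W * ((n - (a₀ + g)) / W) = n - (a₀ + g) := Nat.mul_div_cancel' hdvd
      have hYW1 : W * (Y' / W) ≤ Y' := Nat.mul_div_le Y' W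
      have hYW2 : Y' < W * (Y' / W + 1) := Nat.lt_mul_div_succ Y' hW0
      have hYe : W * Y = W * (Y' / W) + W := by rw [hYW]; ring
      rw [mem_coe, mem_filter, mem_Ioc]
      refine ⟨⟨?_, ?_⟩, ?_⟩
      · by_contra hcon
        push Not at hcon
        have h1 : W * ((n - (a₀ + g)) / W) ≤ W * (2 * Y) := Nat.mul_le_mul_left _ hcon
        have h2 : W * (2 * Y) = 2 * (W * Y) := by ring
        omega
      · by_contra hcon
        push Not at hcon
        have h1 : W * (4 * Y + 1) ≤ W * ((n - (a₀ + g)) / W) := Nat.mul_le_mul_left _ hcon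
        have h2 : W * (4 * Y + 1) = 4 * (W * Y) + W := by ring
        have h3 : W * (Y' / W + 1) = W * (Y' / W) + W := by ring
        omega
      · refine lt_of_le_of_lt (Nat.cast_le.2 ?_) hn5
        apply card_le_card_of_injOn (fun s => W * s + a₀)
        · intro s hs
          rw [mem_coe, mem_filter] at hs
          obtain ⟨hs1, hcon⟩ := hs
          rw [hM, mem_image] at hs1
          obtain ⟨a, ha, rfl⟩ := hs1
          have hm1 := (hmem a (hG1 ha)).1
          have h3 := Nat.div_add_mod a W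
          rw [(hG2 a ha).1] at h3
          have hpt : W * ((n - (a₀ + g)) / W - a / W) + g = n - a := by
            rw [Nat.mul_sub, hW1]
            omega
          rw [hpt] at hcon
          have h3' : (fun s => W * s + a₀) (a / W) = a := h3
          rw [h3', mem_coe]
          unfold Sol
          rw [mem_filter, mem_Ico]
          refine ⟨⟨by omega, by omega⟩, hcon.trans ?_⟩
          unfold np
          apply card_le_card_of_injOn e
          · intro l hl
            rw [mem_coe, mem_filter] at hl ⊢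
            exact ⟨mem_univ _, (hG2 a ha).2 l, hl.2⟩
          · exact fun _ _ _ _ h => he h
        · intro s _ s' _ hss
          simp only at hss
          have h4 : W * s = W * s' := by omega
          exact Nat.eq_of_mul_eq_mul_left hW0 h4
    · intro n hn n' hn' hnn
      rw [mem_coe, mem_filter, mem_Ioc] at hn hn'
      have hdvd : W ∣ n - (a₀ + g) := by
        apply (Nat.modEq_iff_dvd' (by omega)).1
        unfold Nat.ModEq
        rw [hag, hn.2.2.1]
      have hdvd' : W ∣ n' - (a₀ + g) := by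
        apply (Nat.modEq_iff_dvd' (by omega)).1
        unfold Nat.ModEq
        rw [hag, hn'.2.2.1]
      simp only at hnn
      have hW1 : W * ((n - (a₀ + g)) / W) = n - (a₀ + g) := Nat.mul_div_cancel' hdvd
      have hW2 : W * ((n' - (a₀ + g)) / W) = n' - (a₀ + g) := Nat.mul_div_cancel' hdvd'
      rw [hnn, hW2] at hW1
      omega

end Pool.Agent.L0h42.CP
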