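import Mathlib
import Pool.Agent.L0h42.CP.C7
import Pool.Agent.L0h42.EG.E10

/-! All classes; almost all even numbers. -/

set_option autoImplicit false
set_option linter.unusedSectionVars false
set_option linter.unusedVariables false

namespace Pool.Agent.L0h42.CP
open Finset
open Pool.Agent.L0h42.TB
open Pool.Agent.L0h42.EG
open Pool.Agent.H373R2.T7

lemma class_low {a b W r : ℕ} (hW : 0 < W) (hr : r < W) :
    ((b : ℝ) - a) / W - 1 ≤ (((Ioc a b).filter (fun n => n % W = r)).card : ℝ) := by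
  have h := Nat.Ioc_filter_modEq_card a b hW r
  have e : (Ioc a b).filter (fun n => n ≡ r [MOD W]) = (Ioc a b).filter (fun n => n % W = r) := by
    apply filter_congr
    intro n _
    unfold Nat.ModEq
    rw [Nat.mod_eq_of_lt hr]
  rw [e] at h
  have h1 : (⌊((b : ℚ) - r) / W⌋ - ⌊((a : ℚ) - r) / W⌋ : ℤ) ≤ (((Ioc a b).filter (fun n => n % W = r)).card : ℤ) := by
    rw [h]; exact le_max_left _ _
  have h2 : ((⌊((b : ℚ) - r) / W⌋ : ℤ) : ℚ) - ((⌊((a : ℚ) - r) / W⌋ : ℤ) : ℚ) ≤ (((Ioc a b).filter (fun n => n % W = r)).card : ℚ) := by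
    exact_mod_cast h1
  have h3 := Int.sub_one_lt_floor (((b : ℚ) - r) / W)
  have h4 := Int.floor_le (((a : ℚ) - r) / W)
  have hW0 : (0 : ℚ) < W := by exact_mod_cast hW
  have h5 : ((b : ℚ) - a) / W - 1 ≤ (((Ioc a b).filter (fun n => n % W = r)).card : ℚ) := by
    have e2 : ((b : ℚ) - a) / W = ((b : ℚ) - r) / W - ((a : ℚ) - r) / W := by ring
    rw [e2]
    linarith
  have h6 := (Rat.cast_le (K := ℝ)).2 h5
  push_cast at h6
  exact h6

lemma class_up {a b W r : ℕ} (hab : a ≤ b) (hW : 0 < W) (hr : r < W) :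
    (((Ioc a b).filter (fun n => n % W = r)).card : ℝ) ≤ ((b : ℝ) - a) / W + 1 := by
  have h := Nat.Ioc_filter_modEq_card a b hW r
  have e : (Ioc a b).filter (fun n => n ≡ r [MOD W]) = (Ioc a b).filter (fun n => n % W = r) := by
    apply filter_congr
    intro n _
    unfold Nat.ModEq
    rw [Nat.mod_eq_of_lt hr]
  rw [e] at h
  have hW0 : (0 : ℚ) < W := by exact_mod_cast hW
  have hab' : (0 : ℚ) ≤ ((b : ℚ) - a) / W := by
    apply div_nonneg _ hW0.le
    rw [sub_nonneg]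
    exact_mod_cast hab
  have h3 := Int.floor_le (((b : ℚ) - r) / W)
  have h4 := Int.sub_one_lt_floor (((a : ℚ) - r) / W)
  have e2 : ((b : ℚ) - a) / W = ((b : ℚ) - r) / W - ((a : ℚ) - r) / W := by ring
  have h5 : (((Ioc a b).filter (fun n => n % W = r)).card : ℚ) ≤ ((b : ℚ) - a) / W + 1 := by
    have h7 : (((((Ioc a b).filter (fun n => n % W = r)).card : ℤ)) : ℚ) = ((max (⌊((b : ℚ) - r) / W⌋ - ⌊((a : ℚ) - r) / W⌋) 0 : ℤ) : ℚ) := by
      rw [h]
    rw [Int.cast_natCast] at h7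
    rw [h7]
    rcases max_choice (⌊((b : ℚ) - r) / W⌋ - ⌊((a : ℚ) - r) / W⌋) 0 with h8 | h8
    · rw [h8]
      push_cast
      linarith
    · rw [h8]
      push_cast
      linarith
  have h6 := (Rat.cast_le (K := ℝ)).2 h5
  push_cast at h6
  exact h6

/-- the product of the primes up to `w` -/
lemma Wp_le (w : ℕ) : Wp w ≤ 4 ^ w := by
  have e : Wp w = primorial w := by
    unfold Wp primorial
    apply prod_congr _ fun _ _ => rfl
    ext p
    rw [mem_pz, mem_filter, mem_range]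
    constructor
    · exact fun h => ⟨by omega, h.2⟩
    · exact fun h => ⟨by omega, h.2⟩
  rw [e]
  exact primorial_le_four_pow w

/-- the size of the modulus -/
lemma Wp_log (K : ℕ) : ∃ N0 : ℕ, ∀ N : ℕ, N0 ≤ N → ∀ w : ℕ, w = ⌈(K : ℝ) * Real.log (Real.log N)⌉₊ → (Wp w : ℝ) ≤ Real.log N ^ (2 * K + 1) := by
  obtain ⟨m1, h1⟩ := ev_L' 8
  refine ⟨m1, fun N hN w hw => ?_⟩
  have hL := h1 N hN
  obtain ⟨L, hLd⟩ : ∃ L, L = Real.log (N : ℝ) := ⟨_, rfl⟩
  rw [← hLd] at hL hw ⊢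
  have hL0 : 0 < L := by linarith
  have hl0 : 0 ≤ Real.log L := Real.log_nonneg (by linarith)
  have hw1 : (w : ℝ) ≤ K * Real.log L + 1 := by
    rw [hw]
    exact (Nat.ceil_lt_add_one (by positivity)).le
  have he : Real.exp 1 < 2.7182818286 := Real.exp_one_lt_d9
  have he' : 2.7182818283 < Real.exp 1 := Real.exp_one_gt_d9
  have he2 : Real.exp 2 = Real.exp 1 * Real.exp 1 := by rw [← Real.exp_add]; norm_num
  have h4 : (4 : ℝ) ≤ Real.exp 2 := by rw [he2]; nlinarith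
  have h8 : Real.exp 2 ≤ L := by rw [he2]; nlinarith
  calc (Wp w : ℝ) ≤ (4 : ℝ) ^ w := by exact_mod_cast Wp_le w
    _ ≤ Real.exp 2 ^ w := pow_le_pow_left₀ (by norm_num) h4 w
    _ = Real.exp (w * 2) := by rw [← Real.exp_nat_mul]
    _ ≤ Real.exp ((2 * K : ℕ) * Real.log L + 2) := by
        apply Real.exp_le_exp.2
        push_cast
        linarith
    _ = L ^ (2 * K) * Real.exp 2 := by
        rw [Real.exp_add, Real.exp_nat_mul, Real.exp_log hL0]
    _ ≤ L ^ (2 * K) * L := mul_le_mul_of_nonneg_left h8 (by positivity)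
    _ = _ := by rw [pow_succ]

set_option maxHeartbeats 4000000 in
open Classical in
/-- one dyadic block -/
theorem block (m : ℕ) (hm : 1 ≤ m) : ∃ k₁ : ℕ, 1 ≤ k₁ ∧ ∀ H : Fin k₁ → ℕ, Function.Injective H →
    (∀ p, p.Prime → p ≤ 2 * k₁ → ∀ l, p ∣ H l) → ∀ δ : ℝ, 0 < δ → ∃ E Y0 : ℕ, ∀ Y' : ℕ, Y0 ≤ Y' →
    (((Ioc (2 * Y') (4 * Y')).filter (fun n => Even n ∧ ((Sol H m n).card : ℝ) < n / Real.log n ^ E)).card : ℝ) ≤ δ * Y' := by
  obtain ⟨k, hk, hcore⟩ := core_aff m hm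
  obtain ⟨k₁, hk₁, hrough⟩ := core_rough k hk
  refine ⟨k₁, hk₁, fun H hH hd δ₀ hδ₀ => ?_⟩
  obtain ⟨B, n1, hr⟩ := hrough 1
  obtain ⟨δ, hδd⟩ : ∃ δ : ℝ, δ = min (δ₀ / 8) 1 := ⟨_, rfl⟩
  have hδ : 0 < δ := by rw [hδd]; exact lt_min (by linarith) one_pos
  have hδ1 : δ ≤ 1 := by rw [hδd]; exact min_le_right _ _
  have hδ8 : δ ≤ δ₀ / 8 := by rw [hδd]; exact min_le_left _ _
  obtain ⟨K0, hK0, hc⟩ := hcore (B + 1) δ hδ hδ1
  obtain ⟨K, hK⟩ : ∃ K, K = K0 + 2 := ⟨_, rfl⟩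
  obtain ⟨D, n2, hc2⟩ := hc (2 * K + 2)
  obtain ⟨E, hE⟩ : ∃ E, E = D + 2 * K + 2 := ⟨_, rfl⟩
  obtain ⟨n3, h3⟩ := Wp_log K
  obtain ⟨n4, h4⟩ := ll_small (K + 1)
  obtain ⟨n5, h5⟩ := ev_L' (max (max (2 ^ k₁ + 8 + 4 * 2 ^ E : ℝ) (∑ l, (H l : ℝ))) (168 / δ₀))
  obtain ⟨n6, h6⟩ := ev_log' (2 * K + 2) 1000
  refine ⟨E, max (max (max n1 n2) (max n3 n4)) (max (max n5 n6) 8), fun Y' hY' => ?_⟩
  obtain ⟨Y₁, hY₁⟩ : ∃ Y₁, Y₁ = Y' / 2 := ⟨_, rfl⟩
  obtain ⟨N, hN⟩ : ∃ N, N = 14 * Y₁ := ⟨_, rfl⟩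
  have hYN : Y' ≤ N := by
    have : 8 ≤ Y' := le_trans (le_trans (le_max_right _ _) (le_max_right _ _)) hY'
    omega
  have q1 : n1 ≤ N := le_trans (le_trans (le_trans (le_max_left _ _) (le_max_left _ _)) (le_trans (le_max_left _ _) hY')) hYN
  have q2 : n2 ≤ N := le_trans (le_trans (le_trans (le_max_right _ _) (le_max_left _ _)) (le_trans (le_max_left _ _) hY')) hYN
  have q3 : n3 ≤ N := le_trans (le_trans (le_trans (le_max_left _ _) (le_max_right _ _)) (le_trans (le_max_left _ _) hY')) hYN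
  have q4 : n4 ≤ N := le_trans (le_trans (le_trans (le_max_right _ _) (le_max_right _ _)) (le_trans (le_max_left _ _) hY')) hYN
  have q5 : n5 ≤ N := le_trans (le_trans (le_trans (le_max_left _ _) (le_max_left _ _)) (le_trans (le_max_right _ _) hY')) hYN
  have q6 : n6 ≤ N := le_trans (le_trans (le_trans (le_max_right _ _) (le_max_left _ _)) (le_trans (le_max_right _ _) hY')) hYN
  have b5 := h5 N q5
  have b6 := h6 N q6
  obtain ⟨hll, hl1⟩ := h4 N q4
  obtain ⟨w, hw⟩ : ∃ w, w = ⌈(K : ℝ) * Real.log (Real.log N)⌉₊ := ⟨_, rfl⟩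
  have b3 := h3 N q3 w hw
  have hr1 := hr N q1 Y₁ w (by omega) (by omega)
  have hcc := hc2 N q2
  obtain ⟨L, hL⟩ : ∃ L, L = Real.log (N : ℝ) := ⟨_, rfl⟩
  rw [← hL] at b5 b6 hll hl1 hw b3 hr1 hcc
  obtain ⟨l, hl⟩ : ∃ l, l = Real.log L := ⟨_, rfl⟩
  rw [← hl] at hll hl1 hw hcc
  have l1' : (2 ^ k₁ + 8 + 4 * 2 ^ E : ℝ) ≤ L := le_trans (le_trans (le_max_left _ _) (le_max_left _ _)) b5
  have l1 : (2 ^ k₁ + 8 : ℝ) ≤ L := by
    have : (0 : ℝ) ≤ 4 * 2 ^ E := by positivity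
    linarith
  have lE : (4 * 2 ^ E : ℝ) ≤ L := by
    have : (0 : ℝ) ≤ 2 ^ k₁ := by positivity
    linarith
  have l2 : ∑ l, (H l : ℝ) ≤ L := le_trans (le_trans (le_max_right _ _) (le_max_left _ _)) b5
  have l3 : 168 / δ₀ ≤ L := le_trans (le_max_right _ _) b5
  have h2k : (1 : ℝ) ≤ 2 ^ k₁ := one_le_pow₀ (by norm_num)
  have hL8 : 8 ≤ L := by linarith
  have hL0 : 0 < L := by linarith
  have hL1 : 1 ≤ L := by linarith
  -- the parameter `w`
  have hKr : (K : ℝ) = K0 + 2 := by rw [hK]; push_cast; ring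
  have hK0r : (0 : ℝ) ≤ K0 := Nat.cast_nonneg _
  have hw1 : (K : ℝ) * l ≤ w := by rw [hw]; exact Nat.le_ceil _
  have hw2 : (w : ℝ) ≤ K * l + 1 := by
    rw [hw]
    exact (Nat.ceil_lt_add_one (by positivity)).le
  have hwL : (w : ℝ) ≤ L := by
    refine le_trans ?_ hll
    have : (K : ℝ) * l + 1 ≤ (K + 1) * l := by linarith
    have h7 : (K + 1 : ℝ) * l ≤ (K + 1) * l ^ 2 := by
      apply mul_le_mul_of_nonneg_left _ (by positivity)
      nlinarith
    linarith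
  have hw3 : (K0 : ℝ) * l ≤ w := by
    refine le_trans ?_ hw1
    rw [hKr]
    nlinarith
  have hw2' : 2 ≤ w := by
    have : (2 : ℝ) ≤ w := by
      refine le_trans ?_ hw1
      rw [hKr]
      nlinarith
    exact_mod_cast this
  obtain ⟨W, hW⟩ : ∃ W, W = Wp w := ⟨_, rfl⟩
  have hW0 : 0 < W := by rw [hW]; exact Wp_pos w
  have hWr : (0 : ℝ) < W := by exact_mod_cast hW0
  have h2W : 2 ∣ W := by rw [hW]; exact dvd_Wp (mem_pz.2 ⟨hw2', Nat.prime_two⟩)
  rw [← hW] at b3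
  -- the size of `W`
  have hN0 : (0 : ℝ) < N := by
    have : 8 ≤ Y' := le_trans (le_trans (le_max_right _ _) (le_max_right _ _)) hY'
    exact_mod_cast (by omega : 0 < N)
  have hsqN : √(N : ℝ) ≤ N := by
    rw [Real.sqrt_le_left hN0.le]
    have : (1 : ℝ) ≤ N := by
      have : 8 ≤ Y' := le_trans (le_trans (le_max_right _ _) (le_max_right _ _)) hY'
      exact_mod_cast (by omega : 1 ≤ N)
    nlinarith
  have hWL : 1000 * (W * L) ≤ (N : ℝ) := by
    refine le_trans ?_ (b6.trans hsqN)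
    have : (W : ℝ) * L ≤ L ^ (2 * K + 1) * L := mul_le_mul_of_nonneg_right b3 hL0.le
    have e : L ^ (2 * K + 2) = L ^ (2 * K + 1) * L := by rw [← pow_succ]
    rw [e]
    linarith
  have hN7 : (N : ℝ) ≤ 7 * Y' := by exact_mod_cast (by omega : N ≤ 7 * Y')
  have hN7' : (7 * Y' : ℝ) ≤ N + 7 := by exact_mod_cast (by omega : 7 * Y' ≤ N + 7)
  have hWN : 1000 * W ≤ N := by
    have : (1000 * W : ℝ) ≤ N := by
      refine le_trans ?_ hWL
      have : (W : ℝ) * 1 ≤ W * L := mul_le_mul_of_nonneg_left hL1 hWr.le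
      linarith
    exact_mod_cast this
  have hY'0 : (0 : ℝ) < Y' := by linarith
  have hHL : ∀ i, (H i : ℝ) ≤ L := fun i => (single_le_sum (f := fun i => (H i : ℝ)) (fun _ _ => Nat.cast_nonneg _) (mem_univ i)).trans l2
  obtain ⟨Y, hY⟩ : ∃ Y, Y = Y' / W + 1 := ⟨_, rfl⟩
  have hYW1 : W * (Y' / W) ≤ Y' := Nat.mul_div_le Y' W
  have hYW2 : Y' < W * (Y' / W + 1) := Nat.lt_mul_div_succ Y' hW0
  have hYe : W * Y = W * (Y' / W) + W := by rw [hY]; ring
  have hYlow : (Y' : ℝ) / W ≤ Y := by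
    rw [div_le_iff₀ hWr]
    have : (Y' : ℝ) ≤ ((W * Y : ℕ) : ℝ) := by
      rw [hY]
      exact_mod_cast hYW2.le
    push_cast at this
    linarith
  have hYup : (W : ℝ) * Y ≤ 2 * Y' := by
    have : W * Y ≤ 2 * Y' := by omega
    exact_mod_cast this
  have hr2 := hr1 (by exact_mod_cast hwL) H H hH hH hHL hHL hd hd
  rw [pow_one] at hr2
  -- the bad classes
  obtain ⟨P, hP⟩ : ∃ P : ℕ → Prop, ∀ b, P b ↔ (Even b ∧ ∀ n₀ ∈ Ioc (4 * Y₁) (12 * Y₁), n₀ % W = b →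
    ((GoodR k Y₁ w H H n₀).card : ℝ) < N / L ^ B) := ⟨fun b => _, fun b => Iff.rfl⟩
  obtain ⟨Bc, hBm⟩ : ∃ Bc : Finset ℕ, ∀ b, b ∈ Bc ↔ b < W ∧ P b := ⟨(range W).filter P, fun b => by rw [mem_filter, mem_range]⟩
  have hpar : ∀ n, Even (n % W) ↔ Even n := by
    intro n
    rw [Nat.even_iff, Nat.even_iff, Nat.mod_mod_of_dvd n h2W]
  have hY₁r : (N : ℝ) = 14 * Y₁ := by rw [hN]; push_cast; ring
  have hY₁0 : (0 : ℝ) < Y₁ := by linarith
  have hBcard : (Bc.card : ℝ) ≤ 14 * W / L := by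
    have g1 : ∀ b ∈ Bc, (Y₁ : ℝ) / W ≤ (((Ioc (4 * Y₁) (12 * Y₁)).filter (fun n => n % W = b)).card : ℝ) := by
      intro b hb
      rw [hBm] at hb
      refine le_trans ?_ (class_low hW0 hb.1)
      have g2 : (1 : ℝ) ≤ Y₁ / W := by
        rw [le_div_iff₀ hWr, one_mul]
        exact_mod_cast (by omega : W ≤ Y₁)
      have e : (((12 * Y₁ : ℕ) : ℝ) - ((4 * Y₁ : ℕ) : ℝ)) / W = 8 * (Y₁ / W) := by push_cast; ring
      rw [e]
      linarith
    have g3 : ∑ b ∈ Bc, (((Ioc (4 * Y₁) (12 * Y₁)).filter (fun n => n % W = b)).card : ℝ) ≤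
        (((Ioc (4 * Y₁) (12 * Y₁)).filter (fun n => Even n ∧ ((GoodR k Y₁ w H H n).card : ℝ) < N / L ^ B)).card : ℝ) := by
      have g4 : ∑ b ∈ Bc, ((Ioc (4 * Y₁) (12 * Y₁)).filter (fun n => n % W = b)).card =
          (Bc.biUnion (fun b => (Ioc (4 * Y₁) (12 * Y₁)).filter (fun n => n % W = b))).card := by
        rw [card_biUnion]
        intro b _ b' _ hbb
        rw [Function.onFun, disjoint_left]
        intro n hn hn'
        rw [mem_filter] at hn hn'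
        exact hbb (hn.2.symm.trans hn'.2)
      have g5 : (Bc.biUnion (fun b => (Ioc (4 * Y₁) (12 * Y₁)).filter (fun n => n % W = b))) ⊆
          (Ioc (4 * Y₁) (12 * Y₁)).filter (fun n => Even n ∧ ((GoodR k Y₁ w H H n).card : ℝ) < N / L ^ B) := by
        intro n hn
        rw [mem_biUnion] at hn
        obtain ⟨b, hb, hn⟩ := hn
        rw [mem_filter] at hn ⊢
        rw [hBm, hP] at hb
        refine ⟨hn.1, ?_, hb.2.2 n hn.1 hn.2⟩
        rw [← hpar n, hn.2]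
        exact hb.2.1
      have g6 := card_le_card g5
      rw [← g4] at g6
      exact_mod_cast g6
    have g7 := (sum_le_sum g1).trans (g3.trans hr2)
    rw [sum_const, nsmul_eq_mul, hY₁r] at g7
    rw [le_div_iff₀ hL0]
    have g8 : (Bc.card : ℝ) * (Y₁ / W) * (L * W) ≤ 14 * Y₁ / L * (L * W) := mul_le_mul_of_nonneg_right g7 (by positivity)
    have e1 : (Bc.card : ℝ) * (Y₁ / W) * (L * W) = (Bc.card * L) * Y₁ := by field_simp
    have e2 : 14 * (Y₁ : ℝ) / L * (L * W) = (14 * W) * Y₁ := by field_simp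
    rw [e1, e2] at g8
    exact le_of_mul_le_mul_right g8 hY₁0
  -- the threshold
  obtain ⟨T, hT⟩ : ∃ T : ℝ, T = Y / L ^ D := ⟨_, rfl⟩
  have hthr : ∀ n : ℕ, 2 * Y' < n → n ≤ 4 * Y' → (n : ℝ) / Real.log n ^ E ≤ T := by
    intro n hn1 hn2
    have h8 : 8 ≤ Y' := le_trans (le_trans (le_max_right _ _) (le_max_right _ _)) hY'
    have g1 : L ≤ 2 * Real.log n := by
      have : (N : ℝ) ≤ (n : ℝ) ^ 2 := by
        have : N ≤ n ^ 2 := by
          have k1 : 8 * Y' ≤ n * n := Nat.mul_le_mul (by omega) (by omega)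
          have k2 : N ≤ 7 * Y' := by omega
          rw [sq]
          omega
        exact_mod_cast this
      have h9 := Real.log_le_log hN0 this
      rw [Real.log_pow, ← hL] at h9
      exact_mod_cast h9
    have hn0 : (n : ℝ) ≤ 4 * Y' := by exact_mod_cast hn2
    have g2 : (L / 2) ^ E ≤ Real.log n ^ E := pow_le_pow_left₀ (by positivity) (by linarith) E
    have g3 : (n : ℝ) / Real.log n ^ E ≤ 4 * Y' / (L / 2) ^ E := div_le_div₀ (by positivity) hn0 (by positivity) g2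
    refine g3.trans ?_
    rw [hT]
    have g4 : (Y' : ℝ) / L ^ (2 * K + 1) ≤ Y := by
      refine le_trans ?_ hYlow
      exact div_le_div_of_nonneg_left hY'0.le hWr b3
    have g5 : 4 * (Y' : ℝ) / (L / 2) ^ E = (4 * 2 ^ E / L) * ((Y' : ℝ) / L ^ (2 * K + 1) / L ^ D) := by
      have e1 : L ^ E = L * L ^ (2 * K + 1) * L ^ D := by rw [hE]; ring
      rw [div_pow, e1]
      field_simp
    rw [g5]
    have g6 : 4 * 2 ^ E / L ≤ 1 := by rw [div_le_one hL0]; exact lE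
    calc (4 * 2 ^ E / L) * ((Y' : ℝ) / L ^ (2 * K + 1) / L ^ D) ≤ 1 * ((Y' : ℝ) / L ^ (2 * K + 1) / L ^ D) := mul_le_mul_of_nonneg_right g6 (by positivity)
      _ = (Y' : ℝ) / L ^ (2 * K + 1) / L ^ D := one_mul _
      _ ≤ _ := by gcongr
  -- a good class
  have hgood : ∀ b ∈ range W, Even b → b ∉ Bc →
      (((Ioc (2 * Y') (4 * Y')).filter (fun n => 2 * Y' + 4 * W < n ∧ n % W = b ∧ ((Sol H m n).card : ℝ) < T)).card : ℝ) ≤ δ * Y := by
    intro b hb hev hbB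
    rw [hBm, hP, not_and] at hbB
    have h7 := hbB (mem_range.1 hb)
    rw [not_and] at h7
    have h8 := h7 hev
    push Not at h8
    obtain ⟨n₀, hn1, hn2, hn3⟩ := h8
    rw [mem_Ioc] at hn1
    have hpos : (0 : ℝ) < (GoodR k Y₁ w H H n₀).card := lt_of_lt_of_le (by positivity) hn3
    have hne : (GoodR k Y₁ w H H n₀).Nonempty := by
      rw [← card_pos]
      exact_mod_cast hpos
    obtain ⟨g, e, M, hgW, he, hcop, hM, hMc, hfin⟩ := class_bound k k₁ m H hH w Y₁ Y' Y b n₀ (by omega) (by rw [← hW]; exact hY)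
      (by rw [← hW]; omega) (by rw [← hW]; exact hn2) (by omega) hne T
    rw [← hW] at hgW hMc
    refine le_trans (Nat.cast_le.2 ?_) (hcc Y w g hw3 hwL ?_ ?_ (fun i => H (e i)) (hH.comp he) (fun i => hHL _) hcop M hM ?_)
    · rw [← hT, hW]; exact hfin
    · rw [← hW]; omega
    · -- the size of `Y`
      refine le_trans ?_ hYlow
      rw [div_le_div_iff₀ (by positivity) hWr]
      have e1 : L ^ (2 * K + 2) = L ^ (2 * K + 1) * L := by rw [← pow_succ]
      rw [e1]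
      calc (N : ℝ) * W ≤ (7 * Y') * L ^ (2 * K + 1) := mul_le_mul hN7 b3 hWr.le (by positivity)
        _ = Y' * (L ^ (2 * K + 1) * 7) := by ring
        _ ≤ Y' * (L ^ (2 * K + 1) * L) := by gcongr; linarith
    · -- the size of `M`
      have g1 : (N : ℝ) / L ^ B ≤ (W * 2 ^ k₁) * M.card := by
        refine hn3.trans ?_
        exact_mod_cast hMc
      rw [div_le_iff₀ (by positivity)] at g1 ⊢
      have g2 : (W : ℝ) * Y ≤ N := by
        have h9 : W * Y ≤ N := by omega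
        exact_mod_cast h9
      have g3 : (W : ℝ) * Y ≤ W * (M.card * L ^ (B + 1)) := by
        calc (W : ℝ) * Y ≤ W * 2 ^ k₁ * M.card * L ^ B := g2.trans g1
          _ = W * (M.card * (L ^ B * 2 ^ k₁)) := by ring
          _ ≤ W * (M.card * (L ^ B * L)) := by gcongr; linarith
          _ = _ := by rw [pow_succ]
      exact le_of_mul_le_mul_left g3 hWr
  -- the union
  have hsub : (Ioc (2 * Y') (4 * Y')).filter (fun n => Even n ∧ ((Sol H m n).card : ℝ) < n / Real.log n ^ E) ⊆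
      (Ioc (2 * Y') (2 * Y' + 4 * W) ∪ Bc.biUnion (fun b => (Ioc (2 * Y') (4 * Y')).filter (fun n => n % W = b))) ∪
      ((range W).filter (fun b => Even b ∧ b ∉ Bc)).biUnion (fun b => (Ioc (2 * Y') (4 * Y')).filter (fun n => 2 * Y' + 4 * W < n ∧ n % W = b ∧ ((Sol H m n).card : ℝ) < T)) := by
    intro n hn
    rw [mem_filter] at hn
    rw [mem_union, mem_union, mem_biUnion, mem_biUnion]
    by_cases hn1 : n ≤ 2 * Y' + 4 * W
    · left; left
      rw [mem_Ioc] at hn ⊢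
      exact ⟨hn.1.1, hn1⟩
    · have hmod := Nat.mod_lt n hW0
      have hev : Even (n % W) := (hpar n).2 hn.2.1
      by_cases hb : n % W ∈ Bc
      · left; right
        exact ⟨n % W, hb, mem_filter.2 ⟨hn.1, rfl⟩⟩
      · right
        have hn3 := mem_Ioc.1 hn.1
        refine ⟨n % W, mem_filter.2 ⟨mem_range.2 hmod, hev, hb⟩, mem_filter.2 ⟨hn.1, by omega, rfl, lt_of_lt_of_le hn.2.2 (hthr n hn3.1 hn3.2)⟩⟩
  have t1 : (4 : ℝ) * W ≤ δ₀ / 4 * Y' := by
    have g1 : (4 : ℝ) * W * L ≤ Y' := by nlinarith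
    have g2 : 4 / δ₀ ≤ L := by
      refine le_trans ?_ l3
      gcongr
      norm_num
    have g3 : (1 : ℝ) ≤ δ₀ / 4 * L := by
      have : 4 / δ₀ * (δ₀ / 4) ≤ L * (δ₀ / 4) := mul_le_mul_of_nonneg_right g2 (by positivity)
      have e : 4 / δ₀ * (δ₀ / 4) = 1 := by field_simp
      linarith
    calc (4 : ℝ) * W = 4 * W * 1 := by ring
      _ ≤ 4 * W * (δ₀ / 4 * L) := mul_le_mul_of_nonneg_left g3 (by positivity)
      _ = δ₀ / 4 * (4 * W * L) := by ring
      _ ≤ _ := mul_le_mul_of_nonneg_left g1 (by positivity)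
  have t2 : (Bc.card : ℝ) * (3 * Y' / W) ≤ δ₀ / 4 * Y' := by
    have g2 : 42 / L ≤ δ₀ / 4 := by
      rw [div_le_div_iff₀ hL0 (by norm_num)]
      rw [div_le_iff₀ hδ₀] at l3
      linarith
    calc (Bc.card : ℝ) * (3 * Y' / W) ≤ (14 * W / L) * (3 * Y' / W) := mul_le_mul_of_nonneg_right hBcard (by positivity)
      _ = 42 / L * Y' := by field_simp; ring
      _ ≤ _ := mul_le_mul_of_nonneg_right g2 hY'0.le
  calc _ ≤ ((((Ioc (2 * Y') (2 * Y' + 4 * W) ∪ Bc.biUnion (fun b => (Ioc (2 * Y') (4 * Y')).filter (fun n => n % W = b))) ∪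
      ((range W).filter (fun b => Even b ∧ b ∉ Bc)).biUnion (fun b => (Ioc (2 * Y') (4 * Y')).filter (fun n => 2 * Y' + 4 * W < n ∧ n % W = b ∧ ((Sol H m n).card : ℝ) < T))).card : ℕ) : ℝ) := by
        exact_mod_cast card_le_card hsub
    _ ≤ ((Ioc (2 * Y') (2 * Y' + 4 * W)).card : ℝ) + ∑ b ∈ Bc, (((Ioc (2 * Y') (4 * Y')).filter (fun n => n % W = b)).card : ℝ) +
        ∑ b ∈ (range W).filter (fun b => Even b ∧ b ∉ Bc), (((Ioc (2 * Y') (4 * Y')).filter (fun n => 2 * Y' + 4 * W < n ∧ n % W = b ∧ ((Sol H m n).card : ℝ) < T)).card : ℝ) := by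
        exact_mod_cast (card_union_le _ _).trans (add_le_add ((card_union_le _ _).trans (add_le_add le_rfl card_biUnion_le)) card_biUnion_le)
    _ ≤ 4 * W + Bc.card * (3 * Y' / W) + W * (δ * Y) := by
        apply add_le_add (add_le_add _ _)
        · refine (sum_le_sum (fun b hb => ?_)).trans (b := ∑ _b ∈ (range W).filter (fun b => Even b ∧ b ∉ Bc), δ * (Y : ℝ)) ?_
          · rw [mem_filter] at hb
            exact hgood b hb.1 hb.2.1 hb.2.2
          · rw [sum_const, nsmul_eq_mul]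
            apply mul_le_mul_of_nonneg_right _ (by positivity)
            have := card_filter_le (range W) (fun b => Even b ∧ b ∉ Bc)
            rw [card_range] at this
            exact_mod_cast this
        · rw [Nat.card_Ioc]
          have : 2 * Y' + 4 * W - 2 * Y' = 4 * W := by omega
          rw [this]
          push_cast
          exact le_rfl
        · refine (sum_le_sum (fun b hb => ?_)).trans (b := ∑ _b ∈ Bc, (3 * (Y' : ℝ) / W)) ?_
          · rw [hBm] at hb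
            refine (class_up (by omega) hW0 hb.1).trans ?_
            have g2 : (1 : ℝ) ≤ Y' / W := by
              rw [le_div_iff₀ hWr, one_mul]
              exact_mod_cast (by omega : W ≤ Y')
            have e : (((4 * Y' : ℕ) : ℝ) - ((2 * Y' : ℕ) : ℝ)) / W = 2 * (Y' / W) := by push_cast; ring
            rw [e]
            have e2 : 3 * (Y' : ℝ) / W = 3 * (Y' / W) := by ring
            rw [e2]
            linarith
          · rw [sum_const, nsmul_eq_mul]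
    _ ≤ δ₀ / 4 * Y' + δ₀ / 4 * Y' + δ₀ / 4 * Y' := by
        apply add_le_add (add_le_add t1 t2)
        calc (W : ℝ) * (δ * Y) = δ * (W * Y) := by ring
          _ ≤ (δ₀ / 8) * (2 * Y') := mul_le_mul hδ8 hYup (by positivity) (by positivity)
          _ = _ := by ring
    _ ≤ _ := by
        have : 0 ≤ δ₀ * Y' := by positivity
        linarith

open Classical in
/-- **the theorem for a fixed tuple.** -/
theorem exact_tuple (m : ℕ) (hm : 1 ≤ m) : ∃ k₁ : ℕ, 1 ≤ k₁ ∧ ∀ H : Fin k₁ → ℕ, Function.Injective H →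
    (∀ p, p.Prime → p ≤ 2 * k₁ → ∀ l, p ∣ H l) → ∀ ε : ℝ, 0 < ε → ∃ E X0 : ℕ, ∀ X : ℕ, X0 ≤ X →
    (((Icc 1 X).filter (fun n => Even n ∧ ((Sol H m n).card : ℝ) < n / Real.log n ^ E)).card : ℝ) ≤ ε * X := by
  obtain ⟨k₁, hk₁, hb⟩ := block m hm
  refine ⟨k₁, hk₁, fun H hH hd ε hε => ?_⟩
  obtain ⟨E, Y0, h0⟩ := hb H hH hd (ε / 2) (by linarith)
  obtain ⟨K, hK⟩ := dyadic_sum (fun n => Even n ∧ ((Sol H m n).card : ℝ) < n / Real.log n ^ E) (ε / 2) (by linarith) Y0 h0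
  refine ⟨E, ⌈2 * K / ε⌉₊, fun X hX => ?_⟩
  refine (hK X).trans ?_
  have q1 : 2 * (K : ℝ) / ε ≤ X := (Nat.le_ceil _).trans (by exact_mod_cast hX)
  rw [div_le_iff₀ hε] at q1
  linarith

end Pool.Agent.L0h42.CP
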