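import Mathlib
import Pool.Agent.L0h42.CP.C8

/-! From fixed tuples to exact sums with a common pattern. -/

set_option autoImplicit false
set_option linter.unusedSectionVars false
set_option linter.unusedVariables false

namespace Pool.Agent.L0h42.CP
open Finset
open Pool.Agent.L0h42.TB
open Pool.Agent.L0h42.EG
open Pool.Agent.H373R2.T7

/-- the representations `n = p + q` with `p`, `q` and all `p + d`, `q + d` prime -/
def reps (D : Finset ℕ) (n : ℕ) : Finset ℕ :=
  (Icc 1 n).filter (fun p => p.Prime ∧ (n - p).Prime ∧ ∀ d ∈ D, (p + d).Prime ∧ (n - p + d).Prime)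

lemma pattern_step (m k₁ C : ℕ) (H : Fin k₁ → ℕ) (hH : Function.Injective H) (hC : ∀ l, H l ≤ C) (n : ℕ) (T : ℝ) (hT : 0 < T)
    (hS : T * 2 ^ k₁ ≤ ((Sol H (m + 1) n).card : ℝ)) :
    ∃ i₀, ∃ D ⊆ Icc 1 C, D.card = m ∧ T ≤ ((reps D (n + 2 * H i₀)).card : ℝ) := by
  classical
  obtain ⟨f, hf⟩ : ∃ f : ℕ → Finset (Fin k₁), f = fun s => univ.filter (fun l => (s + H l).Prime ∧ (n - s + H l).Prime) := ⟨_, rfl⟩
  obtain ⟨G, hG⟩ : ∃ G, G = Sol H (m + 1) n := ⟨_, rfl⟩
  rw [← hG] at hS
  have hGpos : (0 : ℝ) < G.card := lt_of_lt_of_le (by positivity) hS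
  have hGc : 0 < G.card := by exact_mod_cast hGpos
  have hGne : G.Nonempty := card_pos.1 hGc
  obtain ⟨P, hP⟩ : ∃ P : Finset (Finset (Fin k₁)), P = (univ : Finset (Fin k₁)).powerset := ⟨_, rfl⟩
  have hPc : P.card = 2 ^ k₁ := by rw [hP, card_powerset, card_univ, Fintype.card_fin]
  have hmaps : ∀ s ∈ G, f s ∈ P := fun s _ => by rw [hP]; exact mem_powerset.2 (subset_univ _)
  have hex : ∃ y ∈ P, G.card ≤ P.card * (G.filter (fun a => f a = y)).card := by
    by_contra hcon
    push Not at hcon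
    have h1 := card_eq_sum_card_fiberwise hmaps
    have h3 : P.Nonempty := by
      obtain ⟨a, ha⟩ := hGne
      exact ⟨f a, hmaps a ha⟩
    have h2 : P.card * G.card < P.card * G.card := by
      calc P.card * G.card = ∑ y ∈ P, P.card * (G.filter (fun a => f a = y)).card := by rw [← mul_sum, ← h1]
        _ < ∑ _y ∈ P, G.card := sum_lt_sum_of_nonempty h3 hcon
        _ = P.card * G.card := by rw [sum_const, smul_eq_mul]
    exact lt_irrefl _ h2
  obtain ⟨J, hJ, hc⟩ := hex
  rw [hPc] at hc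
  obtain ⟨F, hF⟩ : ∃ F, F = G.filter (fun a => f a = J) := ⟨_, rfl⟩
  rw [← hF] at hc
  have hFT : T ≤ F.card := by
    have h1 : (G.card : ℝ) ≤ 2 ^ k₁ * F.card := by exact_mod_cast hc
    have h2 : T * 2 ^ k₁ ≤ F.card * 2 ^ k₁ := by linarith
    exact le_of_mul_le_mul_right h2 (by positivity)
  have hFpos : (0 : ℝ) < F.card := lt_of_lt_of_le hT hFT
  obtain ⟨s0, hs0⟩ : F.Nonempty := card_pos.1 (by exact_mod_cast hFpos)
  have hFm : ∀ s ∈ F, (1 ≤ s ∧ s < n) ∧ ∀ l ∈ J, (s + H l).Prime ∧ (n - s + H l).Prime := by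
    intro s hs
    rw [hF, mem_filter, hG] at hs
    obtain ⟨hs1, hs2⟩ := hs
    unfold Sol at hs1
    rw [mem_filter, mem_Ico] at hs1
    refine ⟨hs1.1, fun l hl => ?_⟩
    rw [← hs2, hf, mem_filter] at hl
    exact hl.2
  have hJc : m + 1 ≤ J.card := by
    rw [hF, mem_filter, hG] at hs0
    obtain ⟨hs1, hs2⟩ := hs0
    unfold Sol at hs1
    rw [mem_filter] at hs1
    rw [← hs2, hf]
    exact hs1.2
  obtain ⟨J', hJ1, hJ2⟩ := exists_subset_card_eq hJc
  have hJne : J'.Nonempty := card_pos.1 (by omega)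
  obtain ⟨i₀, hi1, hi2⟩ := exists_min_image J' H hJne
  refine ⟨i₀, (J'.erase i₀).image (fun j => H j - H i₀), ?_, ?_, ?_⟩
  · intro d hd
    rw [mem_image] at hd
    obtain ⟨j, hj, rfl⟩ := hd
    rw [mem_erase] at hj
    have h1 := hi2 j hj.2
    have h2 : H i₀ ≠ H j := fun h => hj.1 (hH h).symm
    have h3 := hC j
    rw [mem_Icc]
    omega
  · rw [card_image_of_injOn, card_erase_of_mem hi1, hJ2]
    · omega
    · intro j hj j' hj' hjj
      rw [mem_coe, mem_erase] at hj hj'
      have h1 := hi2 j hj.2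
      have h2 := hi2 j' hj'.2
      simp only at hjj
      exact hH (by omega)
  · refine hFT.trans (Nat.cast_le.2 ?_)
    apply card_le_card_of_injOn (fun s => s + H i₀)
    · intro s hs
      rw [mem_coe] at hs
      obtain ⟨⟨h1, h2⟩, h3⟩ := hFm s hs
      have h4 := h3 i₀ (hJ1 hi1)
      rw [mem_coe]
      change s + H i₀ ∈ _
      unfold reps
      have e1 : n + 2 * H i₀ - (s + H i₀) = n - s + H i₀ := by omega
      rw [mem_filter, mem_Icc, e1]
      refine ⟨⟨by omega, by omega⟩, h4.1, h4.2, fun d hd => ?_⟩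
      rw [mem_image] at hd
      obtain ⟨j, hj, rfl⟩ := hd
      rw [mem_erase] at hj
      have h5 := hi2 j hj.2
      have h6 := h3 j (hJ1 hj.2)
      have e2 : s + H i₀ + (H j - H i₀) = s + H j := by omega
      have e3 : n - s + H i₀ + (H j - H i₀) = n - s + H j := by omega
      rw [e2, e3]
      exact h6
    · intro s _ s' _ hss
      simp only at hss
      omega

/-- the property: many representations with a common pattern -/
def PG (m C E n : ℕ) : Prop := ∃ D ⊆ Icc 1 C, D.card = m ∧ (n : ℝ) / Real.log n ^ E ≤ ((reps D n).card : ℝ)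

open Classical in
/-- few bad translates -/
lemma few_bad (m k₁ W₀ T E' C : ℕ) (hW₀ : 1 ≤ W₀) (hTC : W₀ * T ≤ C) (E : (Fin k₁ → Fin T) → ℕ) (hE : ∀ e, E e ≤ E') :
    ∃ n0 : ℕ, ∀ n : ℕ, n0 ≤ n →
      (∀ e : Fin k₁ → Fin T, Function.Injective e → (n : ℝ) / Real.log n ^ (E e) ≤ ((Sol (fun l => W₀ * (e l + 1)) (m + 1) n).card : ℝ)) →
      ((range T).filter (fun j => ¬ PG m C (E' + 1) (n + 2 * (W₀ * (j + 1))))).card < k₁ + 1 := by
  obtain ⟨n1, h1⟩ := ev_L' (2 * 2 ^ k₁ + 1)
  refine ⟨max n1 (2 * C + 2), fun n hn hall => ?_⟩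
  have hn1 : n1 ≤ n := le_trans (le_max_left _ _) hn
  have hn2 : 2 * C + 2 ≤ n := le_trans (le_max_right _ _) hn
  have b1 := h1 n hn1
  by_contra hcon
  push Not at hcon
  obtain ⟨I, hI1, hI2⟩ := exists_subset_card_eq (show k₁ ≤ ((range T).filter (fun j => ¬ PG m C (E' + 1) (n + 2 * (W₀ * (j + 1))))).card by omega)
  have hIm : ∀ j ∈ I, j < T ∧ ¬ PG m C (E' + 1) (n + 2 * (W₀ * (j + 1))) := by
    intro j hj
    have := hI1 hj
    rw [mem_filter, mem_range] at this
    exact this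
  obtain ⟨e, he⟩ : ∃ e : Fin k₁ → Fin T, e = fun i => ⟨(I.equivFin.symm (Fin.cast hI2.symm i) : I), (hIm _ (I.equivFin.symm (Fin.cast hI2.symm i)).2).1⟩ := ⟨_, rfl⟩
  have heinj : Function.Injective e := by
    intro i j hij
    rw [he] at hij
    have h3 := congrArg Fin.val hij
    have := I.equivFin.symm.injective (Subtype.ext h3)
    exact Fin.cast_injective _ this
  have hebad : ∀ i, ¬ PG m C (E' + 1) (n + 2 * (W₀ * (e i + 1))) := by
    intro i
    rw [he]
    exact (hIm _ (I.equivFin.symm (Fin.cast hI2.symm i)).2).2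
  have hHinj : Function.Injective (fun l => W₀ * ((e l : ℕ) + 1)) := by
    intro i j hij
    simp only at hij
    have h3 := Nat.eq_of_mul_eq_mul_left (by omega) hij
    exact heinj (Fin.ext (by omega))
  have hHC : ∀ l, W₀ * ((e l : ℕ) + 1) ≤ C := by
    intro l
    refine le_trans (Nat.mul_le_mul_left _ ?_) hTC
    have := (e l).2
    omega
  have hL0 : 0 < Real.log n := by
    have : (0 : ℝ) < 2 * 2 ^ k₁ := by positivity
    linarith
  have hn0 : (0 : ℝ) < n := by exact_mod_cast (by omega : 0 < n)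
  obtain ⟨t, ht⟩ : ∃ t : ℝ, t = (n : ℝ) / Real.log n ^ (E e) / 2 ^ k₁ := ⟨_, rfl⟩
  have ht0 : 0 < t := by rw [ht]; positivity
  obtain ⟨i₀, D, hD1, hD2, hD3⟩ := pattern_step m k₁ C (fun l => W₀ * (e l + 1)) hHinj hHC n t ht0 (by
    rw [ht]
    refine le_trans (le_of_eq ?_) (hall e heinj)
    field_simp)
  apply hebad i₀
  refine ⟨D, hD1, hD2, le_trans ?_ hD3⟩
  obtain ⟨n', hn'⟩ : ∃ n', n' = n + 2 * (W₀ * ((e i₀ : ℕ) + 1)) := ⟨_, rfl⟩
  have hn'C : n' ≤ n + 2 * C := by rw [hn']; have := hHC i₀; omega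
  have hnn' : n ≤ n' := by omega
  rw [← hn', ht]
  have hLn' : Real.log n ≤ Real.log n' := Real.log_le_log hn0 (by exact_mod_cast hnn')
  have hLn'1 : 1 ≤ Real.log n' := by
    have : (0 : ℝ) < 2 * 2 ^ k₁ := by positivity
    linarith
  have g1 : (n' : ℝ) ≤ 2 * n := by exact_mod_cast (by omega : n' ≤ 2 * n)
  rw [div_div, div_le_div_iff₀ (by positivity) (by positivity)]
  have g2 : Real.log n ^ (E e) ≤ Real.log n' ^ E' := by
    calc Real.log n ^ (E e) ≤ Real.log n' ^ (E e) := pow_le_pow_left₀ hL0.le hLn' _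
      _ ≤ _ := pow_le_pow_right₀ hLn'1 (hE e)
  calc (n' : ℝ) * (Real.log n ^ (E e) * 2 ^ k₁) ≤ (2 * n) * (Real.log n' ^ E' * 2 ^ k₁) := by gcongr
    _ = n * (Real.log n' ^ E' * (2 * 2 ^ k₁)) := by ring
    _ ≤ n * (Real.log n' ^ E' * Real.log n') := by
        gcongr
        linarith
    _ = _ := by rw [pow_succ]

open Classical in
/-- **sums with a common pattern, almost all even numbers.** -/
theorem exact_pattern (m : ℕ) : ∃ κ : ℝ, 0 < κ ∧ ∀ C : ℕ, 1 ≤ C → ∃ E X0 : ℕ, ∀ X : ℕ, X0 ≤ X →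
    (((Icc 1 X).filter (fun n => Even n ∧ ¬ PG m C E n)).card : ℝ) ≤ κ / C * X := by
  obtain ⟨k₁, hk₁, htup⟩ := exact_tuple (m + 1) (by omega)
  obtain ⟨W₀, hW₀⟩ : ∃ W₀, W₀ = Wp (2 * k₁) := ⟨_, rfl⟩
  have hW1 : 1 ≤ W₀ := by rw [hW₀]; exact Wp_pos _
  have hWr : (1 : ℝ) ≤ W₀ := by exact_mod_cast hW1
  have hk₁r : (1 : ℝ) ≤ k₁ := by exact_mod_cast hk₁
  obtain ⟨κ, hκ⟩ : ∃ κ : ℝ, κ = 4 * k₁ * W₀ + 3 := ⟨_, rfl⟩
  have hκ0 : 0 < κ := by rw [hκ]; positivity
  refine ⟨κ, hκ0, fun C hC => ?_⟩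
  have hCr : (1 : ℝ) ≤ C := by exact_mod_cast hC
  by_cases hCW : C < W₀
  · -- small `C`
    refine ⟨0, 0, fun X _ => ?_⟩
    have h1 : ((Icc 1 X).filter (fun n => Even n ∧ ¬ PG m C 0 n)).card ≤ X := by
      refine (card_filter_le _ _).trans ?_
      simp
    have h2 : (1 : ℝ) ≤ κ / C := by
      rw [one_le_div (by linarith), hκ]
      have : (C : ℝ) ≤ W₀ := by exact_mod_cast hCW.le
      nlinarith
    have h3 : (X : ℝ) ≤ κ / C * X := le_mul_of_one_le_left (Nat.cast_nonneg _) h2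
    exact le_trans (by exact_mod_cast h1) h3
  · push Not at hCW
    obtain ⟨T, hT⟩ : ∃ T, T = C / W₀ := ⟨_, rfl⟩
    have hTC : W₀ * T ≤ C := by rw [hT]; exact Nat.mul_div_le C W₀
    have hT1 : 1 ≤ T := by rw [hT]; exact (Nat.one_le_div_iff (by omega)).2 hCW
    have hCT : C < W₀ * (T + 1) := by rw [hT]; exact Nat.lt_mul_div_succ C (by omega)
    -- the exceptional sets
    obtain ⟨Q, hQ⟩ : ∃ Q, Q = Fintype.card (Fin k₁ → Fin T) := ⟨_, rfl⟩
    obtain ⟨ε, hε⟩ : ∃ ε : ℝ, ε = 1 / (C * (Q + 1)) := ⟨_, rfl⟩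
    have hε0 : 0 < ε := by rw [hε]; positivity
    have hex : ∀ e : Fin k₁ → Fin T, ∃ E X0 : ℕ, Function.Injective e → ∀ X : ℕ, X0 ≤ X →
        (((Icc 1 X).filter (fun n => Even n ∧ ((Sol (fun l => W₀ * ((e l : ℕ) + 1)) (m + 1) n).card : ℝ) < n / Real.log n ^ E)).card : ℝ) ≤ ε * X := by
      intro e
      by_cases he : Function.Injective e
      · obtain ⟨E, X0, h⟩ := htup (fun l => W₀ * ((e l : ℕ) + 1)) (by
          intro i j hij
          simp only at hij
          have h3 := Nat.eq_of_mul_eq_mul_left (by omega) hij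
          exact he (Fin.ext (by omega))) (by
          intro p hp hp2 l
          apply Dvd.dvd.mul_right
          rw [hW₀]
          exact dvd_Wp (mem_pz.2 ⟨hp2, hp⟩)) ε hε0
        exact ⟨E, X0, fun _ => h⟩
      · exact ⟨0, 0, fun h => absurd h he⟩
    choose E X0 hEX using hex
    obtain ⟨E', hE'⟩ : ∃ E', E' = univ.sup E := ⟨_, rfl⟩
    have hEE : ∀ e, E e ≤ E' := fun e => by rw [hE']; exact le_sup (mem_univ e)
    obtain ⟨n0, hn0⟩ := few_bad m k₁ W₀ T E' C hW1 hTC E hEE
    refine ⟨E' + 1, max (univ.sup X0) (C * (2 * C + n0 + 1) ), fun X hX => ?_⟩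
    have hX1 : ∀ e, X0 e ≤ X := fun e => (le_sup (f := X0) (mem_univ e)).trans (le_trans (le_max_left _ _) hX)
    have hX2 : C * (2 * C + n0 + 1) ≤ X := le_trans (le_max_right _ _) hX
    obtain ⟨Bad, hBad⟩ : ∃ Bad : ℕ → Prop, Bad = fun n => Even n ∧ ¬ PG m C (E' + 1) n := ⟨_, rfl⟩
    obtain ⟨Ex, hEx⟩ : ∃ Ex : Finset ℕ, Ex = univ.biUnion (fun e : Fin k₁ → Fin T => if Function.Injective e then
      (Icc 1 X).filter (fun n => Even n ∧ ((Sol (fun l => W₀ * ((e l : ℕ) + 1)) (m + 1) n).card : ℝ) < n / Real.log n ^ (E e)) else ∅) := ⟨_, rfl⟩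
    have hExc : (Ex.card : ℝ) ≤ X / C := by
      have h1 : (Ex.card : ℝ) ≤ ∑ e : Fin k₁ → Fin T, (ε * X) := by
        rw [hEx]
        refine (Nat.cast_le.2 card_biUnion_le).trans ?_
        push_cast
        apply sum_le_sum
        intro e _
        split_ifs with he
        · exact hEX e he X (hX1 e)
        · simp; positivity
      rw [sum_const, card_univ, ← hQ, nsmul_eq_mul] at h1
      refine h1.trans ?_
      rw [hε]
      have e1 : (Q : ℝ) * (1 / (C * (Q + 1)) * X) = (Q / (Q + 1)) * (X / C) := by field_simp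
      rw [e1]
      have h2 : (Q : ℝ) / (Q + 1) ≤ 1 := by rw [div_le_one (by positivity)]; linarith
      calc _ ≤ 1 * ((X : ℝ) / C) := mul_le_mul_of_nonneg_right h2 (by positivity)
        _ = _ := one_mul _
    -- double counting
    have key : ∀ n ∈ Icc 1 X, Even n → (((range T).filter (fun j => Bad (n + 2 * (W₀ * (j + 1))))).card : ℝ) ≤
        k₁ + T * ((if n ∈ Ex then 1 else 0) + (if n < n0 then 1 else 0)) := by
      intro n hn hev
      have hle : (((range T).filter (fun j => Bad (n + 2 * (W₀ * (j + 1))))).card : ℝ) ≤ T := by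
        have := card_filter_le (range T) (fun j => Bad (n + 2 * (W₀ * (j + 1))))
        rw [card_range] at this
        exact_mod_cast this
      have hT0 : (0 : ℝ) ≤ T := Nat.cast_nonneg _
      by_cases h1 : n ∈ Ex
      · rw [if_pos h1]
        have h3 : (0 : ℝ) ≤ (if n < n0 then 1 else 0) := by split_ifs <;> norm_num
        nlinarith
      · by_cases h2 : n < n0
        · rw [if_neg h1, if_pos h2]
          linarith
        · rw [if_neg h1, if_neg h2]
          have h4 : ∀ e : Fin k₁ → Fin T, Function.Injective e → (n : ℝ) / Real.log n ^ (E e) ≤ ((Sol (fun l => W₀ * ((e l : ℕ) + 1)) (m + 1) n).card : ℝ) := by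
            intro e he
            by_contra hcon
            push Not at hcon
            apply h1
            rw [hEx, mem_biUnion]
            refine ⟨e, mem_univ _, ?_⟩
            rw [if_pos he, mem_filter]
            exact ⟨hn, hev, hcon⟩
          have h5 := hn0 n (by omega) h4
          have h6 : ((range T).filter (fun j => Bad (n + 2 * (W₀ * (j + 1))))).card ≤ ((range T).filter (fun j => ¬ PG m C (E' + 1) (n + 2 * (W₀ * (j + 1))))).card := by
            apply card_le_card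
            intro j hj
            rw [mem_filter, hBad] at hj
            rw [mem_filter]
            exact ⟨hj.1, hj.2.2⟩
          have h7 : ((range T).filter (fun j => Bad (n + 2 * (W₀ * (j + 1))))).card ≤ k₁ := by omega
          have h8 : (((range T).filter (fun j => Bad (n + 2 * (W₀ * (j + 1))))).card : ℝ) ≤ k₁ := by exact_mod_cast h7
          linarith
    have hsum1 : ∑ n ∈ (Icc 1 X).filter Even, (((range T).filter (fun j => Bad (n + 2 * (W₀ * (j + 1))))).card : ℝ) ≤
        k₁ * X + T * (Ex.card + n0) := by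
      have h1 : ∑ n ∈ (Icc 1 X).filter Even, (((range T).filter (fun j => Bad (n + 2 * (W₀ * (j + 1))))).card : ℝ) ≤
          ∑ n ∈ Icc 1 X, ((k₁ : ℝ) + T * ((if n ∈ Ex then 1 else 0) + (if n < n0 then 1 else 0))) := by
        refine (sum_le_sum (fun n hn => key n (mem_filter.1 hn).1 (mem_filter.1 hn).2)).trans ?_
        apply sum_le_sum_of_subset_of_nonneg (filter_subset _ _)
        intro n _ _
        positivity
      refine h1.trans ?_
      rw [sum_add_distrib, ← mul_sum, sum_add_distrib, sum_const, Nat.card_Icc, nsmul_eq_mul]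
      have h2 : ∑ n ∈ Icc 1 X, (if n ∈ Ex then (1 : ℝ) else 0) ≤ Ex.card := by
        rw [← sum_filter, sum_const, nsmul_eq_mul, mul_one]
        exact_mod_cast card_le_card (fun n hn => (mem_filter.1 hn).2)
      have h3 : ∑ n ∈ Icc 1 X, (if n < n0 then (1 : ℝ) else 0) ≤ n0 := by
        rw [← sum_filter, sum_const, nsmul_eq_mul, mul_one]
        have : ((Icc 1 X).filter (fun n => n < n0)).card ≤ (range n0).card :=
          card_le_card (fun n hn => mem_range.2 (mem_filter.1 hn).2)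
        rw [card_range] at this
        exact_mod_cast this
      have h4 : ((X + 1 - 1 : ℕ) : ℝ) = X := by
        congr 1
      rw [h4]
      have hT0 : (0 : ℝ) ≤ T := Nat.cast_nonneg _
      have h5 := mul_le_mul_of_nonneg_left (add_le_add h2 h3) hT0
      linarith
    have hsum2 : (T : ℝ) * (((Icc 1 X).filter (fun n => 2 * C < n ∧ Bad n)).card : ℝ) ≤
        ∑ n ∈ (Icc 1 X).filter Even, (((range T).filter (fun j => Bad (n + 2 * (W₀ * (j + 1))))).card : ℝ) := by
      have e1 : ∀ n ∈ (Icc 1 X).filter Even, (((range T).filter (fun j => Bad (n + 2 * (W₀ * (j + 1))))).card : ℝ) =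
          ∑ j ∈ range T, (if Bad (n + 2 * (W₀ * (j + 1))) then (1 : ℝ) else 0) := by
        intro n _
        rw [card_filter]
        push_cast
        rfl
      rw [sum_congr rfl e1, sum_comm]
      have h1 : ∀ j ∈ range T, (((Icc 1 X).filter (fun n => 2 * C < n ∧ Bad n)).card : ℝ) ≤
          ∑ n ∈ (Icc 1 X).filter Even, (if Bad (n + 2 * (W₀ * (j + 1))) then (1 : ℝ) else 0) := by
        intro j hj
        rw [mem_range] at hj
        rw [← sum_filter, sum_const, nsmul_eq_mul, mul_one]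
        apply Nat.cast_le.2
        have hjC : W₀ * (j + 1) ≤ C := le_trans (Nat.mul_le_mul_left _ (by omega)) hTC
        apply card_le_card_of_injOn (fun n => n - 2 * (W₀ * (j + 1)))
        · intro n hn
          rw [mem_coe, mem_filter, mem_Icc] at hn
          obtain ⟨⟨h1, h2⟩, h3, h4⟩ := hn
          have e2 : n - 2 * (W₀ * (j + 1)) + 2 * (W₀ * (j + 1)) = n := by omega
          change n - 2 * (W₀ * (j + 1)) ∈ _
          rw [mem_coe, mem_filter, mem_filter, mem_Icc]
          refine ⟨⟨⟨by omega, by omega⟩, ?_⟩, ?_⟩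
          · rw [hBad] at h4
            exact (Nat.even_sub (by omega)).2 ⟨fun _ => even_two_mul _, fun _ => h4.1⟩
          · rw [e2]; exact h4
        · intro n hn n' hn' hnn
          rw [mem_coe, mem_filter, mem_Icc] at hn hn'
          simp only at hnn
          omega
      refine le_trans (le_of_eq ?_) (sum_le_sum h1)
      rw [sum_const, card_range, nsmul_eq_mul]
    have hT0 : (0 : ℝ) < T := by exact_mod_cast hT1
    have h9 := hsum2.trans hsum1
    have h10 : (((Icc 1 X).filter (fun n => 2 * C < n ∧ Bad n)).card : ℝ) ≤ k₁ * X / T + (Ex.card + n0) := by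
      have e1 : (k₁ : ℝ) * X / T + (Ex.card + n0) = (k₁ * X + T * (Ex.card + n0)) / T := by field_simp
      rw [e1, le_div_iff₀ hT0]
      linarith
    have h11 : (((Icc 1 X).filter (fun n => Even n ∧ ¬ PG m C (E' + 1) n)).card : ℝ) ≤ 2 * C + (((Icc 1 X).filter (fun n => 2 * C < n ∧ Bad n)).card : ℝ) := by
      have h12 : ((Icc 1 X).filter (fun n => Even n ∧ ¬ PG m C (E' + 1) n)).card ≤ (Icc 1 (2 * C)).card + ((Icc 1 X).filter (fun n => 2 * C < n ∧ Bad n)).card := by
        refine le_trans (card_le_card ?_) (card_union_le _ _)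
        intro n hn
        rw [mem_filter, mem_Icc] at hn
        rw [mem_union, mem_filter, mem_Icc, mem_Icc]
        by_cases h13 : n ≤ 2 * C
        · left; exact ⟨hn.1.1, h13⟩
        · right
          refine ⟨hn.1, by omega, ?_⟩
          rw [hBad]
          exact hn.2
      rw [Nat.card_Icc] at h12
      have h14 : ((Icc 1 X).filter (fun n => Even n ∧ ¬ PG m C (E' + 1) n)).card ≤ 2 * C + ((Icc 1 X).filter (fun n => 2 * C < n ∧ Bad n)).card := by omega
      exact_mod_cast h14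
    have hX0 : (0 : ℝ) ≤ X := Nat.cast_nonneg _
    have h15 : (k₁ : ℝ) * X / T ≤ 2 * k₁ * W₀ / C * X := by
      have h16 : (C : ℝ) ≤ 2 * W₀ * T := by
        have : C ≤ 2 * (W₀ * T) := by
          have h17 : W₀ * 1 ≤ W₀ * T := Nat.mul_le_mul_left _ hT1
          have h18 : W₀ * (T + 1) = W₀ * T + W₀ := by ring
          omega
        have h19 : (C : ℝ) ≤ ((2 * (W₀ * T) : ℕ) : ℝ) := by exact_mod_cast this
        push_cast at h19
        linarith
      have e1 : 2 * (k₁ : ℝ) * W₀ / C * X = (k₁ * X) * ((2 * W₀) / C) := by ring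
      have e2 : (k₁ : ℝ) * X / T = (k₁ * X) * (1 / T) := by ring
      rw [e1, e2]
      apply mul_le_mul_of_nonneg_left _ (by positivity)
      rw [div_le_div_iff₀ hT0 (by linarith)]
      linarith
    have h20 : (2 * C + n0 : ℝ) ≤ X / C := by
      rw [le_div_iff₀ (by linarith)]
      have h21 : ((C * (2 * C + n0 + 1) : ℕ) : ℝ) ≤ X := by exact_mod_cast hX2
      push_cast at h21
      nlinarith
    refine h11.trans ?_
    have h22 : κ / C * X = 2 * k₁ * W₀ / C * X + 2 * k₁ * W₀ / C * X + X / C + X / C + X / C := by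
      rw [hκ]; ring
    have h23 : 0 ≤ 2 * k₁ * W₀ / C * (X : ℝ) := by positivity
    have h24 : 0 ≤ (X : ℝ) / C := by positivity
    rw [h22]
    linarith

end Pool.Agent.L0h42.CP
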